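import Pool.Agent.TWK.StK2
import Pool.Agent.MU3.N_GAL

/-!
# TWK_CYC2: a generator of `Gal(K B_(n+1) / K)`
-/

set_option autoImplicit false

open NumberField IsDedekindDomain Finset
open scoped nonZeroDivisors Pointwise

namespace Pool.Agent.TWK

open Pool.Agent.MU3 Pool.Agent.RI Pool.Agent.RID Pool.Agent.MUXK

namespace CYC2x

/-- In a cyclic Galois extension an automorphism of order dividing `[E' : E]` is trivial on `E`. -/
lemma fix {B' : Type} [Field B'] [Algebra ℚ B'] [FiniteDimensional ℚ B'] [IsGalois ℚ B']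
    [IsCyclic (B' ≃ₐ[ℚ] B')] (E : IntermediateField ℚ B') (l : ℕ) (hl : 0 < l)
    (h : Module.finrank E B' = l) (ρ : B' ≃ₐ[ℚ] B') (hρ : ρ ^ l = 1) : ∀ x ∈ E, ρ x = x := by
  classical
  have h1 : Nat.card E.fixingSubgroup = l := by
    rw [IsGalois.card_fixingSubgroup_eq_finrank, h]
  have h2 := IsCyclic.card_pow_eq_one_le (α := B' ≃ₐ[ℚ] B') hl
  let H : Finset (B' ≃ₐ[ℚ] B') := univ.filter fun a => a ∈ E.fixingSubgroup
  have h3 : H.card = l := by
    rw [← h1, Nat.card_eq_fintype_card, Fintype.card_subtype]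
  have h4 : H ⊆ univ.filter fun a : B' ≃ₐ[ℚ] B' => a ^ l = 1 := by
    intro a ha
    have h5 : a ∈ E.fixingSubgroup := (mem_filter.1 ha).2
    refine mem_filter.2 ⟨mem_univ _, ?_⟩
    have h6 : (⟨a, h5⟩ : E.fixingSubgroup) ^ l = 1 := by
      rw [← h1]
      exact pow_card_eq_one'
    exact congrArg Subtype.val h6
  have h5 := Finset.eq_of_subset_of_card_le h4 (h2.trans h3.ge)
  have h6 : ρ ∈ H := by
    rw [h5]
    exact mem_filter.2 ⟨mem_univ _, hρ⟩
  have h7 : ρ ∈ E.fixingSubgroup := (mem_filter.1 h6).2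
  exact (IntermediateField.mem_fixingSubgroup_iff E ρ).1 h7

/-- The subfield `A` of `C` as an extension of `ℚ`. -/
noncomputable def sub {A C : IntermediateField ℚ ℂ} (_h : A ≤ C) : IntermediateField ℚ C where
  carrier := {x | (x : ℂ) ∈ A}
  mul_mem' := by
    intro a b ha hb
    exact mul_mem (S := IntermediateField ℚ ℂ) ha hb
  add_mem' := by
    intro a b ha hb
    exact add_mem (S := IntermediateField ℚ ℂ) ha hb
  algebraMap_mem' := fun r => by
    rw [eq_ratCast]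
    exact SubfieldClass.ratCast_mem A r
  inv_mem' := by
    intro a ha
    exact inv_mem (S := IntermediateField ℚ ℂ) ha

lemma mem_sub {A C : IntermediateField ℚ ℂ} (h : A ≤ C) (x : C) : x ∈ sub h ↔ (x : ℂ) ∈ A :=
  Iff.rfl

lemma finrank_sub {A C : IntermediateField ℚ ℂ} (h : A ≤ C) :
    Module.finrank ℚ (sub h) = Module.finrank ℚ A := by
  let f : sub h →+ A :=
    { toFun := fun x => ⟨((x : C) : ℂ), x.2⟩
      map_zero' := rfl
      map_add' := fun _ _ => rfl }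
  have hf : Function.Bijective f := by
    constructor
    · intro x y hxy
      apply Subtype.ext
      apply Subtype.ext
      have h1 : ((f x : A) : ℂ) = ((f y : A) : ℂ) := by rw [hxy]
      exact h1
    · intro y
      exact ⟨⟨⟨(y : ℂ), h y.2⟩, y.2⟩, rfl⟩
  exact (LinearEquiv.ofBijective (AddMonoidHom.toRatLinearMap f) hf).finrank_eq

end CYC2x

open CYC2x in
theorem t_CYC2 : S_CYC2 := by
  intro l _ k K B _ _ hB n h
  have hpr : l.Prime := Fact.out
  let akL : Algebra k ↥(K ⊔ B (n + 1)) := algC h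
  have hKL : K ≤ K ⊔ B (n + 1) := le_sup_left
  have hBL : B (n + 1) ≤ K ⊔ B (n + 1) := le_sup_right
  let akK : Algebra k K := algC hB.hk
  let aKL : Algebra K ↥(K ⊔ B (n + 1)) := algC hKL
  let aBL : Algebra (B (n + 1)) ↥(K ⊔ B (n + 1)) := algC hBL
  have t0 : IsScalarTower k K ↥(K ⊔ B (n + 1)) := towerC hB.hk hKL
  have hT : IsScalarTower ℚ (B (n + 1)) ↥(K ⊔ B (n + 1)) :=
    IsScalarTower.of_algebraMap_eq fun x => by
      apply Subtype.ext
      rw [eq_ratCast, eq_ratCast, map_ratCast]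
  have hT' : IsScalarTower ℚ K ↥(K ⊔ B (n + 1)) :=
    IsScalarTower.of_algebraMap_eq fun x => by
      apply Subtype.ext
      rw [eq_ratCast, eq_ratCast, map_ratCast]
  obtain ⟨hfB, hGB, -⟩ := LAY_thm l (n + 1) (B (n + 1)) (hB.lay (n + 1))
  have hc0 : IsCyclic (B (n + 1) ≃ₐ[ℚ] B (n + 1)) := t_LAYC l (n + 1) _ (hB.lay (n + 1))
  have fdL : FiniteDimensional K ↥(K ⊔ B (n + 1)) :=
    Module.Finite.of_restrictScalars_finite ℚ K _
  obtain ⟨gL0, hdvd⟩ := MU3.Gal.base K (B (n + 1)) (hB.lay (n + 1))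
  have gL : IsGalois K ↥(K ⊔ B (n + 1)) := (isGalois_algC hKL).2 gL0
  obtain ⟨e, -, he⟩ := (Nat.dvd_prime_pow hpr).1 hdvd
  have dL : Module.finrank K ↥(K ⊔ B (n + 1)) = l ^ e := (finrank_algC hKL).trans he
  have hcyc := CDL.cyclic (F := K) hc0
  have hcyc2 : IsCyclic (↥(K ⊔ B (n + 1)) ≃ₐ[K] ↥(K ⊔ B (n + 1))) :=
    isCyclic_of_injective (AlgEquiv.autCongr (extEquiv hKL)).symm.toMonoidHom
      (AlgEquiv.autCongr (extEquiv hKL)).symm.injective
  obtain ⟨g, hg⟩ := hcyc2.exists_generator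
  have hgo : orderOf g = l ^ e := by
    rw [orderOf_eq_card_of_forall_mem_zpowers hg, IsGalois.card_aut_eq_finrank, dL]
  let r : (↥(K ⊔ B (n + 1)) ≃ₐ[K] ↥(K ⊔ B (n + 1))) →* (B (n + 1) ≃ₐ[ℚ] B (n + 1)) :=
    (AlgEquiv.restrictNormalHom (F := ℚ) (K₁ := ↥(K ⊔ B (n + 1))) (B (n + 1))).comp
      (AlgEquiv.restrictScalarsHom ℚ)
  have hr : ∀ (σ : ↥(K ⊔ B (n + 1)) ≃ₐ[K] ↥(K ⊔ B (n + 1))) (x : B (n + 1)),
      algebraMap (B (n + 1)) ↥(K ⊔ B (n + 1)) (r σ x) =
        σ (algebraMap (B (n + 1)) ↥(K ⊔ B (n + 1)) x) := by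
    intro σ x
    exact AlgEquiv.restrictNormal_commutes (AlgEquiv.restrictScalars ℚ σ) (B (n + 1)) x
  have hpow : ∀ j : ℕ, (AlgEquiv.restrictScalars k g :
      ↥(K ⊔ B (n + 1)) ≃ₐ[k] ↥(K ⊔ B (n + 1))) ^ j = AlgEquiv.restrictScalars k (g ^ j) := fun j =>
    (map_pow (AlgEquiv.restrictScalarsHom k :
      (↥(K ⊔ B (n + 1)) ≃ₐ[K] ↥(K ⊔ B (n + 1))) →* _) g j).symm
  have hord : orderOf (AlgEquiv.restrictScalars k g :
      ↥(K ⊔ B (n + 1)) ≃ₐ[k] ↥(K ⊔ B (n + 1))) = orderOf g := by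
    refine orderOf_injective
      (AlgEquiv.restrictScalarsHom k : (↥(K ⊔ B (n + 1)) ≃ₐ[K] ↥(K ⊔ B (n + 1))) →* _) ?_ g
    exact AlgEquiv.restrictScalars_injective k
  refine ⟨e, AlgEquiv.restrictScalars k g, hord.trans hgo, ?_, ?_, ?_⟩
  · have h3 : Module.finrank ℚ K * Module.finrank K ↥(K ⊔ B (n + 1)) =
        Module.finrank ℚ ↥(K ⊔ B (n + 1)) := Module.finrank_mul_finrank ℚ K _
    rw [mul_comm, ← dL, h3, ← (hB.lay (n + 1)).1]
    exact LinearMap.finrank_le_finrank_of_injective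
      (f := (IntermediateField.inclusion hBL).toLinearMap)
      (IntermediateField.inclusion hBL).toRingHom.injective
  · intro x hx
    exact g.commutes ⟨(x : ℂ), hx⟩
  · intro e' he'
    have h1 : (g ^ (l ^ e')) ^ l = 1 := by
      rw [← pow_mul, ← pow_succ, ← he', ← hgo, pow_orderOf_eq_one]
    have h2 : g ^ (l ^ e') ≠ 1 := by
      intro h3
      have h4 := orderOf_dvd_of_pow_eq_one h3
      rw [hgo, he', pow_succ] at h4
      have h5 := Nat.le_of_dvd (pow_pos hpr.pos e') h4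
      have h6 := hpr.two_le
      have h7 : 0 < l ^ e' := pow_pos hpr.pos e'
      nlinarith
    rw [hpow]
    constructor
    · have hBB : B n ≤ B (n + 1) := hB.mono (Nat.le_succ n)
      obtain ⟨hfBn, -, -⟩ := LAY_thm l n (B n) (hB.lay n)
      have h3 : Module.finrank (sub hBB) (B (n + 1)) = l := by
        have h4 : Module.finrank ℚ (sub hBB) * Module.finrank (sub hBB) (B (n + 1)) =
            Module.finrank ℚ (B (n + 1)) := Module.finrank_mul_finrank ℚ _ _
        have h5 : Module.finrank ℚ (sub hBB) = l ^ n := by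
          rw [← (hB.lay n).1]
          exact finrank_sub hBB
        rw [h5, (hB.lay (n + 1)).1, pow_succ] at h4
        exact Nat.eq_of_mul_eq_mul_left (pow_pos hpr.pos n) h4
      have h4 := fix (sub hBB) l hpr.pos h3 (r (g ^ (l ^ e'))) (by
        rw [← map_pow, h1, map_one])
      intro x hx
      have h5 := h4 ⟨(x : ℂ), hBB hx⟩ ((mem_sub hBB _).2 hx)
      have h6 := hr (g ^ (l ^ e')) ⟨(x : ℂ), hBB hx⟩
      rw [h5] at h6
      exact h6.symm
    · by_contra hcon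
      push Not at hcon
      apply h2
      have h3 := GCC.triv hKL (g ^ (l ^ e')) (fun x hx => (g ^ (l ^ e')).commutes ⟨(x : ℂ), hx⟩)
        (fun x hx => hcon x hx)
      exact h3

end Pool.Agent.TWK
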