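import Pool.Agent.TWK.StK1

/-!
# TWK, second part: block K for subfields of `ℂ` (helper96), Theorem C of MP_b78433_nt

`k ≤ K ≤ K'` subfields of `ℂ` of finite degree, `K' / k` abelian, `B n` the layers of the cyclotomic `ℤ_l`-extension of `ℚ` (no linear
disjointness), `p ≠ l` prime, `p ∤ [K : k]`. `S_K1` (`StK1.lean`) is applied to `L = K B_(n+1)`, `F₁ = K B_n`, `M = K' B_(n+1)` for large `n`.
Every `def S_X : Prop` is the statement of a module, which proves `theorem t_X (h : S_Y) ... : S_X` (namespace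
`Pool.Agent.TWK`, file `Pool/Agent/TWK/X.lean`); the doc string contains the proof; `Uses` names the hypotheses.
`algC`, `numC`, `isGalois_algC`, `finrank_algC`, `LAY_thm`, `BCH_thm`: `Pool/Agent/RI`; `NC`, `t_LAYC`: `Pool/Agent/RID`, `MU3`.
-/

set_option autoImplicit false

open NumberField IsDedekindDomain Finset
open scoped nonZeroDivisors Pointwise

namespace Pool.Agent.TWK

open Pool.Agent.MU3 Pool.Agent.RI Pool.Agent.RID Pool.Agent.MUXK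

/-! ## Definitions -/

/-- `K / k` abelian, `B n` the layers of the cyclotomic `ℤ_l`-extension of `ℚ`. -/
structure BasC (l : ℕ) (k K : IntermediateField ℚ ℂ) (B : ℕ → IntermediateField ℚ ℂ) : Prop where
  hk : k ≤ K
  gal : IsGalois k (IntermediateField.extendScalars hk)
  ab : ∀ σ τ : (IntermediateField.extendScalars hk) ≃ₐ[k] (IntermediateField.extendScalars hk),
    σ * τ = τ * σ
  lay : ∀ n, IsLayer l n (B n)
  mono : Monotone B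

/-- The fields of block K: `k ≤ K ≤ K'`, `K' / k` abelian, `[K : k]` prime to `p`, `K'` contains the `2p`-th roots of
unity, the fields `K B_n` do not contain the `p`-th roots of unity. -/
structure SetC (p l : ℕ) (k K K' : IntermediateField ℚ ℂ) (B : ℕ → IntermediateField ℚ ℂ) :
    Prop where
  bas : BasC l k K' B
  hk : k ≤ K
  le : K ≤ K'
  cop : ¬ p ∣ Module.finrank k (IntermediateField.extendScalars hk)
  ze : ∃ ζ ∈ K', IsPrimitiveRoot ζ (2 * p)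
  om : ∀ n, ∀ z ∈ K ⊔ B n, ¬ IsPrimitiveRoot z p

/-! ## The statements -/

/-- SUBC: subfields.
PROOF. `K' / k` Galois abelian, `k ≤ K ≤ K'`: `K / k` is Galois (every subgroup of an abelian group is normal; `IsGalois.of_fixedField_normal_subgroup` or `normal_iff_isGalois`-type lemma) and every
automorphism of `K / k` is the restriction of one of `K' / k`, so `Gal(K/k)` is abelian. `extEquiv`, `isGalois_algC` of RI pass between `K` and `extendScalars`. -/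
def S_SUBC : Prop := ∀ (l : ℕ) (k K K' : IntermediateField ℚ ℂ) (B : ℕ → IntermediateField ℚ ℂ)
    [FiniteDimensional ℚ K'], BasC l k K' B → k ≤ K → K ≤ K' → BasC l k K B

/-- GALC: `K B_n / k` is Galois with abelian group.
PROOF. `Pool/Agent/MUX/K_GALX.lean` with `BasX` replaced by `BasC` (it uses only `hk`, `gal`, `ab`, `lay`). -/
def S_GALC : Prop := ∀ (l : ℕ) [Fact l.Prime] (k K : IntermediateField ℚ ℂ)
    (B : ℕ → IntermediateField ℚ ℂ)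
    [FiniteDimensional ℚ K] [∀ n, FiniteDimensional ℚ ↥(K ⊔ B n)], BasC l k K B →
    ∀ (n : ℕ) (h : k ≤ K ⊔ B n), letI := algC h
    IsGalois k ↥(K ⊔ B n) ∧ ∀ σ τ : ↥(K ⊔ B n) ≃ₐ[k] ↥(K ⊔ B n), σ * τ = τ * σ

/-- RAMC: `K B_n / k` is unramified outside a finite set independent of `n`.
PROOF. `Pool/Agent/MUX/K_RAMX.lean` with `BasX` replaced by `BasC` (it uses only `hk`, `lay`) and one more prime `p` put into `S'`. -/
def S_RAMC : Prop := ∀ (p l : ℕ) [Fact p.Prime] [Fact l.Prime] (k K : IntermediateField ℚ ℂ)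
    (B : ℕ → IntermediateField ℚ ℂ)
    [FiniteDimensional ℚ k] [FiniteDimensional ℚ K] [∀ n, FiniteDimensional ℚ ↥(K ⊔ B n)],
    BasC l k K B → ∃ S' : Finset ℕ, 2 ∈ S' ∧ p ∈ S' ∧ (∀ ℓ ∈ S', ℓ.Prime) ∧
    ∀ S : Finset ℕ, S' ⊆ S → ∀ (n : ℕ) (h : k ≤ K ⊔ B n), letI := algC h
    ∀ v : HeightOneSpectrum (𝓞 ↥(K ⊔ B n)), ¬ Above S v → v.asIdeal.ramificationIdx (𝓞 k) = 1

/-- CYC2: a generator of `Gal(K B_(n+1) / K)`.
PROOF. `M = K B_(n+1)`, `H` = the automorphisms of `M / k` trivial on `K` = `Gal(M/K)`. Restriction to `B_(n+1)` (normal over `ℚ`, `LAY_thm`) is injective on `H` (trivial on `K` and `B_(n+1)` implies trivial), with values in `Gal(B_(n+1)/ℚ)`, cyclic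
(`t_LAYC`) of order `l^(n+1)`. So `H` is cyclic (see `GenX.overK` in `Pool/Agent/MUX/K_GENX.lean`, `CDL.cyclic`) of order `l^e = [M : K]`, and `l^(n+1) = [B_(n+1) : ℚ] ≤ [M : ℚ] = l^e [K : ℚ]` (`LAY_thm`, `IsLayer`). `σ` = a generator. Let `e = e' + 1`, `τ = σ^(l^e')`, of order `l`. `τ` is not trivial on `M`, trivial on `K`,
so not trivial on `B_(n+1)`; its restriction has order `l`, and `Gal(B_(n+1)/B_n)` is the subgroup of order `l` of the cyclic group `Gal(B_(n+1)/ℚ)`, the only one, so it contains the restriction of `τ`: `τ` is trivial on `B_n`. -/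
def S_CYC2 : Prop := ∀ (l : ℕ) [Fact l.Prime] (k K : IntermediateField ℚ ℂ)
    (B : ℕ → IntermediateField ℚ ℂ)
    [FiniteDimensional ℚ K] [∀ n, FiniteDimensional ℚ ↥(K ⊔ B n)], BasC l k K B →
    ∀ (n : ℕ) (h : k ≤ K ⊔ B (n + 1)), letI := algC h
    ∃ (e : ℕ) (σ : ↥(K ⊔ B (n + 1)) ≃ₐ[k] ↥(K ⊔ B (n + 1))), orderOf σ = l ^ e ∧
      l ^ (n + 1) ≤ l ^ e * Module.finrank ℚ K ∧
      (∀ x : ↥(K ⊔ B (n + 1)), (x : ℂ) ∈ K → σ x = x) ∧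
      ∀ e' : ℕ, e = e' + 1 →
        (∀ x : ↥(K ⊔ B (n + 1)), (x : ℂ) ∈ B n → (σ ^ (l ^ e')) x = x) ∧
        ∃ x : ↥(K ⊔ B (n + 1)), (x : ℂ) ∈ B (n + 1) ∧ (σ ^ (l ^ e')) x ≠ x

/-- PRM2: a bounded power of the automorphisms of `l`-power order fixes all primes above `S`.
Uses S_PRB (MU3, `StGl.lean`). PROOF. `t_M0X` in `Pool/Agent/MUX/K_M0X.lean`, with the lemma `K_M0X.aux` (there the generator is used only to see that `γ` has `l`-power order, which is a hypothesis here). -/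
def S_PRM2 : Prop := ∀ (l : ℕ) [Fact l.Prime] (k K : IntermediateField ℚ ℂ)
    (B : ℕ → IntermediateField ℚ ℂ)
    [FiniteDimensional ℚ K] [∀ n, FiniteDimensional ℚ ↥(K ⊔ B n)], BasC l k K B →
    ∀ S : Finset ℕ, (∀ ℓ ∈ S, ℓ.Prime) → ∃ m₀ : ℕ, ∀ (n : ℕ) (h : k ≤ K ⊔ B n), letI := algC h
    ∀ (γ : ↥(K ⊔ B n) ≃ₐ[k] ↥(K ⊔ B n)) (e : ℕ), γ ^ (l ^ e) = 1 →
    ∀ v : HeightOneSpectrum (𝓞 ↥(K ⊔ B n)), Above S v → γ ^ (l ^ m₀) • v.asIdeal = v.asIdeal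

/-- LFT2: the automorphisms `g'`, `g`, `g₁` of `S_K1` for large `n`.
Uses S_SUBC, S_GALC, S_CYC2, S_PRM2. PROOF. `M = K' B_(n+1)`, `L = K B_(n+1)`, `F₁ = K B_n`. `σ`, `e` from CYC2 for `K'`, `m₀` from PRM2 for `K'`, `S`. For `n` large `e ≥ m₀ + 1` and `l^e ≥ C` (`l^e ≥ l^(n+1)/[K' : ℚ]`); `e = e' + 1`, `g' = σ^(l^e') = (σ^(l^m₀))^(l^(e' - m₀))` fixes all primes above `S`
and is trivial on `K'`. `L / k` is normal (GALC for `K`, SUBC): `s` = the restriction of `σ` to `L`, `g = s^(l^e')` = the restriction of `g'`. `g` is trivial on `K` and on `B_n`, so on `F₁` (the fixed field of `g` contains both), and not on `B_(n+1) ≤ L`: `g₁` = `g` as an automorphism over `F₁`. `Gal(L/F₁)` restricts injectively to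
`B_(n+1)`, trivial on `B_n`: its order divides `[B_(n+1) : B_n] = l`, so it is generated by `g₁ ≠ 1`. If `χ g ≠ 1` then `(χ s)^(l^e') ≠ 1`, `(χ s)^(l^e) = 1`: `orderOf (χ s) = l^e ≥ C` (`orderOf_eq_prime_pow`). -/
def S_LFT2 : Prop := ∀ (l : ℕ) [Fact l.Prime] (k K K' : IntermediateField ℚ ℂ)
    (B : ℕ → IntermediateField ℚ ℂ)
    [FiniteDimensional ℚ k] [FiniteDimensional ℚ K] [FiniteDimensional ℚ K']
    [∀ n, FiniteDimensional ℚ ↥(K ⊔ B n)] [∀ n, FiniteDimensional ℚ ↥(K' ⊔ B n)],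
    BasC l k K' B → k ≤ K → K ≤ K' →
    ∀ (S : Finset ℕ), (∀ ℓ ∈ S, ℓ.Prime) → ∀ C : ℕ, ∃ n₀ : ℕ, ∀ n, n₀ ≤ n →
    ∀ (h : k ≤ K ⊔ B (n + 1)) (h' : k ≤ K' ⊔ B (n + 1)) (hh : K ⊔ B (n + 1) ≤ K' ⊔ B (n + 1))
      (hF : K ⊔ B n ≤ K ⊔ B (n + 1)),
    letI := algC h
    letI := algC h'
    letI := algC hh
    letI := algC hF
    ∃ (g' : ↥(K' ⊔ B (n + 1)) ≃ₐ[k] ↥(K' ⊔ B (n + 1)))
      (g : ↥(K ⊔ B (n + 1)) ≃ₐ[k] ↥(K ⊔ B (n + 1)))
      (g₁ : ↥(K ⊔ B (n + 1)) ≃ₐ[↥(K ⊔ B n)] ↥(K ⊔ B (n + 1))),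
      (∀ x : ↥(K' ⊔ B (n + 1)), (x : ℂ) ∈ K' → g' x = x) ∧
      (∀ v : HeightOneSpectrum (𝓞 ↥(K' ⊔ B (n + 1))), Above S v → g' • v.asIdeal = v.asIdeal) ∧
      (∀ x : ↥(K ⊔ B (n + 1)), algebraMap ↥(K ⊔ B (n + 1)) ↥(K' ⊔ B (n + 1)) (g x) =
        g' (algebraMap ↥(K ⊔ B (n + 1)) ↥(K' ⊔ B (n + 1)) x)) ∧
      (∀ x, g₁ x = g x) ∧ (∀ τ : ↥(K ⊔ B (n + 1)) ≃ₐ[↥(K ⊔ B n)] ↥(K ⊔ B (n + 1)),
        τ ∈ Subgroup.zpowers g₁) ∧
      ∀ (F : Type) [Field F] (χ : (↥(K ⊔ B (n + 1)) ≃ₐ[k] ↥(K ⊔ B (n + 1))) →* Fˣ), χ g ≠ 1 →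
        ∃ s : ↥(K ⊔ B (n + 1)) ≃ₐ[k] ↥(K ⊔ B (n + 1)), C ≤ orderOf (χ s)

/-- DEG2: degrees.
PROOF. (1) `K' B = (K B) K'`, `[E K' : ℚ] ≤ [E : ℚ] [K' : ℚ]` (`IntermediateField.finrank_sup_le`) with `E = K B`, and `[E K' : ℚ] = [E K' : E] [E : ℚ]`; `finrank_algC`. (2) `[K B_n : k] = [K B_n : K] [K : k]`, and `[K B_n : K]` divides `[B_n : ℚ] = l^n` (`BCH_thm.1` with
`A = ⊥`, `C = B n`, `E = K`; or the Galois group embeds), `p ≠ l`. (3) `[K B_(n+1) : k] = [K B_(n+1) : K B_n] [K B_n : k]`, and (2). -/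
def S_DEG2 : Prop := ∀ (p l : ℕ) [Fact p.Prime] [Fact l.Prime], p ≠ l →
    ∀ (k K K' : IntermediateField ℚ ℂ) (B : ℕ → IntermediateField ℚ ℂ)
    [FiniteDimensional ℚ k] [FiniteDimensional ℚ K] [FiniteDimensional ℚ K']
    [∀ n, FiniteDimensional ℚ ↥(K ⊔ B n)] [∀ n, FiniteDimensional ℚ ↥(K' ⊔ B n)],
    (∀ n, IsLayer l n (B n)) → Monotone B → ∀ hk : k ≤ K, K ≤ K' →
    ¬ p ∣ Module.finrank k (IntermediateField.extendScalars hk) →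
    (∀ (n : ℕ) (hh : K ⊔ B n ≤ K' ⊔ B n), letI := algC hh
      Module.finrank ↥(K ⊔ B n) ↥(K' ⊔ B n) ≤ Module.finrank ℚ K') ∧
    (∀ (n : ℕ) (h : k ≤ K ⊔ B n), letI := algC h
      ¬ p ∣ Module.finrank k ↥(K ⊔ B n)) ∧
    ∀ (n : ℕ) (hF : K ⊔ B n ≤ K ⊔ B (n + 1)), letI := algC hF
      ¬ p ∣ Module.finrank ↥(K ⊔ B n) ↥(K ⊔ B (n + 1))

/-- NRM2: the norm as a product over `NC h' L`.
PROOF. `Algebra.norm_eq_prod_automorphisms`: `norm c = ∏_(σ : M ≃ₐ[L] M) σ c` in `M`; `M ≃ₐ[L] M` and `NC h' L` (automorphisms over `k` trivial on the elements of `L`) correspond to each other (`finprod_eq_prod_of_fintype`, `Equiv`); see `Pool/Agent/MUX/K_KOLX.lean`. -/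
def S_NRM2 : Prop := ∀ (k L M : IntermediateField ℚ ℂ) [FiniteDimensional ℚ M] (_hkL : k ≤ L)
    (h' : k ≤ M) (hh : L ≤ M),
    letI := algC h'
    letI := algC hh
    IsGalois L M → ∀ c : M, ((Algebra.norm L c : L) : ℂ) =
      ∏ᶠ g : NC h' L, (((g : M ≃ₐ[k] M) c : M) : ℂ)

/-- DSC2: descent of the equality of class numbers to subfields.
Uses BASE (`BASE_thm CL_thm` of RI). PROOF. `N₀ ≤ N₁`, `N₁ / k` abelian of degree prime to `p`. BASE for `N₁ / N₀`: `RelTriv N₀ N₁ p`. By BASE for `L / (L ⊓ N₀)` it is enough to show `RelTriv (L ⊓ N₀) L p` (both extensions are Galois of degree prime to `p`: subextensions and quotients of an abelian extension). Let `c : J L`,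
`∏_(σ ∈ Gal(L / L ⊓ N₀)) σ • c = 1`. `b = ext L N₁ c`. The restriction `Gal(N₁/N₀) → Gal(L / L ⊓ N₀)` is surjective (the fixed field of its image is `L ⊓ N₀`), all fibres have the same number `r` of elements, so `∏_(τ ∈ Gal(N₁/N₀)) τ • b = ext (∏_τ τ|L • c) = ext ((∏_σ σ • c)^r) = 1` (`EXTACT_thm`). So `b^m = prin x`, `m` prime to
`p`. Apply `CL.nm L N₁` (the product over `Gal(N₁/L)`): `nm (b^m) = ext (c)^(m d)`, `d = [N₁ : L]` (`CL.nm_ext`), `nm (prin x) = ext (prin (norm x))` (`CL.nm_prin`), and `ext` is injective (`ext_injective`): `c^(m d) = prin (norm x)`. -/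
def S_DSC2 : Prop := ∀ (p : ℕ) [Fact p.Prime] (k N₀ N₁ : IntermediateField ℚ ℂ)
    [FiniteDimensional ℚ N₁] (h₀ : k ≤ N₀) (h₁ : N₀ ≤ N₁),
    (letI := algC (h₀.trans h₁)
    IsGalois k N₁ ∧ (∀ σ τ : N₁ ≃ₐ[k] N₁, σ * τ = τ * σ) ∧ ¬ p ∣ Module.finrank k N₁) →
    padicValNat p (classNo N₁) = padicValNat p (classNo N₀) →
    ∀ L : IntermediateField ℚ ℂ, k ≤ L → L ≤ N₁ →
      padicValNat p (classNo L) = padicValNat p (classNo (L ⊓ N₀))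

/-- K2: the result of the block for subfields of `ℂ`.
Uses S_K1, S_PWL1, S_SUBC, S_GALC, S_RAMC, S_LFT2, S_DEG2, S_NRM2, S_DSC2 (assembly, helper96). -/
def S_K2 : Prop := ∀ (p l : ℕ) [Fact p.Prime] [Fact l.Prime], p ≠ l →
    ∀ (F : Type) [Field F] [CharP F p] [IsAlgClosed F]
    (k K K' : IntermediateField ℚ ℂ) (B : ℕ → IntermediateField ℚ ℂ)
    [FiniteDimensional ℚ k] [FiniteDimensional ℚ K] [FiniteDimensional ℚ K']
    [∀ n, FiniteDimensional ℚ ↥(K ⊔ B n)] [∀ n, FiniteDimensional ℚ ↥(K' ⊔ B n)],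
    SetC p l k K K' B →
    ∃ S' : Finset ℕ, 2 ∈ S' ∧ p ∈ S' ∧ (∀ ℓ ∈ S', ℓ.Prime) ∧
    ∀ S : Finset ℕ, S' ⊆ S → (∀ ℓ ∈ S, ℓ.Prime) → ∃ n₀ : ℕ, ∀ n, n₀ ≤ n →
    ∀ (h : k ≤ K ⊔ B (n + 1)) (h' : k ≤ K' ⊔ B (n + 1)),
    letI := algC h
    letI := algC h'
    ∀ (c : ↥(K' ⊔ B (n + 1))) (c₀ : ↥(K ⊔ B (n + 1))), c ≠ 0 → SU S ↥(K' ⊔ B (n + 1)) c →
    KolInP p k ↥(K' ⊔ B (n + 1)) {g | ∀ x : ↥(K' ⊔ B (n + 1)), (x : ℂ) ∈ K' → g x = x} S c →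
    (c₀ : ℂ) = ∏ᶠ g : NC h' (K ⊔ B (n + 1)),
      (((g : ↥(K' ⊔ B (n + 1)) ≃ₐ[k] ↥(K' ⊔ B (n + 1))) c : ↥(K' ⊔ B (n + 1))) : ℂ) →
    (∀ χ : (↥(K ⊔ B (n + 1)) ≃ₐ[k] ↥(K ⊔ B (n + 1))) →* Fˣ,
      (∃ g : ↥(K ⊔ B (n + 1)) ≃ₐ[k] ↥(K ⊔ B (n + 1)),
        (∀ x : ↥(K ⊔ B (n + 1)), (x : ℂ) ∈ K ⊔ B n → g x = x) ∧ χ g ≠ 1) →
      ∃ θ : F →+ ZMod p, ∀ y : ↥(K ⊔ B (n + 1)), y ^ p ≠ sE p χ θ c₀) →
    ∀ L : IntermediateField ℚ ℂ, k ≤ L → L ≤ K ⊔ B (n + 1) →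
      padicValNat p (classNo L) = padicValNat p (classNo (L ⊓ (K ⊔ B n)))

end Pool.Agent.TWK
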