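import Pool.Agent.TWK.StK6
import Pool.Agent.MUX.StZX
import Pool.Agent.RI.LAY

/-!
# TWK, module FIN1: block K combined with the unit theorem
-/

set_option autoImplicit false

open NumberField IsDedekindDomain

namespace Pool.Agent.TWK

open _root_.MU3 Pool.Agent.MU3 Pool.Agent.MU3A Pool.Agent.MU3B Pool.Agent.RI Pool.Agent.RID
  Pool.Agent.MUX Pool.Agent.MUXK Pool.Agent.MUXW Pool.Agent.MUXJ Pool.Agent.MUXZ
open Pool.Agent.MU3V (Sub GD)

namespace FIN1x

/-- the residue field of a valuation ring of an algebraically closed field is algebraically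
closed -/
theorem isAlgClosed_residueField {K : Type*} [Field K] [IsAlgClosed K] (V : ValuationSubring K) :
    IsAlgClosed (IsLocalRing.ResidueField V) := by
  apply IsAlgClosed.of_exists_root
  intro p hp hirr
  have h1 : p ∈ Polynomial.lifts (IsLocalRing.residue V) := by
    rw [Polynomial.mem_lifts]
    exact Polynomial.map_surjective _ IsLocalRing.residue_surjective p
  obtain ⟨P, hP, hdeg, hPm⟩ := Polynomial.lifts_and_natDegree_eq_and_monic h1 hp
  have h2 : P.degree ≠ 0 := by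
    intro h3
    have h4 : P.natDegree = 0 := Polynomial.natDegree_eq_of_degree_eq_some h3
    rw [hdeg] at h4
    have h5 := hirr.natDegree_pos
    omega
  obtain ⟨z, hz⟩ := IsAlgClosed.exists_aeval_eq_zero K P h2
  have hint : IsIntegral V z := ⟨P, hPm, hz⟩
  obtain ⟨y, hy⟩ := (IsIntegrallyClosed.isIntegral_iff (R := V) (K := K)).1 hint
  have h6 : P.eval y = 0 := by
    rw [← hy, Polynomial.aeval_algebraMap_apply] at hz
    have h7 := (FaithfulSMul.algebraMap_injective V K) (hz.trans (map_zero _).symm)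
    simpa using h7
  refine ⟨IsLocalRing.residue V y, ?_⟩
  rw [← hP, Polynomial.eval_map, Polynomial.eval₂_at_apply, h6, map_zero]

theorem charP_residueField (V : ValuationSubring ℂ) {p : ℕ} (hp : p.Prime)
    (hv : V.valuation (p : ℂ) < 1) : CharP (IsLocalRing.ResidueField V) p := by
  rw [CharP.charP_iff_prime_eq_zero hp]
  have h3 : (p : ℂ) ∈ V.nonunits := by
    rw [ValuationSubring.mem_nonunits_iff]
    exact hv
  obtain ⟨h4, h5⟩ := ValuationSubring.mem_nonunits_iff_exists_mem_maximalIdeal.1 h3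
  have h6 : ((p : ℕ) : IsLocalRing.ResidueField V) = IsLocalRing.residue V ⟨p, h4⟩ := by
    have h7 : (⟨p, h4⟩ : V) = ((p : ℕ) : V) := by
      apply Subtype.ext
      push_cast
      rfl
    rw [h7, map_natCast]
  rw [h6]
  exact (IsLocalRing.residue_eq_zero_iff _).2 h5

theorem natO_ne {A B : ℤ} {N : ℕ} (hN : N ≠ 0) : ((N : ℕ) : OO A B) ≠ 0 := by
  intro h0
  have h1 := congrArg QuadraticAlgebra.re h0
  rw [QuadraticAlgebra.re_natCast, QuadraticAlgebra.re_zero] at h1
  exact hN (by exact_mod_cast h1)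

theorem idl_ne {A B : ℤ} {N : ℕ} (hN : N ≠ 0) : idl (A := A) (B := B) N ≠ ⊥ := by
  intro h0
  rw [Ideal.span_singleton_eq_bot] at h0
  exact natO_ne hN h0

theorem idl_le {A B : ℤ} {n m : ℕ} (h : m ∣ n) : (idl n : Ideal (OO A B)) ≤ idl m := by
  rw [Ideal.span_singleton_le_span_singleton]
  obtain ⟨c, rfl⟩ := h
  exact ⟨(c : OO A B), by push_cast; ring⟩

theorem not_dvd_two {A B : ℤ} {m : ℕ} (hm : 5 ≤ m) : ¬ ((m : ℕ) : OO A B) ∣ 2 := by
  rintro ⟨c, hc⟩
  have h1 := congrArg QuadraticAlgebra.re hc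
  rw [QuadraticAlgebra.re_mul, QuadraticAlgebra.re_natCast, QuadraticAlgebra.im_natCast] at h1
  have h2 : ((2 : OO A B)).re = 2 := by
    have : (2 : OO A B) = ((2 : ℕ) : OO A B) := by norm_num
    rw [this, QuadraticAlgebra.re_natCast]
    norm_num
  rw [h2] at h1
  have h3 : (m : ℤ) ∣ 2 := ⟨c.re, by rw [h1]; ring⟩
  have h4 := Int.le_of_dvd (by norm_num) h3
  omega

end FIN1x

open FIN1x in
theorem t_FIN1 (hSETD : S_SETD) (hK5 : S_K5) (hMEM : Sy_MEM) (hTHN : Sz_THN) : S_FIN1 := by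
  intro p l hp hl h f h5 hpf hf0 h2f hlf A B hc T V hV N₀ ι _ R K _ _ hk hcop hKf Bn _ hlay hmono
    hsub
  have hpp : p.Prime := hp.out
  have hlp : l.Prime := hl.out
  have hpl : p ≠ l := by
    rintro rfl
    exact hpf hlf
  have hNL : NLex A B := ⟨_, _, _, R.nl R.i0⟩
  obtain ⟨K'', K', hfd1, hfd2, hD, hHas, hsub''⟩ := hSETD p l h f h5 hpf hf0 h2f hlf A B hc T hNL K
    hk hcop hKf Bn hlay hmono
    hsub
  have hfB : ∀ n, FiniteDimensional ℚ (Bn n) := fun n => (LAY_thm l n (Bn n) (hlay n)).1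
  have hfd1' : ∀ n, FiniteDimensional ℚ ↥(K'' ⊔ Bn n) := fun n => by
    have := hfB n
    exact IntermediateField.finiteDimensional_sup K'' (Bn n)
  have hfd2' : ∀ n, FiniteDimensional ℚ ↥(K' ⊔ Bn n) := fun n => by
    have := hfB n
    exact IntermediateField.finiteDimensional_sup K' (Bn n)
  have hAC : IsAlgClosed (IsLocalRing.ResidueField V) := isAlgClosed_residueField V
  have hCP : CharP (IsLocalRing.ResidueField V) p := charP_residueField V hpp hV
  set a : ℕ := 6 * f * p + 1 with hadef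
  have ha1 : 1 < a := by
    have : 0 < 6 * f * p := Nat.mul_pos (Nat.mul_pos (by norm_num) (Nat.pos_of_ne_zero hf0)) hpp.pos
    omega
  have hacop : a.Coprime (6 * f * p) := by
    rw [hadef, Nat.coprime_comm]
    exact Nat.coprime_self_add_right.2 (Nat.coprime_one_right _)
  have haodd : Odd a := by
    rw [hadef]
    refine Even.add_one ?_
    exact ((by decide : Even 6).mul_right f).mul_right p
  obtain ⟨H, hH, hθ⟩ := hTHN A B hc T N₀ ι R a haodd
  refine ⟨a, H R.i0, ha1, hacop, hH R.i0, ?_⟩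
  obtain ⟨n₀, hn₀⟩ := hK5 p l hpl (IsLocalRing.ResidueField V) A B hc T N₀ ι R K K'' K' Bn hD hHas
    a (H R.i0) (by omega) (hH R.i0) (f * p * l).primeFactors
  refine ⟨n₀, ?_⟩
  have step : ∀ n, n₀ ≤ n → UnitAt p l h f V R (H R.i0) K Bn n →
      ∀ L : IntermediateField ℚ ℂ, kk A B ≤ L → L ≤ K ⊔ Bn (n + 1) →
        padicValNat p (classNo L) = padicValNat p (classNo (L ⊓ (K ⊔ Bn n))) := by
    intro n hn hU L hkL hL
    set m : ℕ := f * l ^ (n + 1 + h) * p with hm
    have hm0 : m ≠ 0 := mul_ne_zero (mul_ne_zero hf0 (pow_ne_zero _ hlp.ne_zero)) hpp.ne_zero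
    have hm5 : 5 ≤ m := by
      refine h5.trans (Nat.le_of_dvd (Nat.pos_of_ne_zero hm0) ?_)
      exact dvd_mul_left p _
    have hm2 : ¬ ((m : ℕ) : OO A B) ∣ 2 := not_dvd_two hm5
    have hmu : ¬ IsUnit ((m : ℕ) : OO A B) := fun hu => hm2 hu.dvd
    have h6f : f ∣ 6 * f * p := ⟨6 * p, by ring⟩
    have h6p : p ∣ 6 * f * p := dvd_mul_left p _
    have haf : a.Coprime f := hacop.coprime_dvd_right h6f
    have hal : a.Coprime l := haf.coprime_dvd_right hlf
    have hap : a.Coprime p := hacop.coprime_dvd_right h6p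
    have ham : a.Coprime m := (haf.mul_right (hal.pow_right _)).mul_right hap
    obtain ⟨θ, hpt, hom, hne⟩ := hθ m hm0 hmu ham
    have h0 : kk A B ≤ K ⊔ Bn (n + 1) := hk.trans le_sup_left
    let i1 : Algebra (kk A B) ↥(K ⊔ Bn (n + 1)) := algC h0
    have hmle : RF (idl (A := A) (B := B) (f * l ^ (n + 1 + h))) ≤ RF (idl m) :=
      T.mono _ _ (idl_le (dvd_mul_right _ _))
    have hsubm : Sub (K ⊔ Bn (n + 1)) (RF (idl (A := A) (B := B) m)) := fun x hx =>
      hmle (hsub (n + 1) x hx)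
    have hsubm'' : Sub (K'' ⊔ Bn (n + 1)) (RF (idl (A := A) (B := B) m)) := fun x hx =>
      hmle (hsub'' (n + 1) x hx)
    have hM := hMEM A B (RF (idl (A := A) (B := B) m)) (T.fin _ (idl_ne hm0))
      (T.gal _ (idl_ne hm0)) (T.comm _ (idl_ne hm0)) (K ⊔ Bn (n + 1)) h0 hsubm θ hne
    have hmem : cW h0 θ ∈ K ⊔ Bn (n + 1) := by
      rw [hM.1]
      exact (hM.2.1 _).1
    refine hn₀ n hn m hm0 hm2 ham ?_ hsubm'' θ hne hom h0 ⟨cW h0 θ, hmem⟩ rfl
      (hU θ hpt h0 ⟨cW h0 θ, hmem⟩ rfl) L hkL hL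
    intro q hq hqm
    refine Nat.mem_primeFactors.2 ⟨hq, ?_, mul_ne_zero (mul_ne_zero hf0 hpp.ne_zero) hlp.ne_zero⟩
    rcases (Nat.Prime.dvd_mul hq).1 hqm with h1 | h1
    · rcases (Nat.Prime.dvd_mul hq).1 h1 with h2 | h2
      · exact (h2.mul_right p).mul_right l
      · exact (hq.dvd_of_dvd_pow h2).mul_left _
    · exact (h1.mul_left f).mul_right l
  intro n hn b
  induction b with
  | zero =>
    intro _ L hkL hL
    have : L ⊓ (K ⊔ Bn n) = L := inf_eq_left.2 (by simpa using hL)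
    rw [this]
  | succ b ih =>
    intro hU L hkL hL
    have h1 := step (n + b) (by omega) (hU b (Nat.lt_succ_self b)) L hkL hL
    have hkKb : kk A B ≤ L ⊓ (K ⊔ Bn (n + b)) := le_inf hkL (hk.trans le_sup_left)
    have h2 := ih (fun s hs => hU s (Nat.lt_succ_of_lt hs)) (L ⊓ (K ⊔ Bn (n + b))) hkKb inf_le_right
    rw [h1, h2, inf_assoc]
    have h3 : (K ⊔ Bn (n + b)) ⊓ (K ⊔ Bn n) = K ⊔ Bn n :=
      inf_eq_right.2 (sup_le_sup_left (hmono (Nat.le_add_right n b)) K)
    rw [h3]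

end Pool.Agent.TWK
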