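import Pool.Agent.MUX.StJX
import Pool.Agent.MUX.XLib

/-!
# TWK, module OMP: the ray class field of level `m` prime to `p` contains no primitive `p`-th root of unity
-/

set_option autoImplicit false

open NumberField IsDedekindDomain

namespace Pool.Agent.TWK

open _root_.MU3 Pool.Agent.MU3 Pool.Agent.MU3A Pool.Agent.MU3B Pool.Agent.RI Pool.Agent.RID
  Pool.Agent.MUX Pool.Agent.MUXJ

namespace OMPx

theorem natO_ne {A B : ℤ} {N : ℕ} (hN : N ≠ 0) : ((N : ℕ) : OO A B) ≠ 0 := by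
  intro h0
  have h1 := congrArg QuadraticAlgebra.re h0
  rw [QuadraticAlgebra.re_natCast, QuadraticAlgebra.re_zero] at h1
  exact hN (by exact_mod_cast h1)

theorem idl_ne {A B : ℤ} {N : ℕ} (hN : N ≠ 0) : idl (A := A) (B := B) N ≠ ⊥ := by
  intro h0
  rw [Ideal.span_singleton_eq_bot] at h0
  exact natO_ne hN h0

theorem idl_le {A B : ℤ} {n m : ℕ} (h : m ∣ n) : (idl n : Ideal (OO A B)) ≤ idl m := by
  rw [Ideal.span_singleton_le_span_singleton]
  obtain ⟨c, rfl⟩ := h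
  exact ⟨(c : OO A B), by push_cast; ring⟩

/-- a primitive `M`-th root of unity is in `RF (idl m)` if `M ∣ m` -/
theorem zeta_mem {A B : ℤ} (T : TorX A B) (hNL : NLex A B) {M m : ℕ} (hM : M ≠ 0) (hm : m ≠ 0)
    (hMm : M ∣ m) {z : ℂ} (hz : z ^ M = 1) :
    z ∈ (RF (idl (A := A) (B := B) m) : IntermediateField (kk A B) ℂ) := by
  obtain ⟨b, L, om, hL⟩ := hNL
  have hfix : FixK A B (RingEquiv.refl ℂ) := rfl
  obtain ⟨a, -, ha⟩ := T.act (idl m) (idl_ne hm) (RingEquiv.refl ℂ) hfix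
  obtain ⟨b', L', om', mu, -, hact⟩ := ha b L om hL
  exact (T.zeta M (idl m) a (RingEquiv.refl ℂ) b L L' om mu (idl_ne hm) hfix hM (idl_le hMm) hL
    hact z hz).1

theorem cop_int {A B : ℤ} {x m : ℕ} (h : x.Coprime m) :
    IsCoprime (sp ((x : ℕ) : OO A B)) (idl m) := by
  rw [Ideal.isCoprime_span_singleton_iff]
  obtain ⟨u, v, huv⟩ : IsCoprime ((x : ℕ) : ℤ) ((m : ℕ) : ℤ) := Nat.isCoprime_iff_coprime.2 h
  refine ⟨((u : ℤ) : OO A B), ((v : ℤ) : OO A B), ?_⟩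
  have := congrArg (fun k : ℤ => ((k : ℤ) : OO A B)) huv
  simpa using this

theorem nm_nat {A B : ℤ} (m : ℕ) : nm ((m : ℕ) : OO A B) = (m : ℤ) ^ 2 := by
  simp [nm]

end OMPx

open OMPx in
/-- `RF (idl m)` contains no primitive `p`-th root of unity if `p ≥ 5` does not divide `m`. -/
theorem t_OMP (p : ℕ) (hp : p.Prime) (h5 : 5 ≤ p) (A B : ℤ) (hc : MUX.CQ A B) (T : TorX A B)
    (hNL : NLex A B) (m : ℕ) (hm : m ≠ 0) (hpm : ¬ p ∣ m) :
    ∀ z ∈ (RF (idl (A := A) (B := B) m) : IntermediateField (kk A B) ℂ),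
      ¬ IsPrimitiveRoot z p := by
  intro z hz hprim
  have hcop : Nat.Coprime m p := (Nat.Prime.coprime_iff_not_dvd hp).2 hpm |>.symm
  obtain ⟨x, hx1, hx2⟩ := Nat.chineseRemainder hcop 1 2
  have hxm : x.Coprime m := by
    have h1 : Nat.gcd x m = Nat.gcd 1 m := Nat.ModEq.gcd_eq hx1
    rw [Nat.coprime_iff_gcd_eq_one, h1, Nat.gcd_one_left]
  have hxp : x.Coprime p := by
    have h1 : Nat.gcd x p = Nat.gcd 2 p := Nat.ModEq.gcd_eq hx2
    rw [Nat.coprime_iff_gcd_eq_one, h1]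
    exact (Nat.coprime_primes Nat.prime_two hp).2 (by omega)
  have hmp0 : m * p ≠ 0 := mul_ne_zero hm hp.ne_zero
  have hx0 : x ≠ 0 := by
    rintro rfl
    rw [Nat.coprime_zero_left] at hxp
    omega
  have hxO : ((x : ℕ) : OO A B) ≠ 0 := natO_ne hx0
  have hspx : sp ((x : ℕ) : OO A B) ≠ ⊥ := by
    rw [Ne, Ideal.span_singleton_eq_bot]
    exact hxO
  obtain ⟨σ, hσ, hact⟩ := T.surj (idl (m * p)) (idl_ne hmp0) (sp ((x : ℕ) : OO A B)) hspx
    (cop_int (Nat.Coprime.mul_right hxm hxp))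
  obtain ⟨b, L, om, hL⟩ := hNL
  obtain ⟨b', L', om', mu, hL', hI⟩ := hact b L om hL
  have hpz : z ^ p = 1 := hprim.pow_eq_one
  have h1 := (T.zeta p (idl (m * p)) (sp ((x : ℕ) : OO A B)) σ b L L' om mu (idl_ne hmp0) hσ
    hp.ne_zero (idl_le (dvd_mul_left p m)) hL hI z hpz).2
  -- level `m`
  have hI' : ActI σ (idl m) (sp ((x : ℕ) : OO A B)) L L' mu := by
    refine ⟨hI.kap, cop_int hxm, hI.isq, ?_⟩
    intro w hw
    exact hI.act w (fun y hy => hw y (idl_le (dvd_mul_right m p) hy))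
  have h2 := (T.triv (idl m) (sp ((x : ℕ) : OO A B)) σ b L L' om mu (idl_ne hm) hσ hL hI'
    hL'.nrm).2 ⟨((x : ℕ) : OO A B), ?_, rfl⟩ z hz
  · rw [h1] at h2
    have hnI : nI (sp ((x : ℕ) : OO A B)) = x ^ 2 := by
      rw [MUX.nI_sp hc hxO, nm_nat]
      simp [Int.natAbs_pow]
    rw [hnI] at h2
    have hz0 : z ≠ 0 := hprim.ne_zero hp.ne_zero
    have hx2' : 1 ≤ x ^ 2 := Nat.one_le_pow _ _ (Nat.pos_of_ne_zero hx0)
    have h3 : z ^ (x ^ 2 - 1) = 1 := by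
      apply mul_right_cancel₀ hz0
      rw [← pow_succ, Nat.sub_add_cancel hx2', h2, one_mul]
    have h4 : x ^ 2 ≡ 1 [MOD p] :=
      ((Nat.modEq_iff_dvd' hx2').2 (hprim.dvd_of_pow_eq_one _ h3)).symm
    have h6 : x ^ 2 ≡ 2 ^ 2 [MOD p] := hx2.pow 2
    have h7 : 1 ≡ 4 [MOD p] := h4.symm.trans h6
    have h8 : p ∣ 3 := by
      have := (Nat.modEq_iff_dvd' (by norm_num : 1 ≤ 4)).1 h7
      simpa using this
    have := Nat.le_of_dvd (by norm_num) h8
    omega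
  · rw [Ideal.mem_span_singleton]
    have h9 : (m : ℤ) ∣ (x : ℤ) - 1 := by
      have := (Nat.modEq_iff_dvd.1 hx1.symm)
      exact_mod_cast this
    obtain ⟨c, hc'⟩ := h9
    refine ⟨((c : ℤ) : OO A B), ?_⟩
    have := congrArg (fun k : ℤ => ((k : ℤ) : OO A B)) hc'
    push_cast at this
    exact this

end Pool.Agent.TWK
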