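import Pool.Agent.TWK.StK6
import Pool.Agent.TWK.OMP

/-!
# TWK, module SETD: the fields `K'' = RF (idl f)`, `K' = RF (idl (f p))`
-/

set_option autoImplicit false

open NumberField IsDedekindDomain

namespace Pool.Agent.TWK

open _root_.MU3 Pool.Agent.MU3 Pool.Agent.MU3A Pool.Agent.MU3B Pool.Agent.RI Pool.Agent.RID
  Pool.Agent.MUX Pool.Agent.MUXK Pool.Agent.MUXW Pool.Agent.MUXJ
open Pool.Agent.MU3V (Sub GD)

open OMPx in
theorem t_SETD : S_SETD := by
  intro p l hp hl h f h5 hpf hf0 h2f hlf A B hc T hNL K _ hfk hk hcop hKf Bn hlay hmono hsub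
  have hpp : p.Prime := hp.out
  have hlp : l.Prime := hl.out
  have hpl : ¬ p ∣ l := by
    intro hd
    rw [Nat.prime_dvd_prime_iff_eq hpp hlp] at hd
    exact hpf (hd ▸ hlf)
  have hfp0 : f * p ≠ 0 := mul_ne_zero hf0 hpp.ne_zero
  set F1 : IntermediateField (kk A B) ℂ := RF (idl (A := A) (B := B) f) with hF1
  set F2 : IntermediateField (kk A B) ℂ := RF (idl (A := A) (B := B) (f * p)) with hF2
  have hF12 : F1 ≤ F2 := T.mono _ _ (idl_le (dvd_mul_right f p))
  have hfin1 : FiniteDimensional (kk A B) F1 := T.fin _ (idl_ne hf0)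
  have hfin2 : FiniteDimensional (kk A B) F2 := T.fin _ (idl_ne hfp0)
  have hfd1 : FiniteDimensional ℚ (F1.restrictScalars ℚ) := by
    have : FiniteDimensional ℚ F1 := FiniteDimensional.trans ℚ (kk A B) F1
    exact this
  have hfd2 : FiniteDimensional ℚ (F2.restrictScalars ℚ) := by
    have : FiniteDimensional ℚ F2 := FiniteDimensional.trans ℚ (kk A B) F2
    exact this
  have hk2 : kk A B ≤ F2.restrictScalars ℚ := fun x hx => F2.algebraMap_mem ⟨x, hx⟩
  have he2 : IntermediateField.extendScalars hk2 = F2 := SetLike.ext fun x => Iff.rfl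
  have h12 : F1.restrictScalars ℚ ≤ F2.restrictScalars ℚ := fun x hx => hF12 hx
  have hK1 : K ≤ F1.restrictScalars ℚ := fun x hx => hKf x hx
  have h2p : 2 * p ∣ f * p := Nat.mul_dvd_mul_right h2f p
  have h2p0 : 2 * p ≠ 0 := mul_ne_zero two_ne_zero hpp.ne_zero
  obtain ⟨ζ, hζ⟩ : ∃ ζ : ℂ, IsPrimitiveRoot ζ (2 * p) := ⟨_, Complex.isPrimitiveRoot_exp _ h2p0⟩
  have hζm : ζ ∈ F2 := zeta_mem T hNL h2p0 hfp0 h2p hζ.pow_eq_one
  refine ⟨F1.restrictScalars ℚ, F2.restrictScalars ℚ, hfd1, hfd2, ?_, ?_, ?_⟩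
  · refine ⟨⟨⟨hk2, ?_, ?_, hlay, hmono⟩, hk, hK1.trans h12, hcop, ⟨ζ, hζm, hζ⟩, ?_⟩, hK1, h12⟩
    · rw [he2]
      exact T.gal _ (idl_ne hfp0)
    · rw [he2]
      exact T.comm _ (idl_ne hfp0)
    · intro n z hz
      refine t_OMP p hpp h5 A B hc T hNL (f * l ^ (n + h)) (mul_ne_zero hf0
        (pow_ne_zero _ hlp.ne_zero)) ?_ z (hsub n z hz)
      intro hd
      rcases (Nat.Prime.dvd_mul hpp).1 hd with hd | hd
      · exact hpf hd
      · exact hpl (hpp.dvd_of_dvd_pow hd)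
  · intro x hx
    exact T.mono ⊤ _ le_top hx
  · intro n
    have hle : F1.restrictScalars ℚ ⊔ Bn n ≤
        (RF (idl (A := A) (B := B) (f * l ^ (n + h)))).restrictScalars ℚ := by
      refine sup_le (fun x hx => ?_) (fun x hx => ?_)
      · exact T.mono _ _ (idl_le (dvd_mul_right f (l ^ (n + h)))) hx
      · exact hsub n x ((le_sup_right : Bn n ≤ K ⊔ Bn n) hx)
    exact fun x hx => hle hx

end Pool.Agent.TWK
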