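import Pool.Agent.TWK.All
import Pool.Agent.TWK.SETD
import Pool.Agent.TWK.FIN1
import Pool.Agent.TWK.FIN3

/-!
# TWK: block K of Theorem C up to the class number statement (helper96)

`k_FIN3 : S_FIN3` from the statements of block W of MUX, `Sz_THN` and the unit theorem `S_UNITA`.
-/

namespace Pool.Agent.TWK

open Pool.Agent.MU3 Pool.Agent.MUXK Pool.Agent.MUXW Pool.Agent.MUXJ Pool.Agent.MUX Pool.Agent.TWT
  Pool.Agent.MUXZ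

theorem k_FIN1 (h1 : Sy_MEM) (h2 : Sy_TOW) (h3 : Sy_SUC) (h4 : Sy_KOL) (h5 : Sz_THN) : S_FIN1 :=
  t_FIN1 t_SETD (k_K5 h1 h2 h3 h4) h1 h5

theorem k_FIN3 (h1 : Sy_MEM) (h2 : Sy_TOW) (h3 : Sy_SUC) (h4 : Sy_KOL) (h5 : Sz_THN)
    (h6 : S_UNITA) : S_FIN3 :=
  t_FIN3 (k_FIN1 h1 h2 h3 h4 h5) h6

end Pool.Agent.TWK
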