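import Pool.Agent.MUX.W_PRQ
import Pool.Agent.MUX.Q_EMB
import Pool.Agent.MUX.StJX
import Pool.Agent.MUX.E_RNG
import Mathlib.RingTheory.Ideal.Norm.AbsNorm

/-!
# TWK, module PVX: a prime `p` with two different primes of `k` above it

Existence of an ideal `P` of norm `p` of the order `O = OO A B` and of a valuation ring of `ℂ` above it.
-/

set_option autoImplicit false

open NumberField IsDedekindDomain
open scoped nonZeroDivisors Pointwise

namespace Pool.Agent.TWK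

open _root_.MU3 Pool.Agent.MU3 Pool.Agent.MU3A Pool.Agent.MU3B Pool.Agent.RI Pool.Agent.RID
open Pool.Agent.MUX Pool.Agent.MUXU Pool.Agent.MUXW Pool.Agent.MUXJ

noncomputable section

namespace PVXx

theorem finrank_le {A B : ℤ} (hw : wC A B ^ 2 = A + B * wC A B) :
    FiniteDimensional ℚ (kk A B) ∧ Module.finrank ℚ (kk A B) ≤ 2 := by
  have h0 : (Polynomial.X ^ 2 - Polynomial.C (B : ℚ) * Polynomial.X
      - Polynomial.C (A : ℚ)).Monic := by
    monicity!
  have h1 : (Polynomial.X ^ 2 - Polynomial.C (B : ℚ) * Polynomial.X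
      - Polynomial.C (A : ℚ)).natDegree ≤ 2 := by
    compute_degree
  have h2 : (Polynomial.aeval (wC A B)) (Polynomial.X ^ 2 - Polynomial.C (B : ℚ) * Polynomial.X
      - Polynomial.C (A : ℚ)) = 0 := by
    simp only [map_sub, map_mul, map_pow, Polynomial.aeval_X, Polynomial.aeval_C]
    simp only [eq_ratCast, Rat.cast_intCast]
    linear_combination hw
  have hint : IsIntegral ℚ (wC A B) := ⟨_, h0, h2⟩
  refine ⟨IntermediateField.adjoin.finiteDimensional hint, ?_⟩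
  have h3 : Module.finrank ℚ (kk A B) = (minpoly ℚ (wC A B)).natDegree :=
    IntermediateField.adjoin.finrank hint
  rw [h3]
  exact (Polynomial.natDegree_le_natDegree (minpoly.min ℚ _ h0 h2)).trans h1

/-- two different primes above `p` in a field of degree at most two have `p` elements -/
theorem absNorm_eq {k : Type} [Field k] [NumberField k] (h2 : Module.finrank ℚ k ≤ 2) {p : ℕ}
    (hp : p.Prime) {P Q : Ideal (𝓞 k)} (hP : P.IsPrime) (hQ : Q.IsPrime) (hPQ : P ≠ Q)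
    (hpP : (p : 𝓞 k) ∈ P) (hpQ : (p : 𝓞 k) ∈ Q) : Ideal.absNorm P = p := by
  have hp0 : (p : 𝓞 k) ≠ 0 := by exact_mod_cast hp.ne_zero
  have hP0 : P ≠ ⊥ := by
    rintro rfl
    exact hp0 ((Ideal.mem_bot).1 hpP)
  have hQ0 : Q ≠ ⊥ := by
    rintro rfl
    exact hp0 ((Ideal.mem_bot).1 hpQ)
  have hPm : P.IsMaximal := hP.isMaximal hP0
  have hQm : Q.IsMaximal := hQ.isMaximal hQ0
  have hcop : IsCoprime P Q := Ideal.isCoprime_of_isMaximal hPQ
  have hle : Ideal.span {(p : 𝓞 k)} ≤ P * Q := by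
    rw [Ideal.mul_eq_inf_of_isCoprime hcop, Ideal.span_singleton_le_iff_mem]
    exact ⟨hpP, hpQ⟩
  have h3 := Ideal.absNorm_dvd_absNorm_of_le hle
  rw [map_mul, Ideal.absNorm_span_natCast, RingOfIntegers.rank] at h3
  have h4 : Ideal.absNorm P * Ideal.absNorm Q ∣ p ^ 2 := h3.trans (pow_dvd_pow p h2)
  have hP1 : Ideal.absNorm P ≠ 1 := by
    rw [Ne, Ideal.absNorm_eq_one_iff]
    exact hP.ne_top
  have hQ1 : Ideal.absNorm Q ≠ 1 := by
    rw [Ne, Ideal.absNorm_eq_one_iff]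
    exact hQ.ne_top
  have h5 : Ideal.absNorm P ∣ p ^ 2 := (dvd_mul_right _ _).trans h4
  obtain ⟨i, hi, hiP⟩ := (Nat.dvd_prime_pow hp).1 h5
  interval_cases i
  · exact absurd (by rw [hiP, pow_zero]) hP1
  · rw [hiP, pow_one]
  · exfalso
    rw [hiP] at h4
    have h6 : Ideal.absNorm Q ∣ 1 :=
      (mul_dvd_mul_iff_left (pow_ne_zero 2 hp.ne_zero)).1 (by rwa [mul_one])
    exact hQ1 (Nat.dvd_one.1 h6)

/-- a valuation ring of `ℂ` above a maximal ideal -/
theorem exV {A B : ℤ} (h : MUX.CQ A B) (P : Ideal (OO A B)) (p : ℕ) (hpP : ((p : ℕ) : OO A B) ∈ P)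
    (hm : P.IsMaximal) : ∃ V : ValuationSubring ℂ, OverI V P ∧ (p : ℂ) ∈ V.nonunits := by
  let φ : OO A B →+* ℂ := Pool.Agent.MUXE.RNGaux.eH h
  have hφ : ∀ x, φ x = emb x := Pool.Agent.MUXE.RNGaux.eH_apply h
  have hinj : ∀ x y, φ x = φ y → x = y := by
    intro x y hxy
    rw [hφ, hφ] at hxy
    exact Pool.Agent.MUXE.RNGaux.emb_inj h hxy
  let I : Ideal φ.range := P.map φ.rangeRestrict
  have hmem : ∀ y, y ∈ I ↔ ∃ x ∈ P, φ.rangeRestrict x = y := fun y =>
    Ideal.mem_map_iff_of_surjective _ φ.rangeRestrict_surjective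
  have hI : I ≠ ⊤ := by
    intro hI
    have h1 : (1 : φ.range) ∈ I := by rw [hI]; trivial
    obtain ⟨x, hx, hx1⟩ := (hmem _).1 h1
    have h2 : φ x = φ 1 := by
      have := congrArg Subtype.val hx1
      rw [map_one]
      simpa using this
    rw [hinj _ _ h2] at hx
    exact hm.ne_top ((Ideal.eq_top_iff_one P).2 hx)
  obtain ⟨V, hV, hVI⟩ := Ideal.image_subset_nonunits_valuationSubring I hI
  have hle : ∀ x : OO A B, V.valuation (emb x) ≤ 1 := by
    intro x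
    rw [← hφ]
    exact (V.valuation_le_one_iff _).2 (hV ⟨x, rfl⟩)
  have hP1 : ∀ x ∈ P, emb x ∈ V.nonunits := by
    intro x hx
    rw [← hφ]
    exact hVI ⟨φ.rangeRestrict x, (hmem _).2 ⟨x, hx, rfl⟩, rfl⟩
  have hO : OverI V P := by
    intro x
    refine ⟨fun hx => ?_, hP1 x⟩
    by_contra hxP
    obtain ⟨y, i, hi, hy⟩ := hm.exists_inv hxP
    have h1 : emb y * emb x + emb i = 1 := by
      rw [← hφ, ← hφ, ← hφ, ← map_mul, ← map_add, hy, map_one]
    rw [ValuationSubring.mem_nonunits_iff] at hx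
    have hi' := hP1 i hi
    rw [ValuationSubring.mem_nonunits_iff] at hi'
    have h2 : V.valuation (emb y * emb x) < 1 := by
      rw [map_mul]
      exact lt_of_le_of_lt (mul_le_of_le_one_left' (hle y)) hx
    have h3 : V.valuation (emb y * emb x + emb i) < 1 := Valuation.map_add_lt _ h2 hi'
    rw [h1, map_one] at h3
    exact lt_irrefl _ h3
  refine ⟨V, hO, ?_⟩
  have h4 : emb ((p : ℕ) : OO A B) = (p : ℂ) := by
    rw [← hφ, map_natCast]
  rw [← h4]
  exact (hO _).2 hpP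

end PVXx

open PVXx in
/-- two different primes of `k = kk A B` above `p`: an ideal `P` of norm `p` of `O` and a valuation
ring above it -/
theorem t_PVX (A B : ℤ) (hc : CQ A B) (p : ℕ) (hp : p.Prime) (P₁ P₂ : Ideal (𝓞 (kk A B)))
    (h1 : P₁.IsPrime) (h2 : P₂.IsPrime) (h12 : P₁ ≠ P₂) (hp1 : (p : 𝓞 (kk A B)) ∈ P₁)
    (hp2 : (p : 𝓞 (kk A B)) ∈ P₂) :
    ∃ (P : Ideal (OO A B)) (V : ValuationSubring ℂ), IsPN p P ∧ OverI V P ∧
      (p : ℂ) ∈ V.nonunits := by
  have hpF := Fact.mk hp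
  obtain ⟨hmul, hadd, -, -, hnat, hinj, hw, -⟩ :=
    Pool.Agent.MUXV.tq_EMB A B ⟨hc.hB, hc.neg, hc.fund1, hc.fund0⟩
  obtain ⟨hfd, hfr⟩ := finrank_le hw
  have hnf : NumberField (kk A B) := ⟨⟩
  have hcard : Ideal.absNorm P₁ = p := absNorm_eq hfr hp h1 h2 h12 hp1 hp2
  obtain ⟨hsurj, -, hQ⟩ := ty_PRQ Pool.Agent.MUXV.tq_EMB A B ⟨hc.hB, hc.neg, hc.fund1, hc.fund0⟩
  obtain ⟨Q, hQc, hQm⟩ := hQ P₁
  have hQcard : Nat.card (OO A B ⧸ Q) = p := by
    rw [hQc, ← hcard]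
    rfl
  have hpe : (((p : 𝓞 (kk A B)) : kk A B) : ℂ) = emb ((p : ℕ) : OO A B) := by
    rw [hnat p]
    simp
  have hpQ : ((p : ℕ) : OO A B) ∈ Q := (hQm _ _ hpe).1 hp1
  have hmax : Q.IsMaximal := by
    have hfin : Finite (OO A B ⧸ Q) := Nat.finite_of_card_ne_zero (by rw [hQcard]; exact hp.ne_zero)
    have := Fintype.ofFinite (OO A B ⧸ Q)
    have hc1 : Fintype.card (OO A B ⧸ Q) = p := by rw [← Nat.card_eq_fintype_card, hQcard]
    apply Ideal.Quotient.maximal_of_isField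
    let e := ZMod.ringEquivOfPrime (OO A B ⧸ Q) hp hc1
    exact e.symm.toMulEquiv.isField (Field.toIsField (ZMod p))
  have hIs : IsPN p Q := ⟨hmax.isPrime, hpQ, hQcard⟩
  obtain ⟨V, hV, hpV⟩ := exV ⟨hc.hB, hc.neg, hc.fund1, hc.fund0⟩ Q p hpQ hmax
  exact ⟨Q, V, hIs, hV, hpV⟩

end

end Pool.Agent.TWK
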