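import Pool.Agent.MUX.StWX
import Pool.Agent.MUX.W_CXS
import Pool.Agent.MUX.W_GRB
import Pool.Agent.MUX.Q_EMB
import Pool.Agent.MUX.Q_ALU
import Pool.Agent.TWT.DefsT

/-!
# TWK, module GRD: good reduction of all normalised lattices outside finitely many primes
-/

set_option autoImplicit false

open WeierstrassCurve Polynomial NumberField IsDedekindDomain

namespace Pool.Agent.TWK

open _root_.MU3 Pool.Agent.MU3A Pool.Agent.MU3B Pool.Agent.MU3C Pool.Agent.RI Pool.Agent.RID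
open Pool.Agent.MUX Pool.Agent.MUXU Pool.Agent.MUXW Pool.Agent.TWT
open Pool.Agent.MU3V (cls Sub GD algDF)
open Pool.Agent.MUXV (GR InK tX CMO Ovr)

noncomputable section

namespace GRDx

/-- homothetic normalised lattices have the same `kap` -/
theorem kap_eq {L L' : PeriodPair} (h : L.g₂ = -18 * L.g₃) (h' : L'.g₂ = -18 * L'.g₃) (mu : ℂ)
    (hmu : mu ≠ 0) (hz : ∀ z : ℂ, z ∈ L.lattice ↔ mu * z ∈ L'.lattice) : kap L' = kap L := by
  obtain ⟨-, -, e2, e3⟩ := ta_SCP L L' mu hmu (fun u => hz u)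
  have hg0 : L.g₂ ≠ 0 := by
    intro h0
    have h3 : L.g₃ = 0 := by
      rw [h0] at h
      have := h.symm
      simpa using this
    apply (b_DSC L).1
    rw [h0, h3]
    norm_num
  have hmu2 : mu ^ 2 = 1 := by
    rw [e2, e3, h] at h'
    have hg3 : L.g₃ ≠ 0 := by
      intro h0
      rw [h0, mul_zero] at h
      exact hg0 h
    field_simp at h'
    linear_combination -h'
  unfold kap
  rw [e2]
  have h4 : mu ^ 4 = 1 := by
    calc mu ^ 4 = (mu ^ 2) ^ 2 := by ring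
      _ = 1 := by rw [hmu2, one_pow]
  rw [h4]
  simp

variable {A B : ℤ}

/-- equal lattices with multiplication by `b`, `b'`: the ideals are in the same class -/
theorem same_class (hc : MUX.CQ A B) {b b' : Ideal (OO A B)} {L L' : PeriodPair} {om om' : ℂ}
    (hL : IsNL b L om) (hL' : IsNL b' L' om') (h : L'.lattice = L.lattice) :
    ∃ x y : OO A B, x ≠ 0 ∧ y ≠ 0 ∧ sp x * b = sp y * b' := by
  obtain ⟨eM, eA, -, -, eN, eI, -, -, -, -, -, -, -⟩ :=
    Pool.Agent.MUXV.tq_EMB A B (Cxs.toCQ hc)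
  have e0 : emb (0 : OO A B) = 0 := by
    have := eN 0
    simpa using this
  obtain ⟨β, hβ, hβ0⟩ : ∃ β ∈ b, β ≠ 0 := by
    by_contra hcon
    push Not at hcon
    exact hL.b_ne ((Submodule.eq_bot_iff _).2 hcon)
  have hemb0 : ∀ x : OO A B, x ≠ 0 → emb x ≠ 0 := fun x hx h0 => hx (eI x 0 (by rw [h0, e0]))
  obtain ⟨β', hβ', hβe⟩ := (hL'.mem (om * emb β)).1 (by rw [h]; exact (hL.mem _).2 ⟨β, hβ, rfl⟩)
  have hβ'0 : β' ≠ 0 := by
    rintro rfl
    rw [e0, mul_zero] at hβe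
    exact (mul_ne_zero hL.om_ne (hemb0 β hβ0)) hβe
  refine ⟨β', β, hβ'0, hβ0, ?_⟩
  have key : ∀ {c c' : Ideal (OO A B)} {M M' : PeriodPair} {o o' : ℂ} (_ : IsNL c M o)
      (_ : IsNL c' M' o') (_ : ∀ z, z ∈ M.lattice → z ∈ M'.lattice) (γ γ' : OO A B)
      (_ : o * emb γ = o' * emb γ'), sp γ' * c ≤ sp γ * c' := by
    intro c c' M M' o o' hM hM' hle γ γ' hγ x hx
    obtain ⟨u, hu, rfl⟩ := Ideal.mem_span_singleton_mul.1 hx
    obtain ⟨u', hu', hue⟩ := (hM'.mem (o * emb u)).1 (hle _ ((hM.mem _).2 ⟨u, hu, rfl⟩))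
    refine Ideal.mem_span_singleton_mul.2 ⟨u', hu', ?_⟩
    apply eI
    rw [eM, eM]
    have ho : o ≠ 0 := hM.om_ne
    apply mul_left_cancel₀ (mul_ne_zero ho hM'.om_ne)
    linear_combination (o' * emb u') * hγ - (o' * emb γ') * hue
  apply le_antisymm
  · exact key hL hL' (fun z hz => by rw [h]; exact hz) β β' hβe
  · exact key hL' hL (fun z hz => by rw [← h]; exact hz) β' β hβe.symm

/-- lattices of the same class have the same `kap` -/
theorem kap_class (hc : MUX.CQ A B) {b b' : Ideal (OO A B)} {L L' : PeriodPair} {om om' : ℂ}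
    (hL : IsNL b L om) (hL' : IsNL b' L' om') (x y : OO A B) (hx : x ≠ 0) (hy : y ≠ 0)
    (h : sp x * b = sp y * b') : kap L' = kap L := by
  obtain ⟨eM, eA, -, -, eN, eI, -, -, -, -, -, -, -⟩ :=
    Pool.Agent.MUXV.tq_EMB A B (Cxs.toCQ hc)
  have e0 : emb (0 : OO A B) = 0 := by
    have := eN 0
    simpa using this
  have hemb0 : ∀ x : OO A B, x ≠ 0 → emb x ≠ 0 := fun x hx h0 => hx (eI x 0 (by rw [h0, e0]))
  have hx0 := hemb0 x hx
  have hy0 := hemb0 y hy
  have ho := hL.om_ne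
  have ho' := hL'.om_ne
  refine kap_eq hL.nrm hL'.nrm (om' * emb x / (om * emb y))
    (div_ne_zero (mul_ne_zero ho' hx0) (mul_ne_zero ho hy0)) ?_
  intro z
  rw [hL.mem, hL'.mem]
  constructor
  · rintro ⟨u, hu, rfl⟩
    have h1 : x * u ∈ sp y * b' := by
      rw [← h]
      exact Ideal.mem_span_singleton_mul.2 ⟨u, hu, rfl⟩
    obtain ⟨w, hw, hwe⟩ := Ideal.mem_span_singleton_mul.1 h1
    refine ⟨w, hw, ?_⟩
    have h2 : emb y * emb w = emb x * emb u := by rw [← eM, ← eM, hwe]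
    field_simp
    linear_combination -h2
  · rintro ⟨w, hw, hwe⟩
    have h1 : y * w ∈ sp x * b := by
      rw [h]
      exact Ideal.mem_span_singleton_mul.2 ⟨w, hw, rfl⟩
    obtain ⟨u, hu, hue⟩ := Ideal.mem_span_singleton_mul.1 h1
    refine ⟨u, hu, ?_⟩
    have h2 : emb x * emb u = emb y * emb w := by rw [← eM, ← eM, hue]
    field_simp at hwe
    apply mul_left_cancel₀ hx0
    linear_combination hwe - om * h2

theorem val_prod {ι : Type} (s : Finset ι) (n : ι → ℕ) (V : ValuationSubring ℂ)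
    (h : V.valuation ((∏ i ∈ s, n i : ℕ) : ℂ) = 1) : ∀ i ∈ s, V.valuation (n i : ℂ) = 1 := by
  classical
  intro i hi
  rw [← Finset.mul_prod_erase s n hi] at h
  exact (GRB.val_mul V _ _ h).1

end GRDx

open GRDx in
/-- GRD: outside finitely many primes all the normalised lattices have good reduction, with different reductions. -/
theorem t_GRD (A B : ℤ) (hc : MUX.CQ A B) (T : TorX A B) (hGRB : Sy_GRB)
    (hALU : Pool.Agent.MUXV.Sq_ALU) (N₁ : ℕ) (ι₁ : Type) [Finite ι₁] (R₁ : Reps A B N₁ ι₁) :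
    ∃ n₀ : ℕ, n₀ ≠ 0 ∧ ∀ V : ValuationSubring ℂ, V.valuation (n₀ : ℂ) = 1 →
      ∀ (N₀ : ℕ) (ι : Type) (R : Reps A B N₀ ι), GRd V R := by
  classical
  have hfin : Fintype ι₁ := Fintype.ofFinite ι₁
  choose n1 hn1 hn1' using fun j => hGRB A B hc T (R₁.b j) (R₁.L j) (R₁.om j) (R₁.nl j)
  have htop : (⊤ : Ideal (OO A B)) ≠ ⊥ := by
    intro h
    have h1 : (1 : OO A B) ∈ (⊤ : Ideal (OO A B)) := Submodule.mem_top
    rw [h, Ideal.mem_bot] at h1
    have h2 := congrArg QuadraticAlgebra.re h1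
    exact one_ne_zero h2
  have halg : ∀ j, IsAlgebraic ℚ (kap (R₁.L j)) := fun j =>
    GRB.alg_RF hc T ⊤ htop (IntermediateField.subset_adjoin _ _
      ⟨R₁.b j, R₁.L j, R₁.om j, R₁.nl j, Or.inl rfl⟩)
  have hdiff : ∀ q : ι₁ × ι₁, ∃ n : ℕ, n ≠ 0 ∧ (q.1 ≠ q.2 → ∀ V : ValuationSubring ℂ,
      V.valuation (n : ℂ) = 1 → V.valuation (kap (R₁.L q.1) - kap (R₁.L q.2)) = 1) := by
    rintro ⟨i, j⟩
    by_cases hij : i = j
    · exact ⟨1, one_ne_zero, fun h => absurd hij h⟩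
    · have hne : kap (R₁.L i) - kap (R₁.L j) ≠ 0 := by
        intro h0
        apply hij
        have h1 := Cxs.lat_eq (R₁.nl i).nrm (R₁.nl j).nrm (sub_eq_zero.1 h0).symm
        obtain ⟨x, y, hx, hy, hxy⟩ := same_class hc (R₁.nl i) (R₁.nl j) h1
        exact R₁.inj i j x y hx hy hxy
      obtain ⟨n, hn, hn'⟩ := hALU _ ((halg i).sub (halg j)) hne
      exact ⟨n, hn, fun _ => hn'⟩
  choose n2 hn2 hn2' using hdiff
  refine ⟨(∏ j, n1 j) * ∏ q, n2 q, mul_ne_zero (Finset.prod_ne_zero_iff.2 fun j _ => hn1 j)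
    (Finset.prod_ne_zero_iff.2 fun q _ => hn2 q), ?_⟩
  intro V hV N₀ ι R
  obtain ⟨hV1, hV2⟩ := GRB.val_mul V _ _ hV
  have hv1 : ∀ j, V.valuation (n1 j : ℂ) = 1 := fun j => val_prod _ _ V hV1 j (Finset.mem_univ j)
  have hv2 : ∀ q, V.valuation (n2 q : ℂ) = 1 := fun q => val_prod _ _ V hV2 q (Finset.mem_univ q)
  have hJ : ∀ i : ι, ∃ (j : ι₁) (x y : OO A B), x ≠ 0 ∧ y ≠ 0 ∧ sp x * R.b i = sp y * R₁.b j :=
    fun i => R₁.surj (R.b i) (R.nl i).b_ne
  choose J x y hx hy hxy using hJ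
  have hk : ∀ i, kap (R.L i) = kap (R₁.L (J i)) := fun i =>
    (kap_class hc (R.nl i) (R₁.nl (J i)) (x i) (y i) (hx i) (hy i) (hxy i)).symm
  refine ⟨fun i => ?_, fun i => ?_, fun i i' h => ?_⟩
  · rw [hk i]
    exact (hn1' (J i) V (hv1 _)).2.2.1
  · rw [hk i]
    have h1 := (hn1' (J i) V (hv1 _)).2.2.2.1
    have h2 : 12 * (R₁.L (J i)).g₂ = 1 + 1728 * kap (R₁.L (J i)) := by
      unfold kap
      ring
    rwa [h2] at h1
  · rw [hk i, hk i'] at h
    have hJJ : J i = J i' := by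
      by_contra hne
      have h1 := hn2' (J i, J i') hne V (hv2 _)
      rw [h1] at h
      exact lt_irrefl _ h
    obtain ⟨eM, eA, -, -, eN, eI, -, -, -, -, -, -, hdom⟩ :=
      Pool.Agent.MUXV.tq_EMB A B (Cxs.toCQ hc)
    have hd : IsDomain (OO A B) := hdom
    refine R.inj i i' (x i * y i') (x i' * y i) (mul_ne_zero (hx i) (hy i'))
      (mul_ne_zero (hx i') (hy i)) ?_
    have e1 : sp (x i * y i') = sp (x i) * sp (y i') := by
      rw [Ideal.span_singleton_mul_span_singleton]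
    have e2 : sp (x i' * y i) = sp (x i') * sp (y i) := by
      rw [Ideal.span_singleton_mul_span_singleton]
    have h3 := hxy i
    have h4 := hxy i'
    rw [← hJJ] at h4
    calc sp (x i * y i') * R.b i = sp (y i') * (sp (x i) * R.b i) := by rw [e1]; ring
      _ = sp (y i) * (sp (y i') * R₁.b (J i)) := by rw [h3]; ring
      _ = sp (x i' * y i) * R.b i' := by rw [← h4, e2]; ring

end

end Pool.Agent.TWK
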