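import Pool.Agent.TWK.StK1
import Pool.Agent.RI.CL

/-!
# Module CLG1 of the project TWK: the class numbers

`p` does not divide `[L : F₁]` and the generator `g` of `Gal(L / F₁)` acts trivially on the ideal
classes modulo `p`-th powers: the class numbers of `L` and `F₁` have the same `p`-part.
-/

set_option autoImplicit false

open NumberField IsDedekindDomain Finset
open scoped nonZeroDivisors Pointwise

namespace Pool.Agent.TWK

open Pool.Agent.MU3 Pool.Agent.RI Pool.Agent.MUXK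

namespace CLG1x

/-- The group theory: `N` is a norm, `x ^ d / N x` is a `p`-th power modulo the kernel of `φ`;
then the kernel of `N` has no `p`-torsion modulo the kernel of `φ`. -/
private theorem grp (p : ℕ) (hp : p.Prime) {A B : Type} [CommGroup A] [CommGroup B] [Finite B]
    (φ : A →* B) (N : A →* A) (d : ℕ) (hd : d.Coprime p)
    (h1 : ∀ x, N (N x) = N x ^ d) (h2 : ∀ x, φ x = 1 → φ (N x) = 1)
    (h3 : ∀ x, ∃ y, φ (x ^ d / N x) = φ y ^ p) (x : A) (hx : N x = 1) :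
    ∃ m : ℕ, m.Coprime p ∧ φ (x ^ m) = 1 := by
  have hpi : Fact p.Prime := ⟨hp⟩
  let π : A →* A := powMonoidHom d / N
  have hπ : ∀ a, π a = a ^ d / N a := fun a => rfl
  have hNπ : ∀ a, N (π a) = 1 := fun a => by
    rw [hπ, map_div, map_pow, h1, div_self']
  have hππ : ∀ a, π (π a) = π a ^ d := fun a => by
    rw [hπ (π a), hNπ, div_one]
  have hker : ∀ a, φ a = 1 → φ (π a) = 1 := fun a ha => by
    rw [hπ, map_div, map_pow, ha, h2 a ha, one_pow, div_one]
  let ψ : A →* B := φ.comp π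
  have hψ : ∀ a, ψ a = φ (π a) := fun a => rfl
  -- every `d`-th power is a `p`-th power in the range of `ψ`
  have hC : ∀ c : ψ.range, ∃ b : ψ.range, b ^ p = c ^ d := by
    rintro ⟨_, a, rfl⟩
    obtain ⟨y, hy⟩ := h3 a
    refine ⟨⟨ψ y, y, rfl⟩, Subtype.ext ?_⟩
    show ψ y ^ p = ψ a ^ d
    have h4 : φ (π a / y ^ p) = 1 := by
      rw [map_div, map_pow, hπ, hy, div_self']
    have h5 := hker _ h4
    rw [map_div, map_div, map_pow, map_pow, hππ, map_pow, div_eq_one] at h5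
    rw [hψ, hψ, h5]
  have hsurj : Function.Surjective (fun c : ψ.range => c ^ p) := by
    intro c
    obtain ⟨b, hb⟩ := hC c
    have hz : (d : ℤ) * Int.gcdA d p + p * Int.gcdB d p = 1 := by
      have := Nat.gcd_eq_gcd_ab d p
      rw [hd.gcd_eq_one] at this
      exact_mod_cast this.symm
    refine ⟨b ^ (Int.gcdA d p) * c ^ (Int.gcdB d p), ?_⟩
    show (b ^ (Int.gcdA d p) * c ^ (Int.gcdB d p)) ^ p = c
    rw [mul_pow, ← zpow_natCast, ← zpow_natCast, ← zpow_mul, ← zpow_mul, mul_comm _ (p : ℤ),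
      mul_comm _ (p : ℤ), zpow_mul, zpow_natCast, hb, ← zpow_natCast, ← zpow_mul, ← zpow_add, hz,
      zpow_one]
  have hinj : Function.Injective (fun c : ψ.range => c ^ p) :=
    Finite.injective_iff_surjective.2 hsurj
  have hcard : ¬ p ∣ Nat.card ψ.range := by
    intro hdv
    obtain ⟨c, hc⟩ := exists_prime_orderOf_dvd_card' p hdv
    have h6 : c ^ p = 1 := by rw [← hc]; exact pow_orderOf_eq_one c
    have h7 : c = 1 := hinj (by show c ^ p = 1 ^ p; rw [h6, one_pow])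
    rw [h7, orderOf_one] at hc
    exact hp.one_lt.ne hc
  refine ⟨d * Nat.card ψ.range, Nat.Coprime.mul_left hd
    ((Nat.Prime.coprime_iff_not_dvd hp).2 hcard).symm, ?_⟩
  have h8 : (⟨ψ x, x, rfl⟩ : ψ.range) ^ Nat.card ψ.range = 1 := pow_card_eq_one'
  have h9 : ψ x ^ Nat.card ψ.range = 1 := congrArg Subtype.val h8
  rw [hψ, hπ, hx, div_one] at h9
  rw [pow_mul, map_pow, h9]

/-- The same with a subgroup of finite index. -/
private theorem grp2 (p : ℕ) (hp : p.Prime) {A : Type} [CommGroup A] (P : Subgroup A)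
    [Finite (A ⧸ P)] (N : A →* A) (d : ℕ) (hd : d.Coprime p)
    (h1 : ∀ x, N (N x) = N x ^ d) (h2 : ∀ x ∈ P, N x ∈ P)
    (h3 : ∀ x, ∃ y, ∃ z ∈ P, x ^ d / N x = y ^ p * z) (x : A) (hx : N x = 1) :
    ∃ m : ℕ, m.Coprime p ∧ x ^ m ∈ P := by
  have key : ∀ a : A, (QuotientGroup.mk' P) a = 1 ↔ a ∈ P := fun a => by
    rw [QuotientGroup.mk'_apply, QuotientGroup.eq_one_iff]
  obtain ⟨m, hm, h⟩ := grp (B := A ⧸ P) p hp (QuotientGroup.mk' P) N d hd h1
    (fun a ha => (key _).2 (h2 a ((key a).1 ha))) (fun a => by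
      obtain ⟨y, z, hz, hy⟩ := h3 a
      exact ⟨y, by rw [hy, map_mul, (key z).2 hz, mul_one, map_pow]⟩) x hx
  exact ⟨m, hm, (key _).1 h⟩

end CLG1x

open CLG1x

theorem t_CLG1 : S_CLG1 := by
  intro p hpi k F₁ L _ _ _ _ _ _ _ _ g g₁ hg hgen hdv hyp
  have hp : p.Prime := hpi.out
  have hd : (Module.finrank F₁ L).Coprime p := ((Nat.Prime.coprime_iff_not_dvd hp).2 hdv).symm
  refine (CL_thm p F₁ L hd).2 ?_
  -- the same action
  have hsm : ∀ x : J L, g₁ • x = g • x := by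
    intro x
    apply Units.ext
    ext y
    rw [RI.mem_smul, RI.mem_smul]
    have : g₁.symm y = g.symm y := by
      rw [AlgEquiv.symm_apply_eq, hg, AlgEquiv.apply_symm_apply]
    rw [this]
  let H : Subgroup (J L) :=
    { carrier := {x | ∃ y : J L, ∃ z ∈ (prin (K := L)).range, x = y ^ p * z}
      one_mem' := ⟨1, 1, one_mem _, by rw [one_pow, mul_one]⟩
      mul_mem' := by
        rintro x y ⟨a, z, hz, ha⟩ ⟨b, w, hw, hb⟩
        exact ⟨a * b, z * w, mul_mem hz hw, by rw [mul_pow, ha, hb, mul_mul_mul_comm]⟩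
      inv_mem' := by
        rintro x ⟨a, z, hz, ha⟩
        exact ⟨a⁻¹, z⁻¹, inv_mem hz, by rw [inv_pow, ha, mul_inv]⟩ }
  -- all `σ` act trivially modulo `H`
  let W : Subgroup (L ≃ₐ[F₁] L) :=
    { carrier := {σ | ∀ x : J L, (σ • x) * x⁻¹ ∈ H}
      one_mem' := fun x => by rw [one_smul, mul_inv_cancel]; exact H.one_mem
      mul_mem' := fun {σ τ} hσ hτ x => by
        have h1 := H.mul_mem (hσ (τ • x)) (hτ x)
        rw [← mul_assoc, inv_mul_cancel_right, ← mul_smul] at h1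
        exact h1
      inv_mem' := fun {σ} hσ x => by
        have h1 := H.inv_mem (hσ (σ⁻¹ • x))
        rw [smul_inv_smul, mul_inv, inv_inv, mul_comm] at h1
        exact h1 }
  have hgW : g₁ ∈ W := fun x => by
    obtain ⟨y, z, hyz⟩ := hyp x
    rw [hsm, hyz]
    exact ⟨y, prin z, ⟨z, rfl⟩, rfl⟩
  have hW : ∀ (σ : L ≃ₐ[F₁] L) (x : J L), (σ • x) * x⁻¹ ∈ H := fun σ =>
    (Subgroup.zpowers_le.2 hgW) (hgen σ)
  have hcard : Fintype.card (L ≃ₐ[F₁] L) = Module.finrank F₁ L := by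
    rw [← Nat.card_eq_fintype_card, IsGalois.card_aut_eq_finrank]
  have h3 : ∀ x : J L, ∃ y : J L, ∃ z ∈ (prin (K := L)).range,
      x ^ Module.finrank F₁ L / CL.nm F₁ L x = y ^ p * z := by
    intro x
    have h4 : x ^ Module.finrank F₁ L / CL.nm F₁ L x = ∏ σ : L ≃ₐ[F₁] L, ((σ • x) * x⁻¹)⁻¹ := by
      rw [Finset.prod_inv_distrib, Finset.prod_mul_distrib, Finset.prod_const, Finset.card_univ,
        hcard, CL.nm_apply, mul_inv, inv_pow, inv_inv, mul_comm, div_eq_mul_inv]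
    have h5 : x ^ Module.finrank F₁ L / CL.nm F₁ L x ∈ H := by
      rw [h4]
      exact Subgroup.prod_mem _ fun σ _ => H.inv_mem (hW σ x)
    exact h5
  have h1 : ∀ x : J L, CL.nm F₁ L (CL.nm F₁ L x) = CL.nm F₁ L x ^ Module.finrank F₁ L := by
    intro x
    have h5 : ∀ σ : L ≃ₐ[F₁] L, σ • CL.nm F₁ L x = CL.nm F₁ L x := fun σ => by
      rw [CL.nm_apply, Finset.smul_prod']
      rw [← Equiv.prod_comp (Equiv.mulLeft σ) (fun τ : L ≃ₐ[F₁] L => τ • x)]
      exact Finset.prod_congr rfl fun τ _ => by rw [← mul_smul]; rfl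
    rw [CL.nm_apply (CL.nm F₁ L x), Finset.prod_congr rfl (fun σ _ => h5 σ), Finset.prod_const,
      Finset.card_univ, hcard]
  have h2 : ∀ x ∈ (prin (K := L)).range, CL.nm F₁ L x ∈ (prin (K := L)).range := by
    rintro _ ⟨z, rfl⟩
    refine ⟨∏ σ : L ≃ₐ[F₁] L, σ • z, ?_⟩
    rw [CL.nm_apply, map_prod]
    exact Finset.prod_congr rfl fun σ _ => (smul_prin σ z).symm
  intro c hc
  obtain ⟨m, hm, z, hz⟩ := grp2 p hp (prin (K := L)).range (CL.nm F₁ L) (Module.finrank F₁ L) hd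
    h1 h2 h3 c hc
  exact ⟨m, hm, z, hz.symm⟩

end Pool.Agent.TWK
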