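import Pool.Agent.TWK.StK2
import Pool.Agent.RI.CL
import Pool.Agent.RI.BASE
import Pool.Agent.RI.EXTACT

/-!
# TWK, module DSC2: descent of the equality of class numbers to subfields
-/

set_option autoImplicit false

open NumberField IsDedekindDomain Finset
open scoped nonZeroDivisors Pointwise

namespace Pool.Agent.TWK.DSC2x

open Pool.Agent.RI

/-- a product over a group of a function of the image under a surjective homomorphism -/
lemma prod_surj {G H X : Type} [Group G] [Group H] [Fintype G] [Fintype H] [CommMonoid X]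
    (r : G →* H) (hr : Function.Surjective r) (f : H → X) :
    ∃ n : ℕ, ∏ τ : G, f (r τ) = (∏ σ : H, f σ) ^ n := by
  classical
  refine ⟨(univ.filter fun τ : G => r τ = 1).card, ?_⟩
  rw [← Finset.prod_fiberwise_of_maps_to (g := fun τ : G => r τ) (t := (univ : Finset H))
    (fun _ _ => mem_univ _), ← Finset.prod_pow]
  refine Finset.prod_congr rfl fun σ _ => ?_
  rw [Finset.prod_congr rfl (g := fun _ => f σ)
    (fun τ hτ => by rw [(Finset.mem_filter.1 hτ).2]), Finset.prod_const]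
  congr 1
  obtain ⟨g, hg⟩ := hr σ
  apply Finset.card_bij' (fun τ _ => g⁻¹ * τ) (fun τ _ => g * τ)
  · intro τ hτ
    rw [mem_filter] at hτ ⊢
    exact ⟨mem_univ _, by rw [map_mul, map_inv, hτ.2, hg, inv_mul_cancel]⟩
  · intro τ hτ
    rw [mem_filter] at hτ ⊢
    exact ⟨mem_univ _, by rw [map_mul, hτ.2, hg, mul_one]⟩
  · intro τ _
    rw [mul_inv_cancel_left]
  · intro τ _
    rw [inv_mul_cancel_left]

/-- The relative class group of `L / F₀` has trivial `p`-part if that of `N₁ / N₀` has. -/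
lemma descend (p : ℕ) (F₀ L N₀ N₁ : Type) [Field F₀] [Field L] [NumberField L] [Field N₀]
    [Field N₁] [NumberField N₁] [Algebra F₀ L] [Algebra L N₁] [Algebra N₀ N₁]
    [FiniteDimensional F₀ L] [FiniteDimensional N₀ N₁] [IsGalois L N₁]
    (hd : (Module.finrank L N₁).Coprime p)
    (r : (N₁ ≃ₐ[N₀] N₁) →* (L ≃ₐ[F₀] L)) (hr : Function.Surjective r)
    (hc : ∀ τ x, algebraMap L N₁ (r τ x) = τ (algebraMap L N₁ x))
    (h : RelTriv N₀ N₁ p) : RelTriv F₀ L p := by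
  intro c hc1
  obtain ⟨n, hn⟩ := prod_surj r hr (fun σ => σ • c)
  have h1 : ∏ τ : N₁ ≃ₐ[N₀] N₁, τ • ext L N₁ c = 1 := by
    have h2 : ∀ τ : N₁ ≃ₐ[N₀] N₁, τ • ext L N₁ c = ext L N₁ (r τ • c) := fun τ =>
      (EXTACT_thm F₀ L N₀ N₁ τ (r τ) (hc τ) c).symm
    rw [Finset.prod_congr rfl fun τ _ => h2 τ, ← map_prod, hn, hc1, one_pow, map_one]
  obtain ⟨m, hm, x, hx⟩ := h _ h1
  refine ⟨Module.finrank L N₁ * m, Nat.Coprime.mul_left hd hm,
    Units.map (Algebra.norm L : N₁ →* L) x, ?_⟩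
  apply ext_injective L N₁
  rw [← CL.nm_prin, ← hx, map_pow, map_pow, CL.nm_ext, pow_mul]

/-- The restriction homomorphism. -/
lemma restr (F₀ L N₀ N₁ : Type) [Field F₀] [Field L] [Field N₀] [Field N₁] [Algebra F₀ L]
    [Algebra L N₁] [Algebra N₀ N₁] [Algebra F₀ N₀] [Algebra F₀ N₁] [IsScalarTower F₀ L N₁]
    [IsScalarTower F₀ N₀ N₁] [FiniteDimensional F₀ L] [IsGalois F₀ L] [FiniteDimensional N₀ N₁]
    [IsGalois N₀ N₁]
    (hint : ∀ x : L, (∃ y : N₀, algebraMap N₀ N₁ y = algebraMap L N₁ x) →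
      ∃ z : F₀, algebraMap F₀ L z = x) :
    ∃ r : (N₁ ≃ₐ[N₀] N₁) →* (L ≃ₐ[F₀] L), Function.Surjective r ∧
      ∀ τ x, algebraMap L N₁ (r τ x) = τ (algebraMap L N₁ x) := by
  let r : (N₁ ≃ₐ[N₀] N₁) →* (L ≃ₐ[F₀] L) :=
    (AlgEquiv.restrictNormalHom L).comp (AlgEquiv.restrictScalarsHom F₀)
  have hc : ∀ τ x, algebraMap L N₁ (r τ x) = τ (algebraMap L N₁ x) := fun τ x =>
    AlgEquiv.restrictNormal_commutes (AlgEquiv.restrictScalars F₀ τ) L x
  refine ⟨r, ?_, hc⟩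
  have h1 : IntermediateField.fixedField r.range = ⊥ := by
    rw [eq_bot_iff]
    intro x hx
    have h2 : ∀ τ : N₁ ≃ₐ[N₀] N₁, τ (algebraMap L N₁ x) = algebraMap L N₁ x := by
      intro τ
      rw [← hc τ x]
      congr 1
      exact hx ⟨r τ, τ, rfl⟩
    obtain ⟨y, hy⟩ := (IsGalois.mem_range_algebraMap_iff_fixed (F := N₀) _).2 h2
    rw [IntermediateField.mem_bot]
    exact hint x ⟨y, hy⟩
  have h2 : r.range = ⊤ := by
    rw [← IntermediateField.fixingSubgroup_fixedField r.range, h1,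
      IntermediateField.fixingSubgroup_bot]
  exact MonoidHom.range_eq_top.1 h2

/-- A subextension of an abelian extension is Galois. -/
lemma gal_sub (k L N₁ : Type) [Field k] [Field L] [Field N₁] [Algebra k L] [Algebra L N₁]
    [Algebra k N₁] [IsScalarTower k L N₁] [IsGalois k N₁]
    (hab : ∀ σ τ : N₁ ≃ₐ[k] N₁, σ * τ = τ * σ) : IsGalois k L := by
  let E : IntermediateField k N₁ := (IsScalarTower.toAlgHom k L N₁).fieldRange
  have h1 : E.fixingSubgroup.Normal := ⟨fun n hn g => by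
    rw [hab g n, mul_inv_cancel_right]
    exact hn⟩
  have h2 : IsGalois k E := (InfiniteGalois.normal_iff_isGalois E).1 h1
  have e : E ≃ₐ[k] L := (AlgEquiv.ofInjectiveField (IsScalarTower.toAlgHom k L N₁)).symm
  exact IsGalois.of_algEquiv e

end Pool.Agent.TWK.DSC2x

namespace Pool.Agent.TWK

open Pool.Agent.MU3 Pool.Agent.RI Pool.Agent.RID Pool.Agent.MUXK

/-- Module DSC2. -/
theorem t_DSC2 : S_DSC2 := by
  intro p hp k N₀ N₁ _ h₀ h₁ hyp heq L hkL hLN
  have f1 : FiniteDimensional ℚ N₀ := BASE.finDim_of_le h₁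
  have f2 : FiniteDimensional ℚ L := BASE.finDim_of_le hLN
  have f3 : FiniteDimensional ℚ ↥(L ⊓ N₀) := BASE.finDim_of_le (inf_le_left.trans hLN)
  have f4 : FiniteDimensional ℚ k := BASE.finDim_of_le hkL
  have hin : L ⊓ N₀ ≤ N₁ := inf_le_left.trans hLN
  letI := algC (h₀.trans h₁)
  letI := algC hkL
  letI := algC hLN
  letI := algC h₁
  letI := algC h₀
  letI := algC (inf_le_left : L ⊓ N₀ ≤ L)
  letI := algC (inf_le_right : L ⊓ N₀ ≤ N₀)
  letI := algC hin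
  letI := algC (le_inf hkL h₀)
  have t1 : IsScalarTower k L N₁ := towerC hkL hLN
  have t2 : IsScalarTower k N₀ N₁ := towerC h₀ h₁
  have t3 : IsScalarTower ↥(L ⊓ N₀) L N₁ := towerC inf_le_left hLN
  have t4 : IsScalarTower ↥(L ⊓ N₀) N₀ N₁ := towerC inf_le_right h₁
  have t5 : IsScalarTower k ↥(L ⊓ N₀) L := towerC (le_inf hkL h₀) inf_le_left
  obtain ⟨hg, hab, hdeg⟩ := hyp
  have g1 : IsGalois k N₁ := hg
  have g2 : IsGalois L N₁ := IsGalois.tower_top_of_isGalois k L N₁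
  have g3 : IsGalois N₀ N₁ := IsGalois.tower_top_of_isGalois k N₀ N₁
  have g4 : IsGalois k L := DSC2x.gal_sub k L N₁ hab
  have g5 : IsGalois ↥(L ⊓ N₀) L := IsGalois.tower_top_of_isGalois k ↥(L ⊓ N₀) L
  have d1 := Module.finrank_mul_finrank k L N₁
  have d2 := Module.finrank_mul_finrank k N₀ N₁
  have d3 := Module.finrank_mul_finrank k ↥(L ⊓ N₀) L
  have c1 : ¬ p ∣ Module.finrank L N₁ := fun h => hdeg (by rw [← d1]; exact Dvd.dvd.mul_left h _)
  have c2 : ¬ p ∣ Module.finrank N₀ N₁ := fun h => hdeg (by rw [← d2]; exact Dvd.dvd.mul_left h _)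
  have c3 : ¬ p ∣ Module.finrank ↥(L ⊓ N₀) L := fun h => hdeg (by
    rw [← d1, ← d3]; exact Dvd.dvd.mul_right (Dvd.dvd.mul_left h _) _)
  have cop : ∀ n : ℕ, ¬ p ∣ n → n.Coprime p := fun n h => by
    rw [Nat.coprime_comm, hp.out.coprime_iff_not_dvd]
    exact h
  -- the hypothesis
  have b1 := BASE_thm CL_thm p N₀ N₁ h₁ ((isGalois_algC h₁).1 g3) (by
    rw [← finrank_algC h₁]; exact c2)
  obtain ⟨h', hF', hK', hr⟩ := b1.1 heq
  have r1 : RelTriv N₀ N₁ p := hr.2.2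
  -- the conclusion
  have b2 := BASE_thm CL_thm p (L ⊓ N₀) L inf_le_left ((isGalois_algC inf_le_left).1 g5) (by
    rw [← finrank_algC inf_le_left]; exact c3)
  apply b2.2
  obtain ⟨r, hr1, hr2⟩ := DSC2x.restr ↥(L ⊓ N₀) L N₀ N₁ (by
    rintro x ⟨y, hy⟩
    have e : (y : ℂ) = (x : ℂ) := congrArg Subtype.val hy
    exact ⟨⟨(x : ℂ), x.2, e ▸ y.2⟩, rfl⟩)
  exact ⟨inf_le_left, f3, f2, g5, cop _ c3,
    DSC2x.descend p ↥(L ⊓ N₀) L N₀ N₁ (cop _ c1) r hr1 hr2 r1⟩

end Pool.Agent.TWK
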