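import Pool.Agent.TWK.StK1

/-!
# From `M` to `L`: primes above `S` and ramification (module FIX1)
-/

set_option autoImplicit false

open NumberField IsDedekindDomain Finset
open scoped nonZeroDivisors Pointwise

namespace Pool.Agent.TWK

open Pool.Agent.MU3 Pool.Agent.RI Pool.Agent.MUXK

namespace FIX1x

theorem exists_above (K L : Type) [Field K] [NumberField K] [Field L] [NumberField L]
    [Algebra K L] (v : HeightOneSpectrum (𝓞 K)) :
    ∃ w : HeightOneSpectrum (𝓞 L), w.asIdeal.under (𝓞 K) = v.asIdeal := by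
  obtain ⟨P, hP, hlo⟩ := (inferInstance : Nonempty (Ideal.primesOver v.asIdeal (𝓞 L)))
  have := hP
  have := hlo
  exact ⟨⟨P, hP, Ideal.ne_bot_of_liesOver_of_ne_bot v.ne_bot P⟩, (Ideal.over_def P v.asIdeal).symm⟩

theorem above_under {L M : Type} [Field L] [NumberField L] [Field M] [NumberField M]
    [Algebra L M] {S : Finset ℕ} (v : HeightOneSpectrum (𝓞 L)) (w : HeightOneSpectrum (𝓞 M))
    (h : w.asIdeal.under (𝓞 L) = v.asIdeal) : Above S w ↔ Above S v := by
  unfold Above
  refine exists_congr fun p => and_congr_right fun _ => ?_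
  rw [← h, Ideal.mem_under, map_natCast]

theorem fix_under {k L M : Type} [Field k] [Field L] [NumberField L]
    [Field M] [NumberField M] [Algebra k L] [Algebra L M] [Algebra k M]
    (g' : M ≃ₐ[k] M) (g : L ≃ₐ[k] L) (hg : ∀ x : L, algebraMap L M (g x) = g' (algebraMap L M x))
    (v : HeightOneSpectrum (𝓞 L)) (w : HeightOneSpectrum (𝓞 M))
    (h : w.asIdeal.under (𝓞 L) = v.asIdeal) (hw : g' • w.asIdeal = w.asIdeal) :
    g • v.asIdeal = v.asIdeal := by
  have key : ∀ x : 𝓞 L, algebraMap (𝓞 L) (𝓞 M) (g⁻¹ • x) = g'⁻¹ • algebraMap (𝓞 L) (𝓞 M) x := by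
    intro x
    apply IsFractionRing.injective (𝓞 M) M
    change algebraMap L M (g⁻¹ (x : L)) = g'⁻¹ (algebraMap L M (x : L))
    have h1 := hg (g⁻¹ (x : L))
    have h2 : g (g⁻¹ (x : L)) = x := g.apply_symm_apply x
    rw [h2] at h1
    rw [h1]
    exact (g'.symm_apply_apply _).symm
  ext x
  rw [Ideal.mem_pointwise_smul_iff_inv_smul_mem, ← h, Ideal.mem_under, Ideal.mem_under, key,
    ← Ideal.mem_pointwise_smul_iff_inv_smul_mem, hw]

end FIX1x

theorem t_FIX1 : S_FIX1 := by
  intro k L M _ _ _ _ _ _ _ _ _ _ S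
  refine ⟨fun g' g hg hfix v hv => ?_, fun hunr v hv => ?_⟩
  · obtain ⟨w, hw⟩ := FIX1x.exists_above L M v
    exact FIX1x.fix_under g' g hg v w hw (hfix w ((FIX1x.above_under v w hw).2 hv))
  · obtain ⟨w, hw⟩ := FIX1x.exists_above L M v
    have h1 := hunr w fun h => hv ((FIX1x.above_under v w hw).1 h)
    have hlo : w.asIdeal.LiesOver v.asIdeal := ⟨hw.symm⟩
    have h3 := Ideal.ramificationIdx_tower (R := 𝓞 k) v.asIdeal w.asIdeal
    rw [h1] at h3
    exact Nat.eq_one_of_mul_eq_one_right h3.symm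

end Pool.Agent.TWK
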