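import Pool.Agent.TWK.StK1

/-!
# TWK, module IDX1: the norm index against the values of an eigenfunctional
-/

set_option autoImplicit false

open NumberField IsDedekindDomain Finset
open scoped nonZeroDivisors Pointwise

namespace Pool.Agent.TWK

open Pool.Agent.MU3 Pool.Agent.RI Pool.Agent.MUXK

theorem t_IDX1 (h1 : S_NIX) : S_IDX1 := by
  intro F _ k L M _ _ _ _ _ _ _ _ _ _ S hS χ f hf N hN hfN h hord y
  by_contra hy
  have hf1 : f 1 = 0 := by
    have := hf.add 1 1
    rw [mul_one] at this
    exact left_eq_add.1 this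
  let φ : J L →* Multiplicative F :=
    { toFun := fun x => Multiplicative.ofAdd (f x)
      map_one' := by rw [hf1]; rfl
      map_mul' := fun a b => by rw [hf.add]; rfl }
  have hφ : ∀ x, φ x = Multiplicative.ofAdd (f x) := fun _ => rfl
  have key := h1 L M S hS φ.ker (by
    intro x hx
    rw [MonoidHom.mem_ker, hφ, hf.pri x hx]
    rfl) (by
    intro v q _ _ hcard hab
    obtain ⟨w, hw1, hw2⟩ := hab
    have e := hN.pr w v hw1 (by rw [hw2, hcard])
    rw [← e, MonoidHom.mem_ker, hφ, hfN]
    rfl)
  rw [Subgroup.index_ker] at key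
  obtain ⟨hi0, hi1⟩ := key
  have hfin : Finite φ.range := Nat.finite_of_card_ne_zero hi0
  have hval : ∀ i : ℕ, f (h ^ i • y) = ((χ h : Fˣ) : F) ^ i * f y := by
    intro i
    rw [hf.eig, map_pow, Units.val_pow_eq_pow_val]
  let ψ : Option (Fin (orderOf (χ h))) → φ.range := fun o =>
    o.elim 1 fun i => ⟨φ (h ^ (i : ℕ) • y), ⟨_, rfl⟩⟩
  have hψ0 : ψ none = 1 := rfl
  have hψ1 : ∀ i, ((ψ (some i) : φ.range) : Multiplicative F) =
      Multiplicative.ofAdd (((χ h : Fˣ) : F) ^ (i : ℕ) * f y) := by
    intro i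
    rw [← hval]
    rfl
  have hne : ∀ i, ψ (some i) ≠ ψ none := by
    intro i hi
    have h2 := congrArg (fun t : φ.range => (t : Multiplicative F)) hi
    simp only [hψ1, hψ0] at h2
    have h3 : ((χ h : Fˣ) : F) ^ (i : ℕ) * f y = 0 := Multiplicative.ofAdd.injective h2
    rcases mul_eq_zero.1 h3 with h4 | h4
    · exact (pow_ne_zero _ (Units.ne_zero _)) h4
    · exact hy h4
  have hinj : Function.Injective ψ := by
    intro a b hab
    rcases a with _ | i
    · rcases b with _ | j
      · rfl
      · exact absurd hab.symm (hne j)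
    · rcases b with _ | j
      · exact absurd hab (hne i)
      · have h2 := congrArg (fun t : φ.range => (t : Multiplicative F)) hab
        simp only [hψ1] at h2
        have h3 : ((χ h : Fˣ) : F) ^ (i : ℕ) * f y = ((χ h : Fˣ) : F) ^ (j : ℕ) * f y :=
          Multiplicative.ofAdd.injective h2
        have h4 := mul_right_cancel₀ hy h3
        have h5 : (χ h) ^ (i : ℕ) = (χ h) ^ (j : ℕ) := by
          ext
          rw [Units.val_pow_eq_pow_val, Units.val_pow_eq_pow_val, h4]
        have h6 : (i : ℕ) = j := pow_injOn_Iio_orderOf i.2 j.2 h5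
        rw [Fin.ext h6]
  have hcard := Nat.card_le_card_of_injective ψ hinj
  rw [Nat.card_eq_fintype_card, Fintype.card_option, Fintype.card_fin] at hcard
  omega

end Pool.Agent.TWK
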