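import Pool.Agent.TWK.StK3

/-!
# TWK, module K3: the assembly of block K with an intermediate field
-/

set_option autoImplicit false

open NumberField IsDedekindDomain Finset
open scoped nonZeroDivisors Pointwise

namespace Pool.Agent.TWK

open Pool.Agent.MU3 Pool.Agent.RI Pool.Agent.MUXK

theorem t_K3 (hNRJ : S_NRJ) (hNRM : S_NRM1) (hIDX : S_IDX1) (hTRV : S_TRV1) (hCLG : S_CLG1)
    (hNPW : S_NPW1) (hKOL : S_KOL3) (hFIX : S_FIX1) : S_K3 := by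
  intro p _ F _ _ _ k F₁ L D M _ _ _ _ _ _ _ _ _ _ _ _ _ _ _ _ _ _ _ _ _ _ _ _ _ hab hpk hp1 S
    ζ hζ h2 hpS hS hram c Gs hc0 hSU hKol g'' g' g g₁ hg' hfix hgg'' hgg' hg₁ hgen hchi
  obtain ⟨N, hN1, hN2, hN3⟩ := hNRJ k L M
  have hN : IsN k L M N := ⟨hN1, fun w v h hcard => (hN2 w v h).2 hcard, hN3⟩
  have habD : ∀ σ τ : D ≃ₐ[k] D, σ * τ = τ * σ := by
    intro σ τ
    obtain ⟨σ', rfl⟩ := AlgEquiv.restrictNormalHom_surjective (F := k) (K₁ := D) (E := M) σ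
    obtain ⟨τ', rfl⟩ := AlgEquiv.restrictNormalHom_surjective (F := k) (K₁ := D) (E := M) τ
    rw [← map_mul, hab, map_mul]
  have hfixD := (hFIX k D M S).1 g'' g' hgg'' hfix
  have hramD := (hFIX k D M S).2 hram
  obtain ⟨u, hu, hrel⟩ := hKOL p k L D M habD S ζ hζ h2 hpS hS hramD c Gs hc0 hSU hKol g' hg' hfixD
    g hgg'
  have hfixL := (hFIX k L D S).1 g' g hgg' hfixD
  have hramL := (hFIX k L D S).2 hramD
  have hn0 : Algebra.norm L c ≠ 0 := Algebra.norm_ne_zero_iff.2 hc0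
  have habL : ∀ σ τ : L ≃ₐ[k] L, σ * τ = τ * σ := by
    intro σ τ
    obtain ⟨σ', rfl⟩ := AlgEquiv.restrictNormalHom_surjective (F := k) (K₁ := L) (E := M) σ
    obtain ⟨τ', rfl⟩ := AlgEquiv.restrictNormalHom_surjective (F := k) (K₁ := L) (E := M) τ
    rw [← map_mul, hab, map_mul]
  refine hCLG p k F₁ L g g₁ hg₁ hgen hp1 (hTRV p F k L habL hpk g ?_)
  intro χ f hf hχg x
  obtain ⟨⟨h, hh⟩, θ, hθ⟩ := hchi χ hχg
  obtain ⟨θ', hθ'⟩ := hNPW p F k L M χ g hχg (Algebra.norm L c) u hn0 hu θ hθ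
  exact hIDX F k L M S hS χ f hf N hN (hNRM p F k L M S ζ hζ h2 hpS hS hramL g hfixL χ θ' u hχg hrel
    hθ' f hf N hN) h hh x

end Pool.Agent.TWK
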