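import Pool.Agent.TWK.StK3

/-!
# TWK, module K4: the assembly of block K for subfields of `ℂ`, with an intermediate field
-/

set_option autoImplicit false

open NumberField IsDedekindDomain Finset
open scoped nonZeroDivisors Pointwise

namespace Pool.Agent.TWK

open Pool.Agent.MU3 Pool.Agent.RI Pool.Agent.RID Pool.Agent.MUXK

namespace K4x

theorem classNo_eq (E : IntermediateField ℚ ℂ) [FiniteDimensional ℚ E] :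
    classNo E = NumberField.classNumber E := by
  unfold classNo NumberField.classNumber
  rw [Nat.card_eq_fintype_card]

end K4x

theorem t_K4 (hK3 : S_K3) (hPWL : S_PWL1) (hSUB : S_SUBC) (hGAL : S_GALC) (hRAM : S_RAMC)
    (hLFT : S_LFT2) (hDEG : S_DEG2) (hNRM : S_NRM2) (hDSC : S_DSC2) : S_K4 := by
  intro p l _ _ hpl F _ _ _ k K K'' K' B _ _ _ _ _ _ _ hD
  have hB := hD.set
  obtain ⟨S', h2', hp', hS', hram'⟩ := hRAM p l k K' B hB.bas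
  refine ⟨S', h2', hp', hS', ?_⟩
  intro S hSS hS
  obtain ⟨n₀, hn₀⟩ := hLFT l k K K' B hB.bas hB.hk hB.le S hS (Module.finrank ℚ K')
  refine ⟨n₀, ?_⟩
  intro n hn h h''
  let i1 : Algebra k ↥(K ⊔ B (n + 1)) := algC h
  let j2 : Algebra k ↥(K'' ⊔ B (n + 1)) := algC h''
  intro c c₀ hc0 hSU hKol hcc hchi L hkL hLN
  have hLD : K ⊔ B (n + 1) ≤ K'' ⊔ B (n + 1) := sup_le_sup_right hD.le1 _
  have hDM : K'' ⊔ B (n + 1) ≤ K' ⊔ B (n + 1) := sup_le_sup_right hD.le2 _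
  have hh : K ⊔ B (n + 1) ≤ K' ⊔ B (n + 1) := hLD.trans hDM
  have h' : k ≤ K' ⊔ B (n + 1) := h.trans hh
  let i2 : Algebra k ↥(K' ⊔ B (n + 1)) := algC h'
  have hF : K ⊔ B n ≤ K ⊔ B (n + 1) := sup_le_sup_left (hB.bas.mono (Nat.le_succ n)) K
  have hkF : k ≤ K ⊔ B n := hB.hk.trans le_sup_left
  obtain ⟨g'', g, g₁, hg1, hg2, hg3, hg4, hg5, hg6⟩ := hn₀ n hn h h' hh hF
  let i3 : Algebra ↥(K ⊔ B (n + 1)) ↥(K' ⊔ B (n + 1)) := algC hh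
  let i4 : Algebra ↥(K ⊔ B n) ↥(K ⊔ B (n + 1)) := algC hF
  let j3 : Algebra ↥(K ⊔ B (n + 1)) ↥(K'' ⊔ B (n + 1)) := algC hLD
  let j4 : Algebra ↥(K'' ⊔ B (n + 1)) ↥(K' ⊔ B (n + 1)) := algC hDM
  have t1 : IsScalarTower k ↥(K ⊔ B (n + 1)) ↥(K' ⊔ B (n + 1)) := towerC h hh
  have t3 : IsScalarTower k ↥(K ⊔ B (n + 1)) ↥(K'' ⊔ B (n + 1)) := towerC h hLD
  have t4 : IsScalarTower k ↥(K'' ⊔ B (n + 1)) ↥(K' ⊔ B (n + 1)) := towerC h'' hDM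
  have t5 : IsScalarTower ↥(K ⊔ B (n + 1)) ↥(K'' ⊔ B (n + 1)) ↥(K' ⊔ B (n + 1)) := towerC hLD hDM
  have hbK : BasC l k K B := hSUB l k K K' B hB.bas hB.hk hB.le
  have hbK'' : BasC l k K'' B := hSUB l k K'' K' B hB.bas (hB.hk.trans hD.le1) hD.le2
  obtain ⟨gal1, ab1⟩ := hGAL l k K B hbK (n + 1) h
  obtain ⟨gal2, ab2⟩ := hGAL l k K' B hB.bas (n + 1) h'
  obtain ⟨gal5, ab5⟩ := hGAL l k K'' B hbK'' (n + 1) h''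
  obtain ⟨d1, d2, d3⟩ := hDEG p l hpl k K K' B hB.bas.lay hB.bas.mono hB.hk hB.le hB.cop
  let i5 : Algebra k ↥(K ⊔ B n) := algC hkF
  have t2 : IsScalarTower k ↥(K ⊔ B n) ↥(K ⊔ B (n + 1)) := towerC hkF hF
  have gal3 : IsGalois ↥(K ⊔ B n) ↥(K ⊔ B (n + 1)) :=
    IsGalois.tower_top_of_isGalois k ↥(K ⊔ B n) ↥(K ⊔ B (n + 1))
  have gal4 : IsGalois ↥(K ⊔ B (n + 1)) ↥(K' ⊔ B (n + 1)) :=
    IsGalois.tower_top_of_isGalois k ↥(K ⊔ B (n + 1)) ↥(K' ⊔ B (n + 1))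
  have gal6 : IsGalois ↥(K ⊔ B (n + 1)) ↥(K'' ⊔ B (n + 1)) :=
    IsGalois.tower_top_of_isGalois k ↥(K ⊔ B (n + 1)) ↥(K'' ⊔ B (n + 1))
  have hdp1 : ¬ p ∣ Module.finrank k ↥(K ⊔ B (n + 1)) := d2 (n + 1) h
  -- the roots of unity
  obtain ⟨z, hzK, hz⟩ := hB.ze
  have hzM : z ∈ K' ⊔ B (n + 1) := (le_sup_left : K' ≤ K' ⊔ B (n + 1)) hzK
  have hpp : p.Prime := Fact.out
  have hzM' : IsPrimitiveRoot (⟨z, hzM⟩ : ↥(K' ⊔ B (n + 1))) (2 * p) := by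
    refine IsPrimitiveRoot.of_map_of_injective
      (f := (algebraMap ↥(K' ⊔ B (n + 1)) ℂ)) (k := 2 * p) ?_ (algebraMap ↥(K' ⊔ B (n + 1)) ℂ).injective
    exact hz
  have h2p : 0 < 2 * p := Nat.mul_pos two_pos hpp.pos
  have hne : NeZero (2 * p) := ⟨h2p.ne'⟩
  let ζ : 𝓞 ↥(K' ⊔ B (n + 1)) := hzM'.toInteger
  have hζ : IsPrimitiveRoot ζ (2 * p) := hzM'.toInteger_isPrimitiveRoot
  have hω : IsPrimitiveRoot ((⟨z, hzM⟩ : ↥(K' ⊔ B (n + 1))) ^ 2) p :=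
    hzM'.pow h2p rfl
  have habML : ∀ σ τ : ↥(K' ⊔ B (n + 1)) ≃ₐ[↥(K ⊔ B (n + 1))] ↥(K' ⊔ B (n + 1)),
      σ * τ = τ * σ := by
    intro σ τ
    apply AlgEquiv.restrictScalars_injective k
    exact ab2 (σ.restrictScalars k) (τ.restrictScalars k)
  have hnorm : Algebra.norm ↥(K ⊔ B (n + 1)) c = c₀ := by
    apply Subtype.ext
    rw [hcc]
    exact hNRM k (K ⊔ B (n + 1)) (K'' ⊔ B (n + 1)) h h'' hLD gal6 c
  -- the automorphism of `D`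
  let g' : ↥(K'' ⊔ B (n + 1)) ≃ₐ[k] ↥(K'' ⊔ B (n + 1)) :=
    AlgEquiv.restrictNormalHom ↥(K'' ⊔ B (n + 1)) g''
  have hg' : ∀ x : ↥(K'' ⊔ B (n + 1)), algebraMap ↥(K'' ⊔ B (n + 1)) ↥(K' ⊔ B (n + 1)) (g' x) =
      g'' (algebraMap ↥(K'' ⊔ B (n + 1)) ↥(K' ⊔ B (n + 1)) x) := fun x =>
    AlgEquiv.restrictNormal_commutes g'' ↥(K'' ⊔ B (n + 1)) x
  have hg'' : g' ∈ {g : ↥(K'' ⊔ B (n + 1)) ≃ₐ[k] ↥(K'' ⊔ B (n + 1)) |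
      ∀ x : ↥(K'' ⊔ B (n + 1)), (x : ℂ) ∈ K'' → g x = x} := by
    intro x hx
    apply (algebraMap ↥(K'' ⊔ B (n + 1)) ↥(K' ⊔ B (n + 1))).injective
    rw [hg' x]
    exact hg1 _ (hD.le2 hx)
  have hgg' : ∀ x : ↥(K ⊔ B (n + 1)), algebraMap ↥(K ⊔ B (n + 1)) ↥(K'' ⊔ B (n + 1)) (g x) =
      g' (algebraMap ↥(K ⊔ B (n + 1)) ↥(K'' ⊔ B (n + 1)) x) := by
    intro x
    apply (algebraMap ↥(K'' ⊔ B (n + 1)) ↥(K' ⊔ B (n + 1))).injective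
    rw [hg', ← IsScalarTower.algebraMap_apply, ← IsScalarTower.algebraMap_apply]
    exact hg3 x
  refine hDSC p k (K ⊔ B n) (K ⊔ B (n + 1)) hkF hF ⟨gal1, ab1, hdp1⟩ ?_ L hkL hLN
  rw [K4x.classNo_eq, K4x.classNo_eq]
  refine hK3 p F k ↥(K ⊔ B n) ↥(K ⊔ B (n + 1)) ↥(K'' ⊔ B (n + 1)) ↥(K' ⊔ B (n + 1)) ab2 hdp1
    (d3 n hF) S ζ hζ (hSS h2') (hSS hp') hS (hram' S hSS (n + 1) h') c _ hc0 hSU hKol g'' g' g g₁
    hg'' hg2 hg' hgg' hg4 hg5 ?_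
  intro χ hχ
  obtain ⟨s, hs⟩ := hg6 F χ hχ
  refine ⟨⟨s, (d1 (n + 1) hh).trans hs⟩, ?_⟩
  obtain ⟨θ, hθ⟩ := hchi χ ⟨g, fun x hx => by
    have := g₁.commutes (⟨(x : ℂ), hx⟩ : ↥(K ⊔ B n))
    rw [hg4] at this
    exact this, hχ⟩
  refine ⟨θ, ?_⟩
  intro y hy
  rw [hnorm] at hy
  obtain ⟨x, hx⟩ := hPWL p ↥(K ⊔ B (n + 1)) ↥(K' ⊔ B (n + 1)) _ habML hω (by
    rintro ⟨w, hw⟩
    refine hB.om (n + 1) w w.2 ?_
    exact hw.map_of_injective (f := algebraMap ↥(K ⊔ B (n + 1)) ℂ)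
      (algebraMap ↥(K ⊔ B (n + 1)) ℂ).injective) _ y hy
  exact hθ x hx

end Pool.Agent.TWK
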