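import Pool.Agent.TWK.StK3
import Pool.Agent.MUX.K_KNM

/-!
# TWK, module KNM3: the norm step from `D` to `L`

The proof of `Pool/Agent/MUX/K_KNM.lean` with one more field.
-/

set_option autoImplicit false

open NumberField IsDedekindDomain Finset
open scoped nonZeroDivisors Pointwise

namespace Pool.Agent.TWK

open Pool.Agent.MU3 Pool.Agent.RI Pool.Agent.MUXK

namespace KNM3x

/-- A residue field between two residue fields with `q` elements. -/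
theorem card_mid {L D M : Type} [Field L] [NumberField L] [Field D] [NumberField D] [Field M]
    [NumberField M] [Algebra L D] [Algebra D M] (w' : HeightOneSpectrum (𝓞 M))
    (w : HeightOneSpectrum (𝓞 D)) (v : HeightOneSpectrum (𝓞 L)) {q : ℕ}
    (h1 : w'.asIdeal.under (𝓞 D) = w.asIdeal) (h2 : w.asIdeal.under (𝓞 L) = v.asIdeal)
    (hc : Nat.card (𝓞 M ⧸ w'.asIdeal) = q) (hv : Nat.card (𝓞 L ⧸ v.asIdeal) = q) :
    Nat.card (𝓞 D ⧸ w.asIdeal) = q := by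
  have fM : Finite (𝓞 M ⧸ w'.asIdeal) := Ring.HasFiniteQuotients.finiteQuotient w'.ne_bot
  have fD : Finite (𝓞 D ⧸ w.asIdeal) := Ring.HasFiniteQuotients.finiteQuotient w.ne_bot
  apply le_antisymm
  · rw [← hc]
    refine Nat.card_le_card_of_injective
      (Ideal.quotientMap w'.asIdeal (algebraMap (𝓞 D) (𝓞 M)) (le_of_eq h1.symm)) ?_
    exact Ideal.quotientMap_injective' (le_of_eq h1)
  · rw [← hv]
    refine Nat.card_le_card_of_injective
      (Ideal.quotientMap w.asIdeal (algebraMap (𝓞 L) (𝓞 D)) (le_of_eq h2.symm)) ?_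
    exact Ideal.quotientMap_injective' (le_of_eq h2)

end KNM3x

open K_KNM in
theorem t_KNM3 (h1 : S_NRJ) (h2 : S_STABX) : S_KNM3 := by
  classical
  intro p hpf k L M M' _ _ _ _ _ _ _ _ _ _ _ _ _ _ _ _ _ hab S ζ hζ h2S hpS hS hram u u₀ hu hK
    lam q hgood hAb a ha ha1 b₀ hb₀
  have hp : p.Prime := hpf.out
  obtain ⟨w', hw', hwc'⟩ := hAb
  have hq := hgood.prime
  let w : HeightOneSpectrum (𝓞 M) :=
    ⟨w'.asIdeal.under (𝓞 M), inferInstance, Ideal.under_ne_bot (𝓞 M) w'.ne_bot⟩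
  have hw : w.asIdeal.under (𝓞 L) = lam.asIdeal := by
    rw [← hw']
    exact Ideal.under_under (A := 𝓞 L) (B := 𝓞 M) w'.asIdeal
  have hwc : Nat.card (𝓞 M ⧸ w.asIdeal) = q := KNM3x.card_mid w' w lam rfl hw hwc' hgood.card
  have hgw : GoodPrP p k M S w q := by
    exact h2 p k M M' S ζ hζ h2S hpS hS hram w q hq hgood.notin hwc ⟨w', rfl, hwc'⟩
  have hpq : p ∣ q - 1 := (dvd_mul_left p 2).trans hgw.dvd
  have hex : ∀ h : M ≃ₐ[k] M, ∃ b : ℕ,
      (u : 𝓞 M) ^ ((q - 1) / p) - (a : 𝓞 M) ^ b ∈ h • w.asIdeal := by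
    intro h
    obtain ⟨b, hb⟩ := exists_exp w hp hq hpq hwc a ha ha1
      (Units.map (MulSemiringAction.toRingHom (M ≃ₐ[k] M) (𝓞 M) h⁻¹ : 𝓞 M →* 𝓞 M) u)
    refine ⟨b, ?_⟩
    rw [Ideal.mem_pointwise_smul_iff_inv_smul_mem, smul_sub, smul_pow', smul_pow']
    have h3 : h⁻¹ • ((a : ℤ) : 𝓞 M) = (a : 𝓞 M) :=
      map_intCast (MulSemiringAction.toRingHom (M ≃ₐ[k] M) (𝓞 M) h⁻¹) a
    rw [h3]
    exact hb
  choose b hb using hex
  obtain ⟨κ, I, s, hs, he⟩ := hK w q hgw a ha ha1 b hb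
  obtain ⟨N, hN1, hN2, hN3⟩ := h1 k L M
  set r : (M ≃ₐ[k] M) →* (L ≃ₐ[k] L) := AlgEquiv.restrictNormalHom L with hr
  have hrs : Function.Surjective r := AlgEquiv.restrictNormalHom_surjective M
  have hNw : N (vJ w) = vJ lam :=
    (hN2 w lam hw).2 (by rw [hwc, hgood.card])
  have hNh : ∀ h : M ≃ₐ[k] M, N (h • vJ w) = r h • vJ lam := by
    intro h
    rw [hN3 h (r h) (fun x => AlgEquiv.restrictNormal_commutes h L x) (vJ w), hNw]
  have hNs : N s ∈ SJ S L := by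
    have h3 : SJ S M ≤ (SJ S L).comap N := by
      unfold SJ
      rw [Subgroup.closure_le]
      rintro _ ⟨v', hv', rfl⟩
      rw [SetLike.mem_coe, Subgroup.mem_comap]
      set v : HeightOneSpectrum (𝓞 L) :=
        ⟨v'.asIdeal.under (𝓞 L), inferInstance, Ideal.under_ne_bot (𝓞 L) v'.ne_bot⟩ with hv
      obtain ⟨f, hf⟩ := (hN2 v' v rfl).1
      rw [hf]
      apply Subgroup.pow_mem
      apply Subgroup.subset_closure
      refine ⟨v, ?_, rfl⟩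
      obtain ⟨ℓ, hℓ, hm⟩ := hv'
      refine ⟨ℓ, hℓ, ?_⟩
      change algebraMap (𝓞 L) (𝓞 M) (ℓ : 𝓞 L) ∈ v'.asIdeal
      rw [map_natCast]
      exact hm
    exact h3 hs
  set B : (L ≃ₐ[k] L) → ℕ := fun h₀ => ∑ g ∈ univ.filter (fun g : M ≃ₐ[k] M => r g = h₀), b g
    with hB
  have hBc : ∀ h₀ : L ≃ₐ[k] L, b₀ h₀ ≡ B h₀ [MOD p] := by
    intro h₀
    obtain ⟨h, rfl⟩ := hrs h₀
    have h3 := cong w lam hw ((q - 1) / p) a b u u₀ hu hb h
    have h4 := hb₀ (r h)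
    have h5 := (r h • lam.asIdeal).sub_mem h3 h4
    have h6 : (a : 𝓞 L) ^ b₀ (r h) - (a : 𝓞 L) ^ B (r h) ∈ r h • lam.asIdeal := by
      convert h5 using 1
      simp only [hB, hr]
      ring
    rw [Ideal.mem_pointwise_smul_iff_inv_smul_mem, smul_sub, smul_pow', smul_pow'] at h6
    have h7 : (r h)⁻¹ • ((a : ℤ) : 𝓞 L) = (a : 𝓞 L) :=
      map_intCast (MulSemiringAction.toRingHom (L ≃ₐ[k] L) (𝓞 L) (r h)⁻¹) a
    rw [h7] at h6
    exact modEq lam hp hq hgood.card a ha ha1 _ _ h6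
  have hBd : ∀ h₀ : L ≃ₐ[k] L, ∃ c : ℤ, (b₀ h₀ : ℤ) = B h₀ + p * c := by
    intro h₀
    obtain ⟨c, hc⟩ := (Nat.modEq_iff_dvd.1 (hBc h₀).symm)
    exact ⟨c, by linarith⟩
  choose c hc using hBd
  have hprod : ∏ h₀ : L ≃ₐ[k] L, (h₀ • vJ lam) ^ B h₀ =
      prin (Units.map (Algebra.norm L : M →* L) κ) * (N I) ^ p * N s := by
    have h3 := congrArg N he
    rw [map_mul, map_mul, map_pow, hN1, map_prod] at h3
    rw [← h3, ← Finset.prod_fiberwise univ (fun h : M ≃ₐ[k] M => r h)]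
    refine Finset.prod_congr rfl (fun h₀ _ => ?_)
    rw [hB]
    simp only
    rw [← Finset.prod_pow_eq_pow_sum]
    refine Finset.prod_congr rfl (fun g hg => ?_)
    rw [map_pow, hNh, (mem_filter.1 hg).2]
  refine ⟨Units.map (Algebra.norm L : M →* L) κ,
    N I * ∏ h₀ : L ≃ₐ[k] L, (h₀ • vJ lam) ^ c h₀, N s, hNs, ?_⟩
  have h3 : ∏ h₀ : L ≃ₐ[k] L, (h₀ • vJ lam) ^ b₀ h₀ =
      (∏ h₀ : L ≃ₐ[k] L, (h₀ • vJ lam) ^ B h₀) *
        (∏ h₀ : L ≃ₐ[k] L, (h₀ • vJ lam) ^ c h₀) ^ p := by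
    rw [← Finset.prod_pow, ← Finset.prod_mul_distrib]
    refine Finset.prod_congr rfl (fun h₀ _ => ?_)
    rw [← zpow_natCast, hc h₀, zpow_add, zpow_natCast, mul_comm (p : ℤ) (c h₀), zpow_mul,
      zpow_natCast]
  rw [h3, hprod, mul_pow]
  exact mul_right_comm _ _ _ |>.trans (by rw [mul_assoc (prin _) (N I ^ p) _])

end Pool.Agent.TWK
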