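import Pool.Agent.TWK.StK1
import Pool.Agent.MU3.P_UNI

/-!
# TWK, block K: module KOL1 (helper63)
-/

set_option autoImplicit false

open NumberField IsDedekindDomain Finset
open scoped nonZeroDivisors Pointwise

namespace Pool.Agent.TWK

open Pool.Agent.MU3 Pool.Agent.RI Pool.Agent.MUXK

namespace KOL1x

/-- The norm commutes with compatible automorphisms (from `Pool/Agent/MUX/K_KOLX.lean`). -/
theorem norm_comp {k L M : Type} [Field k] [Field L] [Field M] [Algebra k L] [Algebra L M]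
    [Algebra k M] [IsScalarTower k L M] [FiniteDimensional L M] [IsGalois L M]
    (comm : ∀ σ τ : M ≃ₐ[k] M, σ * τ = τ * σ) (g : L ≃ₐ[k] L) (g' : M ≃ₐ[k] M)
    (hg : ∀ x : L, algebraMap L M (g x) = g' (algebraMap L M x)) (x : M) :
    Algebra.norm L (g' x) = g (Algebra.norm L x) := by
  apply (algebraMap L M).injective
  rw [hg, Algebra.norm_eq_prod_automorphisms, Algebra.norm_eq_prod_automorphisms, map_prod]
  refine Finset.prod_congr rfl fun σ _ => ?_
  have h1 := congrArg (fun τ : M ≃ₐ[k] M => τ x) (comm (σ.restrictScalars k) g')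
  simpa using h1

theorem norm_comp_pow {k L M : Type} [Field k] [Field L] [Field M] [Algebra k L] [Algebra L M]
    [Algebra k M] [IsScalarTower k L M] [FiniteDimensional L M] [IsGalois L M]
    (comm : ∀ σ τ : M ≃ₐ[k] M, σ * τ = τ * σ) (g : L ≃ₐ[k] L) (g' : M ≃ₐ[k] M)
    (hg : ∀ x : L, algebraMap L M (g x) = g' (algebraMap L M x)) (x : M) (j : ℕ) :
    Algebra.norm L ((g' ^ j) x) = (g ^ j) (Algebra.norm L x) := by
  induction j with
  | zero => simp
  | succ j ih =>
    rw [pow_succ', pow_succ', AlgEquiv.mul_apply, AlgEquiv.mul_apply, norm_comp comm g g' hg, ih]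

end KOL1x

theorem t_KOL1 (h1 : S_KINX) (h2 : S_KNM) : S_KOL1 := by
  intro p _ k L M _ _ _ _ _ _ _ _ _ _ galL galM comm S ζ hζ h2S hpS hSp hram c Gs hc hSU hK g' hg'
    hfix g hgg
  obtain ⟨u', hu'⟩ := t_UNI k M S c hc hSU g' hfix p
  have hrel := h1 p k M comm S hpS c hc hSU Gs hK g' hg' hfix u' hu'
  have galLM : IsGalois L M := IsGalois.tower_top_of_isGalois k L M
  have fdLM : FiniteDimensional L M := inferInstance
  have hc0 : Algebra.norm L c ≠ 0 := Algebra.norm_ne_zero_iff.2 hc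
  have hn : (((Units.map (RingOfIntegers.norm L) u' : (𝓞 L)ˣ) : 𝓞 L) : L) =
      Algebra.norm L ((u' : 𝓞 M) : M) := by
    rw [Units.coe_map]
    exact RingOfIntegers.coe_norm (K := L) (L := M) _
  refine ⟨Units.map (RingOfIntegers.norm L) u', ?_, ?_⟩
  · rw [hn, eq_div_iff hc0, ← KOL1x.norm_comp_pow comm g g' hgg, ← map_mul, hu',
      div_mul_cancel₀ _ hc]
  · exact h2 p k L M comm S ζ hζ h2S hpS hSp hram u' _ hn hrel

end Pool.Agent.TWK
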