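import Pool.Agent.TWK.StK3
import Pool.Agent.TWK.KOL1

/-!
# TWK, module KOL3: the relations for the norm of `g' ^ p c / c`, `c ∈ D`
-/

set_option autoImplicit false

open NumberField IsDedekindDomain Finset
open scoped nonZeroDivisors Pointwise

namespace Pool.Agent.TWK

open Pool.Agent.MU3 Pool.Agent.RI Pool.Agent.MUXK

theorem t_KOL3 (h1 : S_KINX) (h2 : S_KNM3) : S_KOL3 := by
  intro p _ k L D M _ _ _ _ _ _ _ _ _ _ _ _ _ _ _ galL galD comm S ζ hζ h2S hpS hSp hram c Gs hc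
    hSU hK g' hg' hfix g hgg
  obtain ⟨u', hu'⟩ := t_UNI k D S c hc hSU g' hfix p
  have hrel := h1 p k D comm S hpS c hc hSU Gs hK g' hg' hfix u' hu'
  have galLD : IsGalois L D := IsGalois.tower_top_of_isGalois k L D
  have fdLD : FiniteDimensional L D := inferInstance
  have hc0 : Algebra.norm L c ≠ 0 := Algebra.norm_ne_zero_iff.2 hc
  have hn : (((Units.map (RingOfIntegers.norm L) u' : (𝓞 L)ˣ) : 𝓞 L) : L) =
      Algebra.norm L ((u' : 𝓞 D) : D) := by
    rw [Units.coe_map]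
    exact RingOfIntegers.coe_norm (K := L) (L := D) _
  refine ⟨Units.map (RingOfIntegers.norm L) u', ?_, ?_⟩
  · rw [hn, eq_div_iff hc0, ← KOL1x.norm_comp_pow comm g g' hgg, ← map_mul, hu',
      div_mul_cancel₀ _ hc]
  · exact h2 p k L D M comm S ζ hζ h2S hpS hSp hram u' _ hn hrel

end Pool.Agent.TWK
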