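import Pool.Agent.TWK.StK2
import Pool.Agent.RI.LAY

/-!
# TWK_LFT2: the automorphisms `g'`, `g`, `g₁` for large `n` (helper85)
-/

open NumberField IsDedekindDomain Finset
open scoped nonZeroDivisors Pointwise

namespace Pool.Agent.TWK

open Pool.Agent.MU3 Pool.Agent.RI Pool.Agent.RID Pool.Agent.MUXK

namespace LFT2x

/-- The elements of `L` fixed by `φ`, as a subfield of `ℂ`. -/
def fixT (L : IntermediateField ℚ ℂ) (φ : L →+* L) : IntermediateField ℚ ℂ where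
  carrier := {z | ∃ hz : z ∈ L, φ ⟨z, hz⟩ = ⟨z, hz⟩}
  mul_mem' := by
    rintro a b ⟨ha, ha'⟩ ⟨hb, hb'⟩
    refine ⟨mul_mem ha hb, ?_⟩
    have e : (⟨a * b, mul_mem ha hb⟩ : L) = ⟨a, ha⟩ * ⟨b, hb⟩ := rfl
    rw [e, map_mul, ha', hb']
  add_mem' := by
    rintro a b ⟨ha, ha'⟩ ⟨hb, hb'⟩
    refine ⟨add_mem ha hb, ?_⟩
    have e : (⟨a + b, add_mem ha hb⟩ : L) = ⟨a, ha⟩ + ⟨b, hb⟩ := rfl
    rw [e, map_add, ha', hb']
  algebraMap_mem' := by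
    intro r
    refine ⟨algebraMap_mem _ r, ?_⟩
    have e : (⟨algebraMap ℚ ℂ r, algebraMap_mem _ r⟩ : L) = (r : L) := by
      apply Subtype.ext
      simp
    rw [e, map_ratCast]
  inv_mem' := by
    rintro a ⟨ha, ha'⟩
    refine ⟨inv_mem ha, ?_⟩
    have e : (⟨a⁻¹, inv_mem ha⟩ : L) = (⟨a, ha⟩)⁻¹ := rfl
    rw [e, map_inv₀, ha']

/-- Fixed on `X` and on `Y` implies fixed on `X ⊔ Y`. -/
lemma fix_sup {L X Y : IntermediateField ℚ ℂ} (hXL : X ≤ L) (hYL : Y ≤ L) (φ : L →+* L)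
    (hX : ∀ x : L, (x : ℂ) ∈ X → φ x = x) (hY : ∀ x : L, (x : ℂ) ∈ Y → φ x = x) :
    ∀ x : L, (x : ℂ) ∈ X ⊔ Y → φ x = x := by
  have hT : X ⊔ Y ≤ fixT L φ :=
    sup_le (fun a ha => ⟨hXL ha, hX _ ha⟩) (fun b hb => ⟨hYL hb, hY _ hb⟩)
  intro x hx
  exact (hT hx).2

/-- A group which embeds into a group of prime order is generated by any element `≠ 1`. -/
lemma gen_of_prime {G H : Type} [Group G] [Group H] {l : ℕ} (hl : l.Prime)
    (hH : Nat.card H = l) (f : G →* H) (hf : Function.Injective f) (g : G) (hg : g ≠ 1) (τ : G) :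
    τ ∈ Subgroup.zpowers g := by
  have : Fact l.Prime := ⟨hl⟩
  have hd : Nat.card G ∣ l := hH ▸ Subgroup.card_dvd_of_injective f hf
  rcases (Nat.dvd_prime hl).1 hd with h | h
  · exact absurd (Nat.card_eq_one_iff_unique.1 h).1 (fun hs => hg (Subsingleton.elim g 1))
  · exact mem_zpowers_of_prime_card h hg

/-- `Gal(K B_(n+1) / K B_n)` is generated by any element `≠ 1`. -/
lemma gen_top (l : ℕ) [Fact l.Prime] (K : IntermediateField ℚ ℂ) (B : ℕ → IntermediateField ℚ ℂ)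
    (hB : ∀ n, IsLayer l n (B n)) (hm : Monotone B) (n : ℕ)
    (hF : K ⊔ B n ≤ K ⊔ B (n + 1)) :
    letI := algC hF
    ∀ g τ : ↥(K ⊔ B (n + 1)) ≃ₐ[↥(K ⊔ B n)] ↥(K ⊔ B (n + 1)), g ≠ 1 →
      τ ∈ Subgroup.zpowers g := by
  let aF : Algebra ↥(K ⊔ B n) ↥(K ⊔ B (n + 1)) := algC hF
  intro g τ hg
  have hl : l.Prime := Fact.out
  have hBB : B n ≤ B (n + 1) := hm (Nat.le_succ n)
  obtain ⟨fd1, hG1, -⟩ := LAY_thm l (n + 1) (B (n + 1)) (hB (n + 1))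
  obtain ⟨fd0, hG0, -⟩ := LAY_thm l n (B n) (hB n)
  let a1 : Algebra (B n) (B (n + 1)) := algC hBB
  let a2 : Algebra (B n) ↥(K ⊔ B n) := algC le_sup_right
  let a3 : Algebra (B n) ↥(K ⊔ B (n + 1)) := algC (le_sup_right.trans hF)
  let a4 : Algebra (B (n + 1)) ↥(K ⊔ B (n + 1)) := algC le_sup_right
  have t1 : IsScalarTower (B n) (B (n + 1)) ↥(K ⊔ B (n + 1)) := towerC hBB le_sup_right
  have t2 : IsScalarTower (B n) ↥(K ⊔ B n) ↥(K ⊔ B (n + 1)) := towerC le_sup_right hF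
  have t3 : IsScalarTower ℚ (B n) (B (n + 1)) := IsScalarTower.of_algebraMap_eq (fun _ => rfl)
  have g3 : IsGalois (B n) (B (n + 1)) := IsGalois.tower_top_of_isGalois ℚ _ _
  have f3 : FiniteDimensional (B n) (B (n + 1)) := Module.Finite.of_restrictScalars_finite ℚ _ _
  have hd : Nat.card (B (n + 1) ≃ₐ[B n] B (n + 1)) = l := by
    rw [IsGalois.card_aut_eq_finrank]
    have h1 := Module.finrank_mul_finrank ℚ (B n) (B (n + 1))
    rw [(hB n).1, (hB (n + 1)).1, pow_succ] at h1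
    exact Nat.eq_of_mul_eq_mul_left (pow_pos hl.pos n) h1
  refine gen_of_prime hl hd ((AlgEquiv.restrictNormalHom (B (n + 1))).comp
    (AlgEquiv.restrictScalarsHom (B n))) ?_ g hg τ
  rw [injective_iff_map_eq_one]
  intro a ha
  have hK : ∀ x : ↥(K ⊔ B (n + 1)), (x : ℂ) ∈ K → (a : _ →+* _) x = x := fun x hx =>
    a.commutes (⟨(x : ℂ), le_sup_left (a := K) (b := B n) hx⟩ : ↥(K ⊔ B n))
  have hB1 : ∀ x : ↥(K ⊔ B (n + 1)), (x : ℂ) ∈ B (n + 1) → (a : _ →+* _) x = x := by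
    intro x hx
    have h1 := AlgEquiv.restrictNormal_commutes
      (AlgEquiv.restrictScalars (B n) a : ↥(K ⊔ B (n + 1)) ≃ₐ[B n] ↥(K ⊔ B (n + 1)))
      (B (n + 1)) ⟨(x : ℂ), hx⟩
    have h2 : AlgEquiv.restrictNormal (AlgEquiv.restrictScalars (B n) a) (B (n + 1)) = 1 := ha
    rw [h2] at h1
    exact h1.symm
  ext x
  exact congrArg _ (fix_sup le_sup_left le_sup_right (a : _ →+* _) hK hB1 x x.2)

end LFT2x

open LFT2x in
theorem t_LFT2 (h1 : S_SUBC) (h2 : S_GALC) (h3 : S_CYC2) (h4 : S_PRM2) : S_LFT2 := by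
  intro l _ k K K' B fdk fdK fdK' fdKB fdKB' hB hkK hKK' S hS C
  have hl : l.Prime := Fact.out
  obtain ⟨m₀, hm₀⟩ := h4 l k K' B hB S hS
  have hBK : BasC l k K B := h1 l k K K' B hB hkK hKK'
  refine ⟨Module.finrank ℚ K' * (C + l ^ m₀), fun n hn h h' hh hF => ?_⟩
  let aL : Algebra k ↥(K ⊔ B (n + 1)) := algC h
  let aM : Algebra k ↥(K' ⊔ B (n + 1)) := algC h'
  let aLM : Algebra ↥(K ⊔ B (n + 1)) ↥(K' ⊔ B (n + 1)) := algC hh
  let aF : Algebra ↥(K ⊔ B n) ↥(K ⊔ B (n + 1)) := algC hF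
  obtain ⟨e, σ, hσo, hσd, hσK, hσe⟩ := h3 l k K' B hB n h'
  have hbig : C + l ^ m₀ < l ^ e := by
    have a1 : n + 1 < l ^ (n + 1) := Nat.lt_pow_self hl.one_lt
    have a2 : Module.finrank ℚ K' * (C + l ^ m₀) < Module.finrank ℚ K' * l ^ e := by
      rw [mul_comm _ (l ^ e)]
      omega
    exact lt_of_mul_lt_mul_left a2 (Nat.zero_le _)
  have hme : m₀ < e := (Nat.pow_lt_pow_iff_right hl.one_lt).1 (by omega)
  obtain ⟨e', rfl⟩ : ∃ e', e = e' + 1 := ⟨e - 1, by omega⟩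
  obtain ⟨hσB, x, hx, hxne⟩ := hσe e' rfl
  have hσ1 : σ ^ (l ^ (e' + 1)) = 1 := by rw [← hσo]; exact pow_orderOf_eq_one σ
  have gL : IsGalois k ↥(K ⊔ B (n + 1)) := (h2 l k K B hBK (n + 1) h).1
  have t0 : IsScalarTower k ↥(K ⊔ B (n + 1)) ↥(K' ⊔ B (n + 1)) := towerC h hh
  have hres : ∀ (j : ℕ) (y : ↥(K ⊔ B (n + 1))),
      algebraMap ↥(K ⊔ B (n + 1)) ↥(K' ⊔ B (n + 1))
        (((AlgEquiv.restrictNormalHom ↥(K ⊔ B (n + 1)) σ) ^ j) y) =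
      (σ ^ j) (algebraMap ↥(K ⊔ B (n + 1)) ↥(K' ⊔ B (n + 1)) y) := by
    intro j y
    rw [← map_pow]
    exact AlgEquiv.restrictNormal_commutes (σ ^ j) ↥(K ⊔ B (n + 1)) y
  have hinj : Function.Injective (algebraMap ↥(K ⊔ B (n + 1)) ↥(K' ⊔ B (n + 1))) :=
    (algebraMap ↥(K ⊔ B (n + 1)) ↥(K' ⊔ B (n + 1))).injective
  set s : ↥(K ⊔ B (n + 1)) ≃ₐ[k] ↥(K ⊔ B (n + 1)) :=
    AlgEquiv.restrictNormalHom ↥(K ⊔ B (n + 1)) σ with hs
  have hpK : ∀ (j : ℕ) (x : ↥(K' ⊔ B (n + 1))), (x : ℂ) ∈ K' → (σ ^ j) x = x := by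
    intro j x hx
    induction j with
    | zero => rfl
    | succ j ih => rw [pow_succ, AlgEquiv.mul_apply, hσK x hx, ih]
  have hgfix : ∀ y : ↥(K ⊔ B (n + 1)), (y : ℂ) ∈ K ⊔ B n → (s ^ (l ^ e')) y = y := by
    refine fix_sup le_sup_left (le_sup_right.trans hF)
      ((s ^ (l ^ e') : ↥(K ⊔ B (n + 1)) ≃ₐ[k] ↥(K ⊔ B (n + 1))) : _ →+* _) ?_ ?_
    · intro y hy
      apply hinj
      exact (hres (l ^ e') y).trans (hpK (l ^ e') _ (hKK' hy))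
    · intro y hy
      apply hinj
      exact (hres (l ^ e') y).trans (hσB _ hy)
  refine ⟨σ ^ (l ^ e'), s ^ (l ^ e'), AlgEquiv.ofRingEquiv
    (f := (s ^ (l ^ e') : ↥(K ⊔ B (n + 1)) ≃ₐ[k] ↥(K ⊔ B (n + 1))).toRingEquiv)
    (fun y => hgfix _ y.2), hpK _, ?_, hres _, fun _ => rfl, ?_, ?_⟩
  · intro v hv
    have a1 := hm₀ (n + 1) h' (σ ^ (l ^ (e' - m₀))) (e' + 1)
      (by rw [← pow_mul, mul_comm, pow_mul, hσ1, one_pow]) v hv
    rwa [← pow_mul, ← pow_add, Nat.sub_add_cancel (Nat.lt_succ_iff.1 hme)] at a1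
  · intro τ
    refine gen_top l K B hB.lay hB.mono n hF _ τ ?_
    intro h5
    apply hxne
    have h6 := hres (l ^ e') ⟨(x : ℂ), le_sup_right (a := K) (b := B (n + 1)) hx⟩
    have h7 : (s ^ (l ^ e')) (⟨(x : ℂ), le_sup_right (a := K) (b := B (n + 1)) hx⟩ :
        ↥(K ⊔ B (n + 1))) = ⟨(x : ℂ), le_sup_right (a := K) (b := B (n + 1)) hx⟩ :=
      congrArg (fun ρ : ↥(K ⊔ B (n + 1)) ≃ₐ[↥(K ⊔ B n)] ↥(K ⊔ B (n + 1)) =>
        ρ ⟨(x : ℂ), le_sup_right (a := K) (b := B (n + 1)) hx⟩) h5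
    rw [h7] at h6
    exact h6.symm
  · intro F _ χ hχ
    refine ⟨s, ?_⟩
    have : Fact l.Prime := ⟨hl⟩
    have h5 : orderOf (χ s) = l ^ (e' + 1) := by
      refine orderOf_eq_prime_pow ?_ ?_
      · rw [← map_pow]; exact hχ
      · rw [← map_pow, hs, ← map_pow, hσ1, map_one, map_one]
    rw [h5]
    omega

end Pool.Agent.TWK
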