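import Pool.Agent.TWK.StK1

/-!
# TWK, module NPW1: from `c` to `u = g ^ p c / c`
-/

set_option autoImplicit false

open NumberField IsDedekindDomain Finset
open scoped nonZeroDivisors Pointwise

namespace Pool.Agent.TWK

open Pool.Agent.MU3 Pool.Agent.RI Pool.Agent.MUXK

namespace NPW1x

/-- The value of `sU` in `L`. -/
theorem sU_val {k L F : Type} [Field k] [NumberField k] [Field L] [NumberField L] [Algebra k L]
    [Field F] (p : ℕ) (χ : (L ≃ₐ[k] L) →* Fˣ) (θ : F →+ ZMod p) (u : (𝓞 L)ˣ) :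
    ((sU p χ θ u : 𝓞 L) : L) =
      ∏ δ : L ≃ₐ[k] L, (δ ((u : 𝓞 L) : L)) ^ (θ ((χ δ)⁻¹ : Fˣ)).val := by
  let ψ : (𝓞 L)ˣ →* L := (algebraMap (𝓞 L) L : 𝓞 L →* L).comp (Units.coeHom (𝓞 L))
  have hψ : ∀ x : (𝓞 L)ˣ, ((x : 𝓞 L) : L) = ψ x := fun _ => rfl
  have hψs : ∀ (σ : L ≃ₐ[k] L) (x : (𝓞 L)ˣ), ψ (σ • x) = σ (ψ x) := fun _ _ => rfl
  rw [hψ, hψ]
  unfold sU
  rw [map_prod]
  refine prod_congr rfl fun δ _ => ?_
  rw [map_pow, hψs]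

/-- Exponents which agree modulo `p`. -/
theorem pow_mod {L : Type} [Field L] (p : ℕ) [NeZero p] (x : L) (hx : x ≠ 0) (e1 e2 n : ℕ)
    (h : (e1 : ZMod p) - (e2 : ZMod p) = (n : ZMod p)) :
    ∃ w : L, w ≠ 0 ∧ x ^ e1 / x ^ e2 = x ^ n * w ^ p := by
  have h1 : (((e1 : ℤ) - (e2 : ℤ) - (n : ℤ) : ℤ) : ZMod p) = 0 := by
    push_cast
    rw [h, sub_self]
  obtain ⟨m, hm⟩ := (ZMod.intCast_zmod_eq_zero_iff_dvd _ p).1 h1
  refine ⟨x ^ m, zpow_ne_zero m hx, ?_⟩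
  rw [← zpow_natCast x e1, ← zpow_natCast x e2, ← zpow_natCast x n, ← zpow_sub₀ hx,
    ← zpow_natCast (x ^ m) p, ← zpow_mul, ← zpow_add₀ hx]
  congr 1
  rw [mul_comm m (p : ℤ), ← hm]
  ring

end NPW1x

open NPW1x in
theorem t_NPW1 : S_NPW1 := by
  intro p _ F _ _ k L M _ _ _ _ _ _ _ χ g hg c u hc hu θ hθ
  have hp : p.Prime := Fact.out
  have hpz : NeZero p := ⟨hp.ne_zero⟩
  set a : F := ((χ g : Fˣ) : F) ^ p - 1 with ha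
  have ha0 : a ≠ 0 := by
    have h1 : a = (((χ g : Fˣ) : F) - 1) ^ p := by
      rw [sub_pow_char, one_pow]
    rw [h1]
    refine pow_ne_zero p fun h2 => hg ?_
    exact Units.ext (sub_eq_zero.1 h2)
  let θ' : F →+ ZMod p := θ.comp (AddMonoidHom.mulLeft a⁻¹)
  have hθ' : ∀ x, θ' x = θ (a⁻¹ * x) := fun x => rfl
  refine ⟨θ', fun y hy => ?_⟩
  let e : (L ≃ₐ[k] L) → ℕ := fun δ => (θ' ((χ δ)⁻¹ : Fˣ)).val
  have hδ : ∀ δ : L ≃ₐ[k] L, δ c ≠ 0 := fun δ h => hc ((map_eq_zero δ).1 h)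
  -- the value of `sU`
  have h1 : ((sU p χ θ' u : 𝓞 L) : L) =
      ∏ δ : L ≃ₐ[k] L, (δ c) ^ e (δ * (g ^ p)⁻¹) / (δ c) ^ e δ := by
    rw [sU_val, prod_div_distrib]
    have h2 : ∏ δ : L ≃ₐ[k] L, (δ c) ^ e (δ * (g ^ p)⁻¹) =
        ∏ δ : L ≃ₐ[k] L, ((δ * g ^ p) c) ^ e δ := by
      refine (Fintype.prod_equiv (Equiv.mulRight (g ^ p)) _ _ fun δ => ?_).symm
      simp only [Equiv.coe_mulRight, mul_inv_cancel_right]
    rw [h2, ← prod_div_distrib]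
    refine prod_congr rfl fun δ _ => ?_
    rw [hu, map_div₀, div_pow]
    rfl
  -- comparison of the exponents
  have h3 : ∀ δ : L ≃ₐ[k] L, ((e (δ * (g ^ p)⁻¹) : ℕ) : ZMod p) - ((e δ : ℕ) : ZMod p) =
      (((θ ((χ δ)⁻¹ : Fˣ)).val : ℕ) : ZMod p) := by
    intro δ
    simp only [e]
    rw [ZMod.natCast_zmod_val, ZMod.natCast_zmod_val, ZMod.natCast_zmod_val, ← map_sub, hθ']
    congr 1
    have h4 : (((χ (δ * (g ^ p)⁻¹))⁻¹ : Fˣ) : F) =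
        ((χ g : Fˣ) : F) ^ p * (((χ δ)⁻¹ : Fˣ) : F) := by
      rw [map_mul, map_inv, map_pow, mul_inv_rev, inv_inv, Units.val_mul, Units.val_pow_eq_pow_val]
    rw [h4]
    have h5 : ((χ g : Fˣ) : F) ^ p * (((χ δ)⁻¹ : Fˣ) : F) - (((χ δ)⁻¹ : Fˣ) : F) =
        a * (((χ δ)⁻¹ : Fˣ) : F) := by
      rw [ha]
      ring
    rw [h5, ← mul_assoc, inv_mul_cancel₀ ha0, one_mul]
  choose w hw0 hw using fun δ : L ≃ₐ[k] L =>
    pow_mod p (δ c) (hδ δ) (e (δ * (g ^ p)⁻¹)) (e δ) _ (h3 δ)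
  have h6 : ((sU p χ θ' u : 𝓞 L) : L) = sE p χ θ c * (∏ δ, w δ) ^ p := by
    rw [h1, prod_congr rfl fun δ _ => hw δ, prod_mul_distrib, prod_pow]
    rfl
  have h7 : (∏ δ, w δ) ≠ 0 := prod_ne_zero_iff.2 fun δ _ => hw0 δ
  have h8 : algebraMap L M (∏ δ, w δ) ≠ 0 := fun h => h7 ((map_eq_zero (algebraMap L M)).1 h)
  apply hθ (y / algebraMap L M (∏ δ, w δ))
  rw [div_pow, hy, h6, map_mul, map_pow, mul_div_assoc, div_self (pow_ne_zero p h8), mul_one]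

end Pool.Agent.TWK
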