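import Pool.Agent.TWK.StK1

/-!
# TWK: module NRM1

The eigenfunctional vanishes on the norms from `M`.
-/

set_option autoImplicit false

open NumberField IsDedekindDomain Finset
open scoped nonZeroDivisors Pointwise

namespace Pool.Agent.TWK

open Pool.Agent.MU3 Pool.Agent.RI Pool.Agent.MUXK

namespace NRM1x

/-- The prime below a prime of degree one. -/
lemma card_under {L M : Type} [Field L] [NumberField L] [Field M] [NumberField M] [Algebra L M]
    (w : HeightOneSpectrum (𝓞 M)) (q : ℕ) (hq : q.Prime) (hc : Nat.card (𝓞 M ⧸ w.asIdeal) = q) :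
    Nat.card (𝓞 L ⧸ (w.asIdeal.under (𝓞 L))) = q := by
  set v : HeightOneSpectrum (𝓞 L) :=
    ⟨w.asIdeal.under (𝓞 L), inferInstance, Ideal.under_ne_bot (𝓞 L) w.ne_bot⟩ with hv
  have hprime : v.asIdeal.IsPrime := v.isPrime
  have hlo : w.asIdeal.LiesOver v.asIdeal := ⟨rfl⟩
  have hwprime : w.asIdeal.IsPrime := w.isPrime
  have h9 := Ideal.absNorm_pow_inertiaDeg v.asIdeal w.asIdeal
  have hw : Ideal.absNorm w.asIdeal = q := by
    rw [Ideal.absNorm_apply, Submodule.cardQuot_apply]
    exact hc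
  have h11 : Ideal.absNorm v.asIdeal ∣ q := by
    rw [← hw, ← h9]
    exact dvd_pow_self _ (Ideal.inertiaDeg_pos _ _).ne'
  have h10 : Ideal.absNorm v.asIdeal = q := by
    rcases (Nat.dvd_prime hq).1 h11 with h12 | h12
    · exfalso
      rw [h12, one_pow, hw] at h9
      exact hq.one_lt.ne h9
    · exact h12
  rw [Ideal.absNorm_apply, Submodule.cardQuot_apply] at h10
  exact h10

end NRM1x

open NRM1x in
theorem t_NRM1 (h1 : S_REL1) (h2 : S_STABX) (h3 : S_THDX) : S_NRM1 := by
  classical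
  intro p _ F _ _ k L M _ _ _ _ _ _ _ _ _ _ _ _ S ζ hζ h2S hpS hpr hram g hg χ θ u hχ hK hu
    f hf N hN x
  have hp : p.Prime := Fact.out
  have hf1 : f 1 = 0 := by
    have := hf.add 1 1
    rw [mul_one] at this
    simpa using this
  have hfi : ∀ y, f y⁻¹ = - f y := by
    intro y
    have := hf.add y y⁻¹
    rw [mul_inv_cancel, hf1] at this
    linear_combination -this
  let U : Subgroup (J M) :=
    { carrier := {y | f (N y) = 0}
      one_mem' := by
        change f (N 1) = 0
        rw [map_one, hf1]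
      mul_mem' := by
        intro a b ha hb
        change f (N (a * b)) = 0
        have ha' : f (N a) = 0 := ha
        have hb' : f (N b) = 0 := hb
        rw [map_mul, hf.add, ha', hb', add_zero]
      inv_mem' := by
        intro a ha
        change f (N a⁻¹) = 0
        have ha' : f (N a) = 0 := ha
        rw [map_inv, hfi, ha', neg_zero] }
  have hU : ∀ y : J M, y ∈ U ↔ f (N y) = 0 := fun y => Iff.rfl
  have hUprin : (prin : Mˣ →* J M).range ≤ U := by
    rintro _ ⟨a, rfl⟩
    rw [hU, hN.pri]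
    exact hf.pri _ ⟨_, rfl⟩
  have hUσ : ∀ (σ : M ≃ₐ[k] M), ∀ y ∈ U, σ • y ∈ U := by
    intro σ y hy
    rw [hU] at hy ⊢
    rw [hN.eq σ (σ.restrictNormal L) (fun z => σ.restrictNormal_commutes L z), hf.eig, hy,
      mul_zero]
  obtain ⟨σ, hσ⟩ := AlgEquiv.restrictNormalHom_surjective (F := k) (K₁ := L) M g
  have hσ' : ∀ z : L, algebraMap L M (g z) = σ (algebraMap L M z) := by
    intro z
    rw [← hσ]
    exact σ.restrictNormal_commutes L z
  have hζp : IsPrimitiveRoot (ζ ^ 2) p := hζ.pow (by have := hp.pos; omega) rfl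
  let t : (𝓞 L)ˣ := sU p χ θ u
  let t' : (𝓞 M)ˣ := Units.map (algebraMap (𝓞 L) (𝓞 M)).toMonoidHom t
  have ht'1 : ((t' : 𝓞 M) : M) = algebraMap L M ((t : 𝓞 L) : L) := rfl
  have hUM := h3 p k M (ζ ^ 2) t' hζp (by
      intro y hy
      exact hu y (hy.trans ht'1)) S hpr U hUprin hUσ (by
      intro w q hq hqS hcard hnt
      rw [hU]
      set v : HeightOneSpectrum (𝓞 L) :=
        ⟨w.asIdeal.under (𝓞 L), inferInstance, Ideal.under_ne_bot (𝓞 L) w.ne_bot⟩ with hv
      have hcv : Nat.card (𝓞 L ⧸ v.asIdeal) = q := card_under w q hq hcard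
      have hab : HasAb L M v q := ⟨w, rfl, hcard⟩
      have hgood : GoodPrP p k L S v q :=
        h2 p k L M S ζ hζ h2S hpS hpr hram v q hq hqS hcv hab
      rw [hN.pr w v rfl (hcard.trans hcv.symm)]
      refine h1 p F k L S χ θ f hf g hχ hg u v q hgood (hK v q hgood hab) ?_
      intro a ha
      apply hnt (algebraMap (𝓞 L) (𝓞 M) a)
      have ha' : algebraMap (𝓞 L) (𝓞 M) ((t : 𝓞 L) - a ^ p) ∈ w.asIdeal := ha
      rw [map_sub, map_pow] at ha'
      exact ha') σ x
  rw [hU, map_mul, map_inv, hN.eq σ g hσ', hf.add, hfi, hf.eig] at hUM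
  have h5 : ((χ g : F) - 1) * f (N x) = 0 := by linear_combination hUM
  rcases mul_eq_zero.1 h5 with h6 | h6
  · exact absurd (Units.ext (by rw [Units.val_one]; exact sub_eq_zero.1 h6)) hχ
  · exact h6

end Pool.Agent.TWK
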