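import Pool.Agent.TWK.StK2

/-!
# TWK, module NRM2 (helper19): the norm as a product over the automorphisms over `k` trivial on `L`
-/

set_option autoImplicit false

open NumberField IsDedekindDomain Finset
open scoped nonZeroDivisors Pointwise

namespace Pool.Agent.TWK

open Pool.Agent.MU3 Pool.Agent.RI Pool.Agent.RID Pool.Agent.MUXK

theorem t_NRM2 : S_NRM2 := by
  intro k L M _ hkL h' hh
  let : Algebra k M := algC h'
  let : Algebra L M := algC hh
  intro galLM c
  have towerQ : IsScalarTower ℚ L M := IsScalarTower.of_algebraMap_eq (fun x => rfl)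
  have fdLM : FiniteDimensional L M := FiniteDimensional.right ℚ L M
  have e1 : (((algebraMap L M (Algebra.norm L c)) : M) : ℂ) = ((Algebra.norm L c : L) : ℂ) := rfl
  have e2 : ((∏ σ : M ≃ₐ[L] M, σ c : M) : ℂ) = ∏ σ : M ≃ₐ[L] M, ((σ c : M) : ℂ) :=
    map_prod (algebraMap M ℂ) _ _
  rw [← e1, Algebra.norm_eq_prod_automorphisms, e2, ← finprod_eq_prod_of_fintype]
  refine finprod_eq_of_bijective
    (fun σ => ⟨AlgEquiv.ofRingEquiv (f := (σ : M ≃+* M)) (fun y => ?_),
      fun x hx => σ.commutes ⟨(x : ℂ), hx⟩⟩) ⟨?_, ?_⟩ fun σ => rfl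
  · exact σ.commutes ⟨(y : ℂ), hkL y.2⟩
  · intro σ τ h
    have h5 := congrArg (fun θ : NC h' L => (θ : M ≃ₐ[k] M)) h
    ext x
    have h6 := congrArg (fun θ : M ≃ₐ[k] M => ((θ x : M) : ℂ)) h5
    exact h6
  · intro θ
    refine ⟨AlgEquiv.ofRingEquiv (f := ((θ : M ≃ₐ[k] M) : M ≃+* M)) (fun y => θ.2 _ y.2), ?_⟩
    apply Subtype.ext
    ext x
    rfl

end Pool.Agent.TWK
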