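import Pool.Agent.TWK.StK2
import Pool.Agent.MUX.K_M0X

/-!
# TWK, block K, module PRM2 (helper88): a bounded power fixes all primes above `S`
-/

set_option autoImplicit false

open NumberField IsDedekindDomain Finset
open scoped nonZeroDivisors Pointwise

namespace Pool.Agent.TWK

open Pool.Agent.MU3 Pool.Agent.RI Pool.Agent.RID Pool.Agent.MUXK

theorem t_PRM2 (h1 : S_PRB) : S_PRM2 := by
  intro l _ k K B _ _ hB S hS
  classical
  have h3 : ∀ q : ℕ, ∃ C : ℕ, q ∈ S → ∀ n,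
      Nat.card {v : HeightOneSpectrum (𝓞 ↥(K ⊔ B n)) // (q : 𝓞 ↥(K ⊔ B n)) ∈ v.asIdeal} ≤ C := by
    intro q
    by_cases hq : q ∈ S
    · obtain ⟨C, hC⟩ := h1 l K B hB.lay q (hS q hq)
      exact ⟨C, fun _ => hC⟩
    · exact ⟨0, fun h => absurd h hq⟩
  choose C hC using h3
  refine ⟨S.sup C, ?_⟩
  intro n h
  let _ := Pool.Agent.RI.algC h
  intro γ e hγ v hv
  obtain ⟨q, hq, hqv⟩ := hv
  exact K_M0X.aux l γ e (S.sup C) q (hS q hq).ne_zero hγ
    (le_trans (hC q hq n) (Finset.le_sup hq)) v hqv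

end Pool.Agent.TWK
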