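import Pool.Agent.TWK.StK1

/-!
# TWK_PWL1: p-th powers in an abelian extension of a field without p-th roots of unity (helper30)
-/

set_option autoImplicit false

open NumberField IsDedekindDomain Finset
open scoped nonZeroDivisors Pointwise

namespace Pool.Agent.TWK

open Pool.Agent.MU3 Pool.Agent.RI Pool.Agent.MUXK

theorem t_PWL1 : S_PWL1 := by
  intro p hp L M _ _ _ _ _ _ ω hcomm hω hno s y hy
  have hpp : p.Prime := hp.out
  have hp0 : p ≠ 0 := hpp.ne_zero
  have : NeZero p := ⟨hp0⟩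
  by_cases hs : s = 0
  · exact ⟨0, by rw [hs, zero_pow hp0]⟩
  have hy0 : y ≠ 0 := by
    intro h
    rw [h, zero_pow hp0] at hy
    exact hs ((FaithfulSMul.algebraMap_injective L M) (by rw [← hy, map_zero]))
  have hω0 : ω ≠ 0 := hω.ne_zero hp0
  have hpw : ∀ m n : ℕ, m ≡ n [MOD p] → ω ^ m = ω ^ n := by
    intro m n h
    have h' : m % p = n % p := h
    rw [← pow_mod_orderOf ω m, ← pow_mod_orderOf ω n, ← hω.eq_orderOf, h']
  -- an automorphism which moves `ω`
  obtain ⟨σ, hσ⟩ : ∃ σ : M ≃ₐ[L] M, σ ω ≠ ω := by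
    by_contra hall
    push Not at hall
    obtain ⟨z, hz⟩ := (IsGalois.mem_range_algebraMap_iff_fixed ω).2 hall
    refine hno ⟨z, ?_⟩
    rw [← hz] at hω
    exact (IsPrimitiveRoot.map_iff_of_injective (FaithfulSMul.algebraMap_injective L M)).1 hω
  -- exponents
  obtain ⟨a, _, ha⟩ := hω.eq_pow_of_pow_eq_one (ξ := σ ω) (by rw [← map_pow, hω.pow_eq_one, map_one])
  have hyσ : ∀ τ : M ≃ₐ[L] M, ∀ w : M, w ^ p = algebraMap L M s → (τ w) ^ p = algebraMap L M s := by
    intro τ w hw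
    rw [← map_pow, hw, AlgEquiv.commutes]
  obtain ⟨c, _, hc⟩ := hω.eq_pow_of_pow_eq_one (ξ := σ y / y) (by
    rw [div_pow, hyσ σ y hy, hy, div_self]
    rw [← hy]; exact pow_ne_zero _ hy0)
  have hc' : σ y = ω ^ c * y := by rw [hc, div_mul_cancel₀ _ hy0]
  have ha1 : (a : ZMod p) - 1 ≠ 0 := by
    intro h
    apply hσ
    have h1 : ((a : ℕ) : ZMod p) = ((1 : ℕ) : ZMod p) := by
      rw [Nat.cast_one]; exact sub_eq_zero.1 h
    have h2 := (ZMod.natCast_eq_natCast_iff a 1 p).1 h1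
    rw [← ha]
    have h3 : ω ^ a = ω ^ 1 := hpw _ _ h2
    rw [h3, pow_one]
  set B : ℕ := ((c : ZMod p) / ((a : ZMod p) - 1)).val with hB
  have hBm : ω ^ (a * B) = ω ^ (c + B) := by
    have h1 : ((a * B : ℕ) : ZMod p) = ((c + B : ℕ) : ZMod p) := by
      push_cast
      rw [hB, ZMod.natCast_val, ZMod.cast_id]
      field_simp
      ring
    have h2 := (ZMod.natCast_eq_natCast_iff _ _ p).1 h1
    exact hpw _ _ h2
  set y' : M := y / ω ^ B with hy'
  have hy'0 : y' ≠ 0 := div_ne_zero hy0 (pow_ne_zero _ hω0)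
  have hy'p : y' ^ p = algebraMap L M s := by
    rw [hy', div_pow, hy, ← pow_mul, mul_comm, pow_mul, hω.pow_eq_one, one_pow, div_one]
  have hσy' : σ y' = y' := by
    rw [hy', map_div₀, map_pow, hc', ← ha, ← pow_mul, hBm, pow_add]
    field_simp
  have hfix : ∀ τ : M ≃ₐ[L] M, τ y' = y' := by
    intro τ
    have h1 : (τ y' / y') ^ p = 1 := by
      rw [div_pow, hyσ τ y' hy'p, hy'p, div_self]
      rw [← hy'p]; exact pow_ne_zero _ hy'0
    have h2 : σ (τ y' / y') = τ y' / y' := by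
      rw [map_div₀, hσy']
      have := DFunLike.congr_fun (hcomm σ τ) y'
      simp only [AlgEquiv.mul_apply] at this
      rw [this, hσy']
    have h3 : τ y' / y' = 1 := by
      by_contra hne
      have hprim : IsPrimitiveRoot (τ y' / y') p := by
        rw [IsPrimitiveRoot.iff_orderOf]
        exact orderOf_eq_prime h1 hne
      obtain ⟨j, _, hj⟩ := hprim.eq_pow_of_pow_eq_one hω.pow_eq_one
      apply hσ
      rw [← hj, map_pow, h2]
    exact (div_eq_one_iff_eq hy'0).1 h3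
  obtain ⟨x, hx⟩ := (IsGalois.mem_range_algebraMap_iff_fixed y').2 hfix
  refine ⟨x, (FaithfulSMul.algebraMap_injective L M) ?_⟩
  rw [map_pow, hx, hy'p]

end Pool.Agent.TWK
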