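import Pool.Agent.TWK.StK2
import Pool.Agent.MU3.P_RAMK
import Pool.Agent.MU3.N_RAMP

/-!
# Module RAMC of the project TWK: `K B_n / k` is unramified outside a finite set

The finite set does not depend on `n`; adapted from `Pool/Agent/MUX/K_RAMX.lean`.
-/

set_option autoImplicit false

open NumberField IsDedekindDomain
open scoped nonZeroDivisors Pointwise

namespace Pool.Agent.TWK

open Pool.Agent.MU3 Pool.Agent.RI Pool.Agent.RID Pool.Agent.MUXK Pool.Agent.MU3.P_RAMK

/-- RAMC. -/
theorem t_RAMC : S_RAMC := by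
  classical
  intro p l hp hl k K B _ _ _ hB
  have h1 : _root_.MU3.N_RAMP := _root_.MU3.n_RAMP
  let a1 : Algebra k K := algC hB.hk
  have hfin := fin_ram k K
  choose f hf using exists_prime K
  refine ⟨insert 2 (insert p (insert l (hfin.toFinset.image f))), by simp, by simp, ?_, ?_⟩
  · intro q hq
    rcases Finset.mem_insert.1 hq with rfl | hq
    · exact Nat.prime_two
    · rcases Finset.mem_insert.1 hq with rfl | hq
      · exact hp.out
      · rcases Finset.mem_insert.1 hq with rfl | hq
        · exact hl.out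
        · obtain ⟨v, -, rfl⟩ := Finset.mem_image.1 hq
          exact (hf v).1
  · intro S hS n h v hv
    let a2 : Algebra K ↥(K ⊔ B n) := algC (le_sup_left : K ≤ K ⊔ B n)
    let a3 : Algebra k ↥(K ⊔ B n) := algC h
    have tow : IsScalarTower k K ↥(K ⊔ B n) := towerC hB.hk le_sup_left
    have hprime : v.asIdeal.IsPrime := v.isPrime
    have hvne : v.asIdeal.under (𝓞 K) ≠ ⊥ := by
      intro h0
      exact v.ne_bot (Ideal.eq_bot_of_comap_eq_bot h0)
    let w : HeightOneSpectrum (𝓞 K) := ⟨v.asIdeal.under (𝓞 K), inferInstance, hvne⟩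
    have hdown : ∀ q : ℕ, (q : 𝓞 K) ∈ w.asIdeal → (q : 𝓞 ↥(K ⊔ B n)) ∈ v.asIdeal := by
      intro q hq
      have h2 : algebraMap (𝓞 K) (𝓞 ↥(K ⊔ B n)) (q : 𝓞 K) ∈ v.asIdeal := hq
      rwa [map_natCast] at h2
    have e1 : v.asIdeal.ramificationIdx (𝓞 K) = 1 := by
      by_contra hne
      have h3 := h1 l n K (B n) (hB.lay n) v hne
      exact hv ⟨l, hS (by simp), hdown l h3⟩
    have e2 : w.asIdeal.ramificationIdx (𝓞 k) = 1 := by
      by_contra hne
      refine hv ⟨f w, hS ?_, hdown _ (hf w).2⟩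
      exact Finset.mem_insert_of_mem (Finset.mem_insert_of_mem (Finset.mem_insert_of_mem
        (Finset.mem_image_of_mem f (hfin.mem_toFinset.2 hne))))
    have e3 := tower k K ↥(K ⊔ B n) v w rfl
    rw [e1, e2] at e3
    exact e3

end Pool.Agent.TWK
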