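import Pool.Agent.TWK.StK1

/-!
# TWK, module REL1: the relation at one good prime for one eigenfunctional (helper45)
-/

set_option autoImplicit false

open NumberField IsDedekindDomain Finset
open scoped nonZeroDivisors Pointwise

namespace Pool.Agent.TWK

open Pool.Agent.MU3 Pool.Agent.RI Pool.Agent.MUXK

namespace REL1x

/-- An automorphism fixing the prime ideal fixes the fractional ideal. -/
lemma fix_vJ {k L : Type} [Field k] [Field L] [NumberField L] [Algebra k L] (g : L ≃ₐ[k] L)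
    (v : HeightOneSpectrum (𝓞 L)) (h : g • v.asIdeal = v.asIdeal) : g • vJ v = vJ v := by
  apply Units.ext
  ext x
  rw [RI.mem_smul]
  show g.symm x ∈ (v.asIdeal : FractionalIdeal (𝓞 L)⁰ L) ↔
    x ∈ (v.asIdeal : FractionalIdeal (𝓞 L)⁰ L)
  rw [FractionalIdeal.mem_coeIdeal, FractionalIdeal.mem_coeIdeal]
  constructor
  · rintro ⟨y, hy, hx⟩
    refine ⟨g • y, ?_, ?_⟩
    · rw [← h]; exact Ideal.smul_mem_pointwise_smul_iff.mpr hy
    · show g (algebraMap (𝓞 L) L y) = x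
      rw [hx]; exact g.apply_symm_apply x
  · rintro ⟨y, hy, hx⟩
    refine ⟨g⁻¹ • y, ?_, ?_⟩
    · have : g • (g⁻¹ • y) ∈ g • v.asIdeal := by rw [smul_inv_smul, h]; exact hy
      exact Ideal.smul_mem_pointwise_smul_iff.mp this
    · show g.symm (algebraMap (𝓞 L) L y) = g.symm x
      rw [hx]

lemma fix_SJ {k L : Type} [Field k] [Field L] [NumberField L] [Algebra k L] (S : Finset ℕ)
    (g : L ≃ₐ[k] L)
    (h : ∀ v : HeightOneSpectrum (𝓞 L), Above S v → g • v.asIdeal = v.asIdeal) (s : J L)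
    (hs : s ∈ SJ S L) : g • s = s := by
  unfold SJ at hs
  induction hs using Subgroup.closure_induction with
  | mem x hx => obtain ⟨v, hv, rfl⟩ := hx; exact fix_vJ g v (h v hv)
  | one => exact smul_one g
  | mul x y _ _ hx hy => rw [smul_mul', hx, hy]
  | inv x _ hx => rw [smul_inv', hx]

/-- The congruence for `h⁻¹ c` modulo `lam` gives the one for `c` modulo `h lam`. -/
lemma tr {k L : Type} [Field k] [Field L] [NumberField L] [Algebra k L] (h : L ≃ₐ[k] L)
    (c : (𝓞 L)ˣ) (e b : ℕ) (a : ℤ) (I : Ideal (𝓞 L))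
    (hh : ((h⁻¹ • c : (𝓞 L)ˣ) : 𝓞 L) ^ e - (a : 𝓞 L) ^ b ∈ I) :
    (c : 𝓞 L) ^ e - (a : 𝓞 L) ^ b ∈ h • I := by
  have h1 : h • (((h⁻¹ • c : (𝓞 L)ˣ) : 𝓞 L) ^ e - (a : 𝓞 L) ^ b) ∈ h • I :=
    Ideal.smul_mem_pointwise_smul_iff.mpr hh
  have h2 : ((h⁻¹ • c : (𝓞 L)ˣ) : 𝓞 L) = h⁻¹ • (c : 𝓞 L) := rfl
  have h3 : h • (a : 𝓞 L) = (a : 𝓞 L) :=
    map_intCast (MulSemiringAction.toRingHom (L ≃ₐ[k] L) (𝓞 L) h) a
  rw [smul_sub, smul_pow', smul_pow', h2, smul_inv_smul, h3] at h1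
  exact h1

lemma f_prod {I F ι : Type} [CommGroup I] [Field F] (f : I → F)
    (hf : ∀ x y, f (x * y) = f x + f y) (s : Finset ι) (x : ι → I) :
    f (∏ i ∈ s, x i) = ∑ i ∈ s, f (x i) := by
  have h1 : f 1 = 0 := by
    have := hf 1 1
    rw [mul_one] at this
    linear_combination -this
  classical
  induction s using Finset.induction_on with
  | empty => rw [prod_empty, sum_empty, h1]
  | insert a s ha ih => rw [prod_insert ha, sum_insert ha, hf, ih]

lemma f_pow {I F : Type} [CommGroup I] [Field F] (f : I → F)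
    (hf : ∀ x y, f (x * y) = f x + f y) (x : I) (n : ℕ) : f (x ^ n) = n * f x := by
  induction n with
  | zero =>
    rw [pow_zero, Nat.cast_zero, zero_mul]
    have := hf 1 1
    rw [mul_one] at this
    linear_combination -this
  | succ n ih => rw [pow_succ, hf, ih]; push_cast; ring

/-- The value of `lg` on the unit `sU`. -/
lemma lg_sU {p : ℕ} [Fact p.Prime] {k L F : Type} [Field k] [NumberField k] [Field L]
    [NumberField L] [Algebra k L] [Field F] [CharP F p] (χ : (L ≃ₐ[k] L) →* Fˣ)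
    (θ : F →+ ZMod p) (c : (𝓞 L)ˣ) (lg : (𝓞 L)ˣ →* Multiplicative (ZMod p)) :
    Multiplicative.toAdd (lg (sU p χ θ c)) =
      θ (∑ δ : L ≃ₐ[k] L, ((χ δ)⁻¹ : Fˣ) *
        ((Multiplicative.toAdd (lg (δ • c))).val : F)) := by
  unfold sU
  rw [map_prod, toAdd_prod, map_sum]
  refine sum_congr rfl fun δ _ => ?_
  rw [map_pow, toAdd_pow]
  set z : ZMod p := Multiplicative.toAdd (lg (δ • c)) with hz
  rw [mul_comm, ← nsmul_eq_mul, map_nsmul, nsmul_eq_mul, nsmul_eq_mul,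
    ZMod.natCast_zmod_val, ZMod.natCast_zmod_val, mul_comm]

end REL1x

open REL1x in
theorem t_REL1 (h1 : S_LGX) : S_REL1 := by
  intro p _ F _ _ k L _ _ _ _ _ _ S χ θ f hE g hg hfix u lam q hgood hK hnc
  obtain ⟨a, lg, ha1, ha2, hlg, hcube⟩ := h1 p L lam q hgood.prime
    (dvd_trans (dvd_mul_left p 2) hgood.dvd) hgood.card
  have h3 : (p : F) = 0 := CharP.cast_eq_zero F p
  -- the functional is zero on `SJ S L`
  have hS : ∀ s : J L, s ∈ SJ S L → f s = 0 := by
    intro s hs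
    have e1 := hE.eig g s
    rw [fix_SJ S g hfix s hs] at e1
    have e2 : (1 - (χ g : F)) * f s = 0 := by linear_combination e1
    rcases mul_eq_zero.mp e2 with e3 | e3
    · exact absurd (Units.ext (by rw [Units.val_one]; exact (sub_eq_zero.mp e3).symm)) hg
    · exact e3
  -- the exponents
  let b : (L ≃ₐ[k] L) → ℕ := fun h => (Multiplicative.toAdd (lg (h⁻¹ • u))).val
  obtain ⟨κ, I, s, hs, hrel⟩ := hK a ha1 ha2 b
    (fun h => tr h u _ _ a _ (hlg (h⁻¹ • u)))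
  have hsum : (∑ h : L ≃ₐ[k] L, (b h : F) * (χ h : F)) * f (vJ lam) = 0 := by
    have e1 : f (∏ h : L ≃ₐ[k] L, (h • vJ lam) ^ b h) =
        (∑ h : L ≃ₐ[k] L, (b h : F) * (χ h : F)) * f (vJ lam) := by
      rw [f_prod f hE.add, sum_mul]
      refine sum_congr rfl fun h _ => ?_
      rw [f_pow f hE.add, hE.eig, mul_assoc]
    rw [← e1, hrel, hE.add, hE.add, f_pow f hE.add, hE.pri _ ⟨_, rfl⟩, hS s hs, h3]
    ring
  rcases mul_eq_zero.mp hsum with h0 | h0
  · exfalso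
    have e3 := lg_sU χ θ u lg
    have e4 : (∑ δ : L ≃ₐ[k] L, ((χ δ)⁻¹ : Fˣ) *
        ((Multiplicative.toAdd (lg (δ • u))).val : F)) = 0 := by
      rw [← h0, ← Equiv.sum_comp (Equiv.inv (L ≃ₐ[k] L))]
      refine sum_congr rfl fun δ _ => ?_
      simp only [Equiv.inv_apply, map_inv, inv_inv, b]
      rw [mul_comm]
    rw [e4, map_zero] at e3
    obtain ⟨v, hv⟩ := hcube _ (by
      rw [← ofAdd_toAdd (lg (sU p χ θ u)), e3, ofAdd_zero])
    exact hnc v hv
  · exact h0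

end Pool.Agent.TWK
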