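import Pool.Agent.TWK.StK2

set_option autoImplicit false

open NumberField IsDedekindDomain Finset
open scoped nonZeroDivisors Pointwise

namespace Pool.Agent.TWK

open Pool.Agent.MU3 Pool.Agent.RI Pool.Agent.RID Pool.Agent.MUXK

/-- Subextensions of an abelian extension of subfields of `ℂ`. -/
theorem t_SUBC : S_SUBC := by
  intro l k K K' B _ h hk hK
  have hgal : IsGalois k (IntermediateField.extendScalars h.hk) := h.gal
  haveI : IsAbelianGalois k (IntermediateField.extendScalars h.hk) :=
    { toIsGalois := hgal
      is_comm := ⟨fun σ τ => h.ab σ τ⟩ }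
  have hle : IntermediateField.extendScalars hk ≤ IntermediateField.extendScalars h.hk :=
    fun x hx => hK hx
  haveI h1 : IsAbelianGalois k (IntermediateField.extendScalars hk) :=
    IsAbelianGalois.of_algHom (IntermediateField.inclusion hle)
  exact ⟨hk, h1.toIsGalois, fun σ τ => h1.is_comm.comm σ τ, h.lay, h.mono⟩

end Pool.Agent.TWK
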