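import Pool.Agent.TWK.StK1

/-!
# TWK, module TRV1: enough eigenfunctionals
-/

set_option autoImplicit false

open NumberField IsDedekindDomain Finset
open scoped nonZeroDivisors Pointwise

namespace Pool.Agent.TWK

open Pool.Agent.MU3 Pool.Agent.RI Pool.Agent.MUXK

/-- Module TRV1. -/
theorem t_TRV1 (h1 : S_EIGX) : S_TRV1 := by
  intro p _ F _ _ _ k L _ _ _ _ _ _ hcomm hdiv g hyp x
  have hp : p.Prime := Fact.out
  -- the subgroup of the `p`-th powers times the principal ideals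
  let P : Subgroup (J L) := (powMonoidHom p : J L →* J L).range ⊔ (prin : Lˣ →* J L).range
  have hmem : ∀ v : J L, v ∈ P ↔ ∃ (y : J L) (z : Lˣ), v = y ^ p * prin z := by
    intro v
    constructor
    · intro hv
      obtain ⟨a, ⟨y, rfl⟩, b, ⟨z, rfl⟩, hab⟩ := Subgroup.mem_sup.1 hv
      exact ⟨y, z, by rw [← hab]; rfl⟩
    · rintro ⟨y, z, rfl⟩
      exact Subgroup.mul_mem_sup ⟨y, rfl⟩ ⟨z, rfl⟩
  have hstab : ∀ σ : L ≃ₐ[k] L, ∀ v ∈ P, σ • v ∈ P := by
    intro σ v hv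
    obtain ⟨y, z, rfl⟩ := (hmem v).1 hv
    rw [smul_mul', smul_pow', smul_prin]
    exact (hmem _).2 ⟨σ • y, _, rfl⟩
  have hpow : ∀ v : J L, v ^ p ∈ P := fun v =>
    (hmem _).2 ⟨v, 1, by rw [map_one, mul_one]⟩
  by_contra hcon
  have hv : (g • x) * x⁻¹ ∉ P := fun h => hcon ((hmem _).1 h)
  have hcard : (Nat.card (⊤ : Subgroup (L ≃ₐ[k] L))).Coprime p := by
    rw [Subgroup.card_top, IsGalois.card_aut_eq_finrank]
    exact ((Nat.Prime.coprime_iff_not_dvd hp).2 hdiv).symm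
  obtain ⟨χ, f, hadd, hP, heig, hne⟩ := h1 p F (L ≃ₐ[k] L) (J L) ⊤
    (fun a _ b _ => hcomm a b) hcard P hstab hpow _ hv
  let ψ : (L ≃ₐ[k] L) →* Fˣ := χ.comp (Subgroup.topEquiv.symm.toMonoidHom)
  have hEig : Eig ψ f := by
    refine ⟨hadd, ?_, ?_⟩
    · intro v hv'
      exact hP v (Subgroup.mem_sup_right hv')
    · intro δ v
      exact heig ⟨δ, Subgroup.mem_top δ⟩ v
  have hone : f 1 = 0 := hP 1 P.one_mem
  have hinv : f x⁻¹ = - f x := by
    have h2 := hadd x x⁻¹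
    rw [mul_inv_cancel, hone] at h2
    exact (neg_eq_of_add_eq_zero_right h2.symm).symm
  have hval : f ((g • x) * x⁻¹) = ((ψ g : F) - 1) * f x := by
    rw [hadd, hinv, hEig.eig]
    ring
  by_cases hg : ψ g = 1
  · apply hne
    rw [hval, hg]
    simp
  · apply hne
    rw [hval, hyp ψ f hEig hg x, mul_zero]

end Pool.Agent.TWK
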