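import Pool.Agent.MUX.KAllX
import Pool.Agent.TWK.REL1
import Pool.Agent.TWK.NRM1
import Pool.Agent.TWK.IDX1
import Pool.Agent.TWK.TRV1
import Pool.Agent.TWK.CLG1
import Pool.Agent.TWK.NPW1
import Pool.Agent.TWK.FIX1
import Pool.Agent.TWK.PWL1
import Pool.Agent.TWK.SUBC
import Pool.Agent.TWK.GALC
import Pool.Agent.TWK.RAMC
import Pool.Agent.TWK.CYC2
import Pool.Agent.TWK.PRM2
import Pool.Agent.TWK.LFT2
import Pool.Agent.TWK.DEG2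
import Pool.Agent.TWK.NRM2
import Pool.Agent.TWK.DSC2
import Pool.Agent.TWK.KNM3
import Pool.Agent.TWK.KOL3
import Pool.Agent.TWK.K3
import Pool.Agent.TWK.K4
import Pool.Agent.TWK.K5

/-!
# TWK: block K of Theorem C, assembled (helper96)

`k_K4 : S_K4` (`StK3.lean`) without hypotheses; `S_K5` (`StK5.lean`) from the statements of block W of MUX.
-/

namespace Pool.Agent.TWK

open Pool.Agent.MU3 Pool.Agent.MUXK Pool.Agent.MUXW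

theorem k_REL1 : S_REL1 := t_REL1 k_LGX
theorem k_NRM1 : S_NRM1 := t_NRM1 k_REL1 k_STABX k_THDX
theorem k_IDX1 : S_IDX1 := t_IDX1 k_NIX
theorem k_TRV1 : S_TRV1 := t_TRV1 k_EIGX
theorem k_KNM3 : S_KNM3 := t_KNM3 k_NRJ k_STABX
theorem k_KOL3 : S_KOL3 := t_KOL3 k_KINX k_KNM3
theorem k_K3 : S_K3 := t_K3 k_NRJ k_NRM1 k_IDX1 k_TRV1 t_CLG1 t_NPW1 k_KOL3 t_FIX1
theorem k_PRM2 : S_PRM2 := t_PRM2 kPRB
theorem k_LFT2 : S_LFT2 := t_LFT2 t_SUBC t_GALC t_CYC2 k_PRM2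
theorem k_K4 : S_K4 := t_K4 k_K3 t_PWL1 t_SUBC t_GALC t_RAMC k_LFT2 t_DEG2 t_NRM2 t_DSC2

theorem k_K5 (h1 : Sy_MEM) (h2 : Sy_TOW) (h3 : Sy_SUC) (h4 : Sy_KOL) : S_K5 :=
  t_K5 k_K4 h1 h2 h3 h4

end Pool.Agent.TWK
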