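import Pool.Agent.TWK.StK2
import Pool.Agent.RI.BCH
import Pool.Agent.RI.LAY

/-!
# TWK, module DEG2: degrees of the compositum fields
-/

set_option autoImplicit false

open NumberField IsDedekindDomain Finset
open scoped nonZeroDivisors Pointwise

namespace Pool.Agent.TWK

open Pool.Agent.MU3 Pool.Agent.RI Pool.Agent.RID Pool.Agent.MUXK

namespace DEG2x

/-- Degrees in towers of subfields of `ℂ`. -/
lemma mul3 {E F K : IntermediateField ℚ ℂ} (h : E ≤ F) (h' : F ≤ K) :
    (letI := algC h; Module.finrank E F) * (letI := algC h'; Module.finrank F K) =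
      (letI := algC (h.trans h'); Module.finrank E K) := by
  letI := algC h
  letI := algC h'
  letI := algC (h.trans h')
  haveI : IsScalarTower E F K := towerC h h'
  exact Module.finrank_mul_finrank E F K

/-- Degrees over `ℚ`. -/
lemma mulQ {F K : IntermediateField ℚ ℂ} (h : F ≤ K) :
    Module.finrank ℚ F * (letI := algC h; Module.finrank F K) = Module.finrank ℚ K := by
  letI := algC h
  haveI : IsScalarTower ℚ F K := IsScalarTower.of_algebraMap_eq (fun _ => rfl)
  exact Module.finrank_mul_finrank ℚ F K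

/-- The degree of `K B / K` divides `l ^ n`. -/
lemma base {l n : ℕ} [Fact l.Prime] (K B : IntermediateField ℚ ℂ) [FiniteDimensional ℚ K]
    (hB : IsLayer l n B) :
    (letI := algC (le_sup_left : K ≤ K ⊔ B); Module.finrank K ↥(K ⊔ B)) ∣ l ^ n := by
  obtain ⟨hfB, hGB, -⟩ := LAY_thm l n B hB
  have hdeg := hB.1
  have hbot : IsGalois ↥(⊥ : IntermediateField ℚ ℂ)
      (IntermediateField.extendScalars (bot_le : (⊥ : IntermediateField ℚ ℂ) ≤ B)) := by
    let e : B ≃ₐ[ℚ] (IntermediateField.extendScalars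
        (bot_le : (⊥ : IntermediateField ℚ ℂ) ≤ B)) :=
      { toFun := fun x => ⟨x.1, x.2⟩
        invFun := fun x => ⟨x.1, x.2⟩
        left_inv := fun _ => rfl
        right_inv := fun _ => rfl
        map_mul' := fun _ _ => rfl
        map_add' := fun _ _ => rfl
        commutes' := fun _ => rfl }
    have : IsGalois ℚ (IntermediateField.extendScalars
        (bot_le : (⊥ : IntermediateField ℚ ℂ) ≤ B)) := IsGalois.of_algEquiv e
    exact IsGalois.tower_top_of_isGalois ℚ _ _
  have hbd : Module.finrank ↥(⊥ : IntermediateField ℚ ℂ)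
      (IntermediateField.extendScalars (bot_le : (⊥ : IntermediateField ℚ ℂ) ≤ B)) = l ^ n := by
    rw [← hdeg]
    let e : B ≃ₗ[ℚ] (IntermediateField.extendScalars
        (bot_le : (⊥ : IntermediateField ℚ ℂ) ≤ B)) :=
      { toFun := fun x => ⟨x.1, x.2⟩
        invFun := fun x => ⟨x.1, x.2⟩
        left_inv := fun _ => rfl
        right_inv := fun _ => rfl
        map_add' := fun _ _ => rfl
        map_smul' := fun _ _ => rfl }
    rw [e.finrank_eq, ← Module.finrank_mul_finrank ℚ ↥(⊥ : IntermediateField ℚ ℂ)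
      (IntermediateField.extendScalars (bot_le : (⊥ : IntermediateField ℚ ℂ) ≤ B)),
      IntermediateField.finrank_bot, one_mul]
  have h1 := BCH_thm.1 ⊥ B K K (K ⊔ B) bot_le le_sup_left (bot_sup_eq K).symm (sup_comm K B) hbot
  rw [hbd] at h1
  rw [finrank_algC]
  exact h1.2

end DEG2x

theorem t_DEG2 : S_DEG2 := by
  intro p l hp hl hpl k K K' B _ _ _ _ _ hlay _ hk hKK' hcop
  have h2 : ∀ (n : ℕ) (h : k ≤ K ⊔ B n), ¬ p ∣ (letI := algC h; Module.finrank k ↥(K ⊔ B n)) := by
    intro n h hd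
    rw [← DEG2x.mul3 hk (le_sup_left : K ≤ K ⊔ B n)] at hd
    rcases (Nat.Prime.dvd_mul hp.out).1 hd with h1 | h1
    · apply hcop
      rwa [finrank_algC] at h1
    · have h3 := h1.trans (DEG2x.base K (B n) (hlay n))
      exact hpl ((Nat.prime_dvd_prime_iff_eq hp.out hl.out).1 (hp.out.dvd_of_dvd_pow h3))
  refine ⟨?_, h2, ?_⟩
  · intro n hh
    change (letI := algC hh; Module.finrank ↥(K ⊔ B n) ↥(K' ⊔ B n)) ≤ Module.finrank ℚ K'
    have h1 := DEG2x.mulQ hh
    have h3 : K' ⊔ B n = (K ⊔ B n) ⊔ K' := by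
      rw [sup_right_comm, sup_eq_right.2 hKK']
    have h4 : Module.finrank ℚ ↥(K' ⊔ B n) ≤ Module.finrank ℚ ↥(K ⊔ B n) * Module.finrank ℚ K' := by
      rw [h3]
      exact IntermediateField.finrank_sup_le (K ⊔ B n) K'
    rw [← h1] at h4
    exact Nat.le_of_mul_le_mul_left h4 Module.finrank_pos
  · intro n hF hd
    have hk' : k ≤ K ⊔ B n := hk.trans le_sup_left
    apply h2 (n + 1) (hk'.trans hF)
    rw [← DEG2x.mul3 hk' hF]
    exact dvd_mul_of_dvd_right hd _

end Pool.Agent.TWK
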