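import Pool.Agent.TWK.StK6
import Pool.Agent.TWT.DefsU

/-!
# TWK, module FIN2: from the unit theorem with bounded gaps to the class numbers
-/

set_option autoImplicit false

open NumberField IsDedekindDomain

namespace Pool.Agent.TWK

open _root_.MU3 Pool.Agent.MU3 Pool.Agent.MU3A Pool.Agent.MU3B Pool.Agent.RI Pool.Agent.RID
  Pool.Agent.MUX Pool.Agent.MUXK Pool.Agent.MUXW Pool.Agent.MUXJ Pool.Agent.TWT Pool.Agent.TWR
open Pool.Agent.MU3V (Sub GD)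

/-- FIN2: for every `b ≥ 1` there is `C` such that every interval `[n0, n0 + C]` contains `n` with `v_p h(L) = v_p h(L ∩ K B_n)`
for all fields `k ≤ L ≤ K B_(n+b)`. -/
def S_FIN2 : Prop :=
  ∀ (l g h : ℕ), Gen l g h → ∀ (p : ℕ) (A B : ℤ) (P : Ideal (OO A B))
    (V : ValuationSubring ℂ) (f : ℕ), SetG p A B P V f → l ^ h ∣ f → TorX A B →
    ∀ (ι : Type) [Fintype ι] (R : Reps A B (p * f) ι), GRd V R →
    ∀ (K : IntermediateField ℚ ℂ) [FiniteDimensional ℚ K] [FiniteDimensional ℚ (kk A B)]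
    (hk : kk A B ≤ K), ¬ p ∣ Module.finrank (kk A B) (IntermediateField.extendScalars hk) →
    Sub K (RF (idl f) : IntermediateField (kk A B) ℂ) →
    ∀ (Bn : ℕ → IntermediateField ℚ ℂ) [∀ n, FiniteDimensional ℚ ↥(K ⊔ Bn n)],
    (∀ n, IsLayer l n (Bn n)) → Monotone Bn →
    (∀ n, Sub (K ⊔ Bn n) (RF (idl (f * l ^ (n + h))) : IntermediateField (kk A B) ℂ)) →
    ∀ b : ℕ, 1 ≤ b → ∃ C : ℕ, ∀ n0 : ℕ, ∃ n : ℕ, n0 ≤ n ∧ n ≤ n0 + C ∧
      ∀ L : IntermediateField ℚ ℂ, kk A B ≤ L → L ≤ K ⊔ Bn (n + b) →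
        padicValNat p (classNo L) = padicValNat p (classNo (L ⊓ (K ⊔ Bn n)))

theorem t_FIN2 (hF : S_FIN1) (hU : S_UNITB) : S_FIN2 := by
  intro l g h hgen p A B P V f hS hlf T ι _ R hR K _ _ hk hcop hKf Bn _ hlay hmono hsub b hb
  have hp : Fact p.Prime := ⟨hS.pp⟩
  have hl : l.Prime := by
    rcases hgen with h1 | h1
    · rw [h1.1]; exact Nat.prime_three
    · rw [h1.1]; exact Nat.prime_two
  have hlF : Fact l.Prime := ⟨hl⟩
  have hh : h ≠ 0 := by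
    rcases hgen with h1 | h1 <;> omega
  have hlf' : l ∣ f := (dvd_pow_self l hh).trans hlf
  have h2f : 2 ∣ f := by
    have h1 : (2 : ℤ) ∣ (f : ℤ) := (Dvd.intro _ rfl).trans hS.fD
    exact_mod_cast h1
  have hV : V.valuation (p : ℂ) < 1 := by
    have h1 : ((p : ℕ) : OO A B) ∈ P := hS.hP.mem
    have h2 := (hS.hV _).2 h1
    rw [ValuationSubring.mem_nonunits_iff] at h2
    have h3 : emb ((p : ℕ) : OO A B) = (p : ℂ) := by
      unfold emb
      simp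
    rwa [h3] at h2
  obtain ⟨a, H, ha1, hacop, hH, n₁, hn₁⟩ := hF p l h f hS.p5 hS.fp hS.f0 h2f hlf' A B hS.cq T V hV
    (p * f) ι R K hk hcop hKf Bn hlay hmono hsub
  obtain ⟨C, hC⟩ := hU l g h hgen p A B P V f hS hlf T ι R hR K hk hKf Bn hlay hmono hsub a ha1
    hacop H hH b hb
  refine ⟨n₁ + C, fun n0 => ?_⟩
  obtain ⟨n, hn1, hn2, hn3⟩ := hC (n0 + n₁)
  refine ⟨n, by omega, by omega, ?_⟩
  exact hn₁ n (by omega) b fun s hs => hn3 s hs

end Pool.Agent.TWK
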