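import Pool.Agent.MUX.StKX

/-!
# TWK: from a unit of one layer to class numbers (helper96), block K of Theorem C of MP_b78433_nt

`k ≤ L ≤ M` number fields, `M / k` abelian, `g` in `Gal(L / k)` fixes all primes above `S`, `f : J L → F` an eigenfunctional of
`Gal(L / k)` with character `χ`, `χ g ≠ 1`. If a unit `u` of `L` satisfies the Kolyvagin relations (`KRelX`) and its `χ`-component is not a `p`-th
power in `M` then `f` vanishes on the norms from `M`; if the order of some `χ h` is at least `[M : L]` it is zero. If this holds for all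
`χ` with `χ g ≠ 1` the class numbers of `L` and of the fixed field of `g` have the same `p`-part. Here `p` does not divide `[L : k]`
and there is no `p`-tower. Every `def S_X : Prop` is the statement of a module, which proves
`theorem t_X (h : S_Y) ... : S_X` (namespace `Pool.Agent.TWK`, file `Pool/Agent/TWK/X.lean`); the doc string contains the
proof; `Uses` names the hypotheses (statements `S_...` of `Pool/Agent/MUX/StKX.lean`, namespace `MUXK`, are proved there).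
`Above`, `SU`, `SJ`, `vJ`, `P_UNI`: `Pool/Agent/MU3`.
-/

set_option autoImplicit false

open NumberField IsDedekindDomain Finset
open scoped nonZeroDivisors Pointwise

namespace Pool.Agent.TWK

open Pool.Agent.MU3 Pool.Agent.RI Pool.Agent.MUXK

/-! ## Definitions -/

/-- `∏_δ (δ c) ^ θ(χ(δ)⁻¹)`, `δ` in `Gal(L / k)`, for a unit `c`. -/
noncomputable def sU {k L F : Type} [Field k] [NumberField k] [Field L] [NumberField L]
    [Algebra k L] [Field F] (p : ℕ) (χ : (L ≃ₐ[k] L) →* Fˣ) (θ : F →+ ZMod p) (c : (𝓞 L)ˣ) :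
    (𝓞 L)ˣ :=
  ∏ δ : L ≃ₐ[k] L, (δ • c) ^ (θ ((χ δ)⁻¹ : Fˣ)).val

/-- `∏_δ (δ x) ^ θ(χ(δ)⁻¹)`, `δ` in `Gal(L / k)`, for an element `x` of `L`. -/
noncomputable def sE {k L F : Type} [Field k] [NumberField k] [Field L] [NumberField L]
    [Algebra k L] [Field F] (p : ℕ) (χ : (L ≃ₐ[k] L) →* Fˣ) (θ : F →+ ZMod p) (x : L) : L :=
  ∏ δ : L ≃ₐ[k] L, (δ x) ^ (θ ((χ δ)⁻¹ : Fˣ)).val

/-- `f` is additive, zero on the principal ideals, and an eigenvector of `Gal(L / k)` with character `χ`. -/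
structure Eig {k L F : Type} [Field k] [Field L] [NumberField L] [Algebra k L] [Field F]
    (χ : (L ≃ₐ[k] L) →* Fˣ) (f : J L → F) : Prop where
  add : ∀ x y, f (x * y) = f x + f y
  pri : ∀ x ∈ (prin : Lˣ →* J L).range, f x = 0
  eig : ∀ (δ : L ≃ₐ[k] L) (x : J L), f (δ • x) = (χ δ : F) * f x

/-- `N` is a norm on fractional ideals: the properties used here (see `S_NRJ`). -/
structure IsN (k L M : Type) [Field k] [NumberField k] [Field L] [NumberField L] [Field M]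
    [NumberField M] [Algebra k L] [Algebra L M] [Algebra k M] (N : J M →* J L) : Prop where
  pri : ∀ x : Mˣ, N (prin x) = prin (Units.map (Algebra.norm L : M →* L) x)
  pr : ∀ (w : HeightOneSpectrum (𝓞 M)) (v : HeightOneSpectrum (𝓞 L)),
    w.asIdeal.under (𝓞 L) = v.asIdeal →
    Nat.card (𝓞 M ⧸ w.asIdeal) = Nat.card (𝓞 L ⧸ v.asIdeal) → N (vJ w) = vJ v
  eq : ∀ (σ : M ≃ₐ[k] M) (τ : L ≃ₐ[k] L),
    (∀ x : L, algebraMap L M (τ x) = σ (algebraMap L M x)) → ∀ z : J M, N (σ • z) = τ • N z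

/-! ## The statements -/

/-- REL1: the relation of `u` at the good prime `lam`.
Uses S_LGX. PROOF. (See `NILX` of MU3 / `S_NILXX`.) `a`, `lg` from LGX for `lam` (`p ∣ q - 1` by `GoodPrP.dvd`). Put `b h = (lg (h⁻¹ • u)).val`: `(h⁻¹ u)^((q-1)/p) - a^(b h) ∈ lam`, apply `h`:
`u^((q-1)/p) - a^(b h) ∈ h • lam`. `RelAt`: `∏_h (h • vJ lam)^(b h) = prin κ * I^p * s`, `s ∈ SJ S L`. `f s = 0`: for `v` above `S`, `g • vJ v = vJ v`, so `f(vJ v) = χ(g) f(vJ v)`, `χ(g) ≠ 1`, so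
`f(vJ v) = 0` (`Subgroup.closure_induction`). `f(I^p) = p f(I) = 0`. So `(Σ_h b h χ(h)) f(vJ lam) = 0`. If the sum is not `0` we are done. If it is `0`: `Σ_δ χ(δ)⁻¹ lg(δ • u) = 0` in `F` (`h = δ⁻¹`), and
`lg (sU p χ θ u) = Σ_δ θ(χ(δ)⁻¹) lg(δ • u) = θ(Σ_δ lg(δ • u) χ(δ)⁻¹) = θ 0 = 0` (`θ(n x) = n θ(x)`), so by the last property of LGX `sU p χ θ u - v^p ∈ lam` for some `v`, a contradiction. -/
def S_REL1 : Prop := ∀ (p : ℕ) [Fact p.Prime] (F : Type) [Field F] [CharP F p] (k L : Type)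
    [Field k] [NumberField k] [Field L] [NumberField L] [Algebra k L] [IsGalois k L]
    (S : Finset ℕ) (χ : (L ≃ₐ[k] L) →* Fˣ) (θ : F →+ ZMod p) (f : J L → F), Eig χ f →
    ∀ g : L ≃ₐ[k] L, χ g ≠ 1 →
    (∀ v : HeightOneSpectrum (𝓞 L), Above S v → g • v.asIdeal = v.asIdeal) →
    ∀ (u : (𝓞 L)ˣ) (lam : HeightOneSpectrum (𝓞 L)) (q : ℕ), GoodPrP p k L S lam q →
    RelAt p k L S u lam q → (∀ a : 𝓞 L, (sU p χ θ u : 𝓞 L) - a ^ p ∉ lam.asIdeal) →
    f (vJ lam) = 0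

/-- NRM1: the eigenfunctional vanishes on the norms from `M`.
Uses S_REL1, S_STABX, S_THDX. PROOF. `U` = the `x : J M` with `f (N x) = 0`: a subgroup (`f` additive, so `f 1 = 0`, `f x⁻¹ = - f x`), contains `prin.range` (`IsN.pri`, `Eig.pri`), stable under `Gal(M/k)`: `σ` restricts to
`τ ∈ Gal(L/k)` (`AlgEquiv.restrictNormal`), `f(N(σ x)) = χ(τ) f(N x) = 0`. Let `w` be a prime of `M`, `#(𝓞 M ⧸ w) = q` prime, `q ∉ S`, `t` = the image in `(𝓞 M)ˣ` of `sU p χ θ u`, not a `p`-th power modulo `w`. `v = w ∩ 𝓞 L`: `𝓞 L ⧸ v → 𝓞 M ⧸ w`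
is injective, so `#(𝓞 L ⧸ v) = q` (a subgroup of a group of prime order). `HasAb L M v q`, so `v` is good (STABX), `sU p χ θ u - a^p ∉ v` for all `a : 𝓞 L`, REL1 (with `KRelX`) gives `f(vJ v) = 0`, and `N(vJ w) = vJ v`, so
`vJ w ∈ U`. THDX for `M / k`, `ζ ^ 2` (a primitive `p`-th root of unity), `t`: `(σ • x) * x⁻¹ ∈ U` for all `σ`; take `σ` an extension of `g` (`AlgEquiv.restrictNormalHom_surjective`): `0 = f(N(σ x)) - f(N x) = (χ(g) - 1) f(N x)`. -/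
def S_NRM1 : Prop := ∀ (p : ℕ) [Fact p.Prime] (F : Type) [Field F] [CharP F p]
    (k L M : Type) [Field k] [NumberField k] [Field L] [NumberField L] [Field M] [NumberField M]
    [Algebra k L] [Algebra L M] [Algebra k M] [IsScalarTower k L M] [IsGalois k L] [IsGalois k M]
    (S : Finset ℕ) (ζ : 𝓞 M), IsPrimitiveRoot ζ (2 * p) → 2 ∈ S → p ∈ S → (∀ ℓ ∈ S, ℓ.Prime) →
    (∀ v : HeightOneSpectrum (𝓞 L), ¬ Above S v → v.asIdeal.ramificationIdx (𝓞 k) = 1) →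
    ∀ g : L ≃ₐ[k] L,
    (∀ v : HeightOneSpectrum (𝓞 L), Above S v → g • v.asIdeal = v.asIdeal) →
    ∀ (χ : (L ≃ₐ[k] L) →* Fˣ) (θ : F →+ ZMod p) (u : (𝓞 L)ˣ), χ g ≠ 1 → KRelX p k L M S u →
    (∀ y : M, y ^ p ≠ algebraMap L M ((sU p χ θ u : 𝓞 L) : L)) →
    ∀ f : J L → F, Eig χ f → ∀ N : J M →* J L, IsN k L M N → ∀ x : J M, f (N x) = 0

/-- IDX1: an eigenfunctional which vanishes on the norms is zero, if the order of a value of `χ` is at least `[M : L]`.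
Uses S_NIX. PROOF. `U` = the kernel of `f` (a homomorphism `J L →* Multiplicative F`), contains `prin.range` and every `vJ v` with `#(𝓞 L ⧸ v) = q` and `HasAb L M v q`
(`vJ v = N(vJ w)`, `IsN.pr`). NIX: `U.index ≠ 0`, `U.index ≤ [M : L]`. `U.index` is the number of values of `f` (`Subgroup.index_ker`). If `f y ≠ 0` the values `f(h^i • y) = χ(h)^i f(y)`, `i < orderOf (χ h)`, are
different and not `0`, and `f 1 = 0`: more than `[M : L]` values, a contradiction. -/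
def S_IDX1 : Prop := ∀ (F : Type) [Field F]
    (k L M : Type) [Field k] [NumberField k] [Field L] [NumberField L] [Field M] [NumberField M]
    [Algebra k L] [Algebra L M] [Algebra k M] [IsGalois k L] (S : Finset ℕ), (∀ ℓ ∈ S, ℓ.Prime) →
    ∀ (χ : (L ≃ₐ[k] L) →* Fˣ) (f : J L → F), Eig χ f → ∀ N : J M →* J L, IsN k L M N →
    (∀ x : J M, f (N x) = 0) → ∀ h : L ≃ₐ[k] L, Module.finrank L M ≤ orderOf (χ h) →
    ∀ y, f y = 0

/-- TRV1: `g` acts trivially on the class group modulo `p`-th powers.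
Uses S_EIGX. PROOF. EIGX with `G = Gal(L / k)`, `D = ⊤` (of order `[L : k]`, prime to `p`), `I = J L`, `P` = the `x` with `x = y ^ p * prin z` (the product of the subgroups of the `p`-th powers and `prin.range`; stable:
`smul_prin` of RI). If `v = (g • x) * x⁻¹ ∉ P` there are `χ : ⊤ →* Fˣ` (a character of `Gal(L/k)` via `Subgroup.topEquiv`) and `f`, `Eig χ f`, `f v ≠ 0`; but `f v = (χ(g) - 1) f(x)`, so `χ(g) ≠ 1` and `f x ≠ 0`, a contradiction. -/
def S_TRV1 : Prop := ∀ (p : ℕ) [Fact p.Prime] (F : Type) [Field F] [CharP F p] [IsAlgClosed F]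
    (k L : Type) [Field k] [NumberField k] [Field L] [NumberField L] [Algebra k L] [IsGalois k L],
    (∀ σ τ : L ≃ₐ[k] L, σ * τ = τ * σ) → ¬ p ∣ Module.finrank k L → ∀ g : L ≃ₐ[k] L,
    (∀ (χ : (L ≃ₐ[k] L) →* Fˣ) (f : J L → F), Eig χ f → χ g ≠ 1 → ∀ x, f x = 0) →
    ∀ x : J L, ∃ (y : J L) (z : Lˣ), (g • x) * x⁻¹ = y ^ p * prin z

/-- CLG1: the class numbers.
Uses nothing (`CL_thm` of RI, `Pool/Agent/RI/CL.lean`). PROOF. By `CL_thm` it is enough to show `RelTriv F₁ L p`. `d = [L : F₁]` = the order of `⟨g₁⟩ = Gal(L / F₁)`, `N x = ∏_σ σ • x`, `T x = (g₁ • x) * x⁻¹` (`g₁ • x = g • x`, same underlying map). `B` = the `x : J L` with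
`N x = 1`. Let `x ∈ B`: `x^d = x^d / N x = ∏_(i < d) (x / g₁^i x) = T w` with `w = ∏_(i < d) ∏_(j < i) g₁^j • x⁻¹` (`T(g₁^j x⁻¹) = g₁^j x / g₁^(j+1) x`). So by hypothesis `x^d = y^p * prin z`. Apply `π(x) = x^d / N x` (multiplicative, values in `B`:
`N (N y) = (N y)^d`, and `π (prin z)` is principal, `smul_prin`): `x^(d²) = π(x^d) = π(y)^p * prin z'`. So in the finite group `C` = the image of `B` in `J L ⧸ prin.range` (`CL.finite_quot`) every `c^(d²)` is a `p`-th power of an element of `C`; `d²` is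
prime to `p`: every element of `C` is a `p`-th power (`c = (c^(d²))^a (c^p)^b`), so `c ↦ c^p` is bijective on `C`, so `p` does not divide `|C|` (Cauchy: `exists_prime_orderOf_dvd_card'`), and `x^|C|` is principal for `x ∈ B`. -/
def S_CLG1 : Prop := ∀ (p : ℕ) [Fact p.Prime] (k F₁ L : Type) [Field k] [Field F₁] [NumberField F₁]
    [Field L] [NumberField L] [Algebra k L] [Algebra F₁ L] [IsGalois F₁ L]
    (g : L ≃ₐ[k] L) (g₁ : L ≃ₐ[F₁] L), (∀ x, g₁ x = g x) →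
    (∀ h : L ≃ₐ[F₁] L, h ∈ Subgroup.zpowers g₁) → ¬ p ∣ Module.finrank F₁ L →
    (∀ x : J L, ∃ (y : J L) (z : Lˣ), (g • x) * x⁻¹ = y ^ p * prin z) →
    padicValNat p (NumberField.classNumber L) = padicValNat p (NumberField.classNumber F₁)

/-- NPW1: from `c` to `u = g ^ p c / c`.
PROOF. `α = χ(g)^p - 1 ≠ 0` (`χ(g)^p = 1` implies `(χ(g) - 1)^p = 0`), `θ' x = θ(α⁻¹ x)`. `sU p χ θ' u = ∏_δ (δ g^p c)^(θ'(χ(δ)⁻¹)) / ∏_δ (δ c)^(θ'(χ(δ)⁻¹))`; replace `δ g^p` by `δ` in the first product (`χ(δ g^(-p))⁻¹ = χ(g)^p χ(δ)⁻¹`):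
the exponent of `δ c` is `θ'(χ(g)^p χ(δ)⁻¹).val - θ'(χ(δ)⁻¹).val ≡ θ'(α χ(δ)⁻¹).val = θ(χ(δ)⁻¹).val` modulo `p`. So `sU p χ θ' u = sE p χ θ c * w^p` with `w ∈ L`, `w ≠ 0`. If the image of it is `y^p` then the image of `sE p χ θ c` is `(y / w)^p`. -/
def S_NPW1 : Prop := ∀ (p : ℕ) [Fact p.Prime] (F : Type) [Field F] [CharP F p]
    (k L M : Type) [Field k] [NumberField k] [Field L] [NumberField L] [Field M]
    [Algebra k L] [Algebra L M] (χ : (L ≃ₐ[k] L) →* Fˣ) (g : L ≃ₐ[k] L), χ g ≠ 1 →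
    ∀ (c : L) (u : (𝓞 L)ˣ), c ≠ 0 → ((u : 𝓞 L) : L) = (g ^ p) c / c →
    ∀ θ : F →+ ZMod p, (∀ y : M, y ^ p ≠ algebraMap L M (sE p χ θ c)) →
    ∃ θ' : F →+ ZMod p, ∀ y : M, y ^ p ≠ algebraMap L M ((sU p χ θ' u : 𝓞 L) : L)

/-- KOL1: the relations for `u = g ^ p c₀ / c₀`, `c₀` the norm of `c`.
Uses S_KINX, S_KNM, S_UNI (proved in `Pool/Agent/MU3/P_UNI.lean`). PROOF. `u' = g'^p c / c` is a unit of `𝓞 M`: at the primes above `S` the valuations of `g'^p c` and `c` agree because `g'` fixes these primes, at the others both are `1` (`SU`); see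
`Pool/Agent/MUX/K_KOLX.lean`, where the same is done for subfields of `ℂ`. KINX with `g'` gives `KRelP p k M S u'`. `Algebra.norm L u' = g^p c₀ / c₀` (`Algebra.norm L (g' x) = g (Algebra.norm L x)`: `Algebra.norm_eq_prod_automorphisms`, conjugation by `g'`;
or because `Gal(M/k)` is abelian). `u` = the norm of `u'` as a unit of `𝓞 L`. KNM. -/
def S_KOL1 : Prop := ∀ (p : ℕ) [Fact p.Prime]
    (k L M : Type) [Field k] [NumberField k] [Field L] [NumberField L] [Field M] [NumberField M]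
    [Algebra k L] [Algebra L M] [Algebra k M] [IsScalarTower k L M] [IsGalois k L] [IsGalois k M],
    (∀ σ τ : M ≃ₐ[k] M, σ * τ = τ * σ) →
    ∀ (S : Finset ℕ) (ζ : 𝓞 M), IsPrimitiveRoot ζ (2 * p) → 2 ∈ S → p ∈ S → (∀ ℓ ∈ S, ℓ.Prime) →
    (∀ v : HeightOneSpectrum (𝓞 M), ¬ Above S v → v.asIdeal.ramificationIdx (𝓞 k) = 1) →
    ∀ (c : M) (Gs : Set (M ≃ₐ[k] M)), c ≠ 0 → SU S M c → KolInP p k M Gs S c → ∀ g' ∈ Gs,
    (∀ v : HeightOneSpectrum (𝓞 M), Above S v → g' • v.asIdeal = v.asIdeal) →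
    ∀ g : L ≃ₐ[k] L, (∀ x : L, algebraMap L M (g x) = g' (algebraMap L M x)) →
    ∃ u : (𝓞 L)ˣ, ((u : 𝓞 L) : L) = (g ^ p) (Algebra.norm L c) / Algebra.norm L c ∧
      KRelX p k L M S u

/-- FIX1: from `M` to `L`: primes above `S` and ramification.
PROOF. Over every prime `v` of `L` there is a prime `w` of `M` (`Ideal.exists_ideal_over_prime_of_isIntegral` or `Ideal.exists_maximal_ideal_liesOver_of_isIntegral`), `w ∩ 𝓞 L = v`, and `w` is above `S` if and only if `v` is.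
(1) `g v = (g' w) ∩ 𝓞 L = w ∩ 𝓞 L = v`. (2) `1 = e(w/k) = e(w/v) e(v/k)` (`Ideal.ramificationIdx_tower` / `ramificationIdx_algebra_tower`). -/
def S_FIX1 : Prop := ∀ (k L M : Type) [Field k] [NumberField k] [Field L] [NumberField L]
    [Field M] [NumberField M] [Algebra k L] [Algebra L M] [Algebra k M] [IsScalarTower k L M]
    (S : Finset ℕ),
    (∀ (g' : M ≃ₐ[k] M) (g : L ≃ₐ[k] L), (∀ x : L, algebraMap L M (g x) = g' (algebraMap L M x)) →
      (∀ v : HeightOneSpectrum (𝓞 M), Above S v → g' • v.asIdeal = v.asIdeal) →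
      ∀ v : HeightOneSpectrum (𝓞 L), Above S v → g • v.asIdeal = v.asIdeal) ∧
    ((∀ v : HeightOneSpectrum (𝓞 M), ¬ Above S v → v.asIdeal.ramificationIdx (𝓞 k) = 1) →
      ∀ v : HeightOneSpectrum (𝓞 L), ¬ Above S v → v.asIdeal.ramificationIdx (𝓞 k) = 1)

/-- PWL1: `p`-th powers in an abelian extension of a field without `p`-th roots of unity.
PROOF. `y^p = s ≠ 0` (if `s = 0` take `x = 0`). For `τ ∈ Gal(M/L)`: `τ ω = ω^(e τ)`, `τ y = ω^(c τ) y` (exponents in `ZMod p`). `ω ∉ L`, so there is `σ` with `e σ ≠ 1` (`M / L` Galois). `σ τ y = τ σ y`: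
`e(σ) c(τ) + c(σ) = e(τ) c(σ) + c(τ)`, so `(e σ - 1) c(τ) = (e τ - 1) c(σ)`; with `b = c(σ)/(e σ - 1)`: `c(τ) = (e τ - 1) b` for all `τ`. `y' = y ω^(-b)`: `τ y' = ω^(c τ - e(τ) b) y = ω^(-b) y = y'` for all `τ`, so `y' ∈ L`, and
`y'^p = s`. -/
def S_PWL1 : Prop := ∀ (p : ℕ) [Fact p.Prime] (L M : Type) [Field L] [NumberField L] [Field M]
    [NumberField M] [Algebra L M] [IsGalois L M] (ω : M), (∀ σ τ : M ≃ₐ[L] M, σ * τ = τ * σ) →
    IsPrimitiveRoot ω p → (¬ ∃ z : L, IsPrimitiveRoot z p) → ∀ (s : L) (y : M),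
    y ^ p = algebraMap L M s → ∃ x : L, x ^ p = s

/-- K1: the result of the block.
Uses S_NRM1, S_IDX1, S_TRV1, S_CLG1, S_NPW1, S_KOL1, S_FIX1, S_NRJ. PROOF. `N` from NRJ (`IsN`), `u` from KOL1, `c₀ = Algebra.norm L c ≠ 0`. `g` fixes the primes of `L` above `S` and `L / k` is unramified outside `S` (FIX1). By TRV1 and CLG1 (`¬ p ∣ [L : F₁]` as `[L : F₁]` is the order
of a subgroup of `Gal(L/k)`: `hdiv`) it is enough that `f = 0` whenever `Eig χ f`, `χ g ≠ 1`. Hypothesis (b) and NPW1: `θ'` with `sU p χ θ' u` not a `p`-th power in `M`; NRM1: `f (N x) = 0` for all `x`; IDX1 with (a): `f = 0`. -/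
def S_K1 : Prop := ∀ (p : ℕ) [Fact p.Prime] (F : Type) [Field F] [CharP F p] [IsAlgClosed F]
    (k F₁ L M : Type) [Field k] [NumberField k] [Field F₁] [NumberField F₁] [Field L]
    [NumberField L] [Field M] [NumberField M] [Algebra k L] [Algebra F₁ L] [Algebra L M]
    [Algebra k M] [IsScalarTower k L M] [IsGalois k L] [IsGalois k M] [IsGalois F₁ L],
    (∀ σ τ : M ≃ₐ[k] M, σ * τ = τ * σ) → ¬ p ∣ Module.finrank k L → ¬ p ∣ Module.finrank F₁ L →
    ∀ (S : Finset ℕ) (ζ : 𝓞 M), IsPrimitiveRoot ζ (2 * p) → 2 ∈ S → p ∈ S → (∀ ℓ ∈ S, ℓ.Prime) →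
    (∀ v : HeightOneSpectrum (𝓞 M), ¬ Above S v → v.asIdeal.ramificationIdx (𝓞 k) = 1) →
    ∀ (c : M) (Gs : Set (M ≃ₐ[k] M)), c ≠ 0 → SU S M c → KolInP p k M Gs S c → ∀ g' ∈ Gs,
    (∀ v : HeightOneSpectrum (𝓞 M), Above S v → g' • v.asIdeal = v.asIdeal) →
    ∀ (g : L ≃ₐ[k] L) (g₁ : L ≃ₐ[F₁] L),
    (∀ x : L, algebraMap L M (g x) = g' (algebraMap L M x)) → (∀ x, g₁ x = g x) →
    (∀ h : L ≃ₐ[F₁] L, h ∈ Subgroup.zpowers g₁) →
    (∀ χ : (L ≃ₐ[k] L) →* Fˣ, χ g ≠ 1 →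
      (∃ h : L ≃ₐ[k] L, Module.finrank L M ≤ orderOf (χ h)) ∧
      ∃ θ : F →+ ZMod p, ∀ y : M, y ^ p ≠ algebraMap L M (sE p χ θ (Algebra.norm L c))) →
    padicValNat p (NumberField.classNumber L) = padicValNat p (NumberField.classNumber F₁)

end Pool.Agent.TWK
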