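import Pool.Agent.TWK.StK2

/-!
# TWK, third part: the unit lives in an intermediate field `D` (helper96), Theorem C of MP_b78433_nt

`k ≤ L ≤ D ≤ M`: the element `c` with the Kolyvagin input is in `D` (no `p`-th roots of unity in `D`), the `2p`-th roots of unity are in `M`.
Statements and proofs as in `StK1.lean`, `StK2.lean` (`S_KOL1`, `S_K1`, `S_K2`); the new point is `S_KNM3`. All modules: helper96.
-/

set_option autoImplicit false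

open NumberField IsDedekindDomain Finset
open scoped nonZeroDivisors Pointwise

namespace Pool.Agent.TWK

open Pool.Agent.MU3 Pool.Agent.RI Pool.Agent.RID Pool.Agent.MUXK

/-- KNM3: the norm step from `D` to `L`; the primes of degree one of `M`.
Uses S_NRJ, S_STABX. PROOF. As `S_KNM` (`Pool/Agent/MUX/K_KNM.lean`): for a good prime `lam` of `L` with a prime `w` of `M` above with `q` classes, `w_D = w ∩ 𝓞 D` has `q` classes, it is good by STABX for `D`, `M`. -/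
def S_KNM3 : Prop := ∀ (p : ℕ) [Fact p.Prime] (k L D M : Type) [Field k] [NumberField k] [Field L]
    [NumberField L] [Field D] [NumberField D] [Field M] [NumberField M] [Algebra k L]
    [Algebra L D] [Algebra k D] [Algebra D M] [Algebra L M]
    [IsScalarTower k L D] [IsScalarTower L D M] [IsGalois k L] [IsGalois k D],
    (∀ σ τ : D ≃ₐ[k] D, σ * τ = τ * σ) →
    ∀ (S : Finset ℕ) (ζ : 𝓞 M), IsPrimitiveRoot ζ (2 * p) → 2 ∈ S → p ∈ S → (∀ ℓ ∈ S, ℓ.Prime) →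
    (∀ v : HeightOneSpectrum (𝓞 D), ¬ Above S v → v.asIdeal.ramificationIdx (𝓞 k) = 1) →
    ∀ (u : (𝓞 D)ˣ) (u₀ : (𝓞 L)ˣ), ((u₀ : 𝓞 L) : L) = Algebra.norm L ((u : 𝓞 D) : D) →
    KRelP p k D S u → KRelX p k L M S u₀

/-- KOL3: the relations for `u = g ^ p c₀ / c₀`, `c₀` the norm of `c ∈ D`.
Uses S_KINX, S_KNM3. PROOF. As `KOL1`. -/
def S_KOL3 : Prop := ∀ (p : ℕ) [Fact p.Prime]
    (k L D M : Type) [Field k] [NumberField k] [Field L] [NumberField L] [Field D] [NumberField D]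
    [Field M] [NumberField M]
    [Algebra k L] [Algebra L D] [Algebra k D] [Algebra D M] [Algebra L M]
    [IsScalarTower k L D] [IsScalarTower L D M] [IsGalois k L] [IsGalois k D],
    (∀ σ τ : D ≃ₐ[k] D, σ * τ = τ * σ) →
    ∀ (S : Finset ℕ) (ζ : 𝓞 M), IsPrimitiveRoot ζ (2 * p) → 2 ∈ S → p ∈ S → (∀ ℓ ∈ S, ℓ.Prime) →
    (∀ v : HeightOneSpectrum (𝓞 D), ¬ Above S v → v.asIdeal.ramificationIdx (𝓞 k) = 1) →
    ∀ (c : D) (Gs : Set (D ≃ₐ[k] D)), c ≠ 0 → SU S D c → KolInP p k D Gs S c → ∀ g' ∈ Gs,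
    (∀ v : HeightOneSpectrum (𝓞 D), Above S v → g' • v.asIdeal = v.asIdeal) →
    ∀ g : L ≃ₐ[k] L, (∀ x : L, algebraMap L D (g x) = g' (algebraMap L D x)) →
    ∃ u : (𝓞 L)ˣ, ((u : 𝓞 L) : L) = (g ^ p) (Algebra.norm L c) / Algebra.norm L c ∧
      KRelX p k L M S u

/-- K3: the abstract result with an intermediate field.
Uses S_NRM1, S_IDX1, S_TRV1, S_CLG1, S_NPW1, S_KOL3, S_FIX1, S_NRJ. PROOF. As `K1`. -/
def S_K3 : Prop := ∀ (p : ℕ) [Fact p.Prime] (F : Type) [Field F] [CharP F p] [IsAlgClosed F]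
    (k F₁ L D M : Type) [Field k] [NumberField k] [Field F₁] [NumberField F₁] [Field L]
    [NumberField L] [Field D] [NumberField D] [Field M] [NumberField M] [Algebra k L]
    [Algebra F₁ L] [Algebra L D] [Algebra k D] [Algebra D M] [Algebra L M]
    [Algebra k M] [IsScalarTower k L D] [IsScalarTower L D M] [IsScalarTower k D M]
    [IsScalarTower k L M] [IsGalois k L] [IsGalois k D] [IsGalois k M] [IsGalois F₁ L],
    (∀ σ τ : M ≃ₐ[k] M, σ * τ = τ * σ) → ¬ p ∣ Module.finrank k L → ¬ p ∣ Module.finrank F₁ L →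
    ∀ (S : Finset ℕ) (ζ : 𝓞 M), IsPrimitiveRoot ζ (2 * p) → 2 ∈ S → p ∈ S → (∀ ℓ ∈ S, ℓ.Prime) →
    (∀ v : HeightOneSpectrum (𝓞 M), ¬ Above S v → v.asIdeal.ramificationIdx (𝓞 k) = 1) →
    ∀ (c : D) (Gs : Set (D ≃ₐ[k] D)), c ≠ 0 → SU S D c → KolInP p k D Gs S c →
    ∀ (g'' : M ≃ₐ[k] M) (g' : D ≃ₐ[k] D) (g : L ≃ₐ[k] L) (g₁ : L ≃ₐ[F₁] L), g' ∈ Gs →
    (∀ v : HeightOneSpectrum (𝓞 M), Above S v → g'' • v.asIdeal = v.asIdeal) →
    (∀ x : D, algebraMap D M (g' x) = g'' (algebraMap D M x)) →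
    (∀ x : L, algebraMap L D (g x) = g' (algebraMap L D x)) → (∀ x, g₁ x = g x) →
    (∀ h : L ≃ₐ[F₁] L, h ∈ Subgroup.zpowers g₁) →
    (∀ χ : (L ≃ₐ[k] L) →* Fˣ, χ g ≠ 1 →
      (∃ h : L ≃ₐ[k] L, Module.finrank L M ≤ orderOf (χ h)) ∧
      ∃ θ : F →+ ZMod p, ∀ y : M, y ^ p ≠ algebraMap L M (sE p χ θ (Algebra.norm L c))) →
    padicValNat p (NumberField.classNumber L) = padicValNat p (NumberField.classNumber F₁)

/-- The fields of block K with an intermediate field: `k ≤ K ≤ K'' ≤ K'`, `K' / k` abelian, `[K : k]` prime to `p`, `K'` contains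
the `2p`-th roots of unity, the fields `K B_n` do not contain the `p`-th roots of unity. -/
structure SetD (p l : ℕ) (k K K'' K' : IntermediateField ℚ ℂ) (B : ℕ → IntermediateField ℚ ℂ) :
    Prop where
  set : SetC p l k K K' B
  le1 : K ≤ K''
  le2 : K'' ≤ K'

/-- K4: the result of block K for subfields of `ℂ`, the form used by Theorem C: `c` is in `K'' B_(n+1)`.
Uses S_K3, S_PWL1, S_SUBC, S_GALC, S_RAMC, S_LFT2, S_DEG2, S_NRM2, S_DSC2. -/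
def S_K4 : Prop := ∀ (p l : ℕ) [Fact p.Prime] [Fact l.Prime], p ≠ l →
    ∀ (F : Type) [Field F] [CharP F p] [IsAlgClosed F]
    (k K K'' K' : IntermediateField ℚ ℂ) (B : ℕ → IntermediateField ℚ ℂ)
    [FiniteDimensional ℚ k] [FiniteDimensional ℚ K] [FiniteDimensional ℚ K'']
    [FiniteDimensional ℚ K'] [∀ n, FiniteDimensional ℚ ↥(K ⊔ B n)]
    [∀ n, FiniteDimensional ℚ ↥(K'' ⊔ B n)] [∀ n, FiniteDimensional ℚ ↥(K' ⊔ B n)],
    SetD p l k K K'' K' B →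
    ∃ S' : Finset ℕ, 2 ∈ S' ∧ p ∈ S' ∧ (∀ ℓ ∈ S', ℓ.Prime) ∧
    ∀ S : Finset ℕ, S' ⊆ S → (∀ ℓ ∈ S, ℓ.Prime) → ∃ n₀ : ℕ, ∀ n, n₀ ≤ n →
    ∀ (h : k ≤ K ⊔ B (n + 1)) (h' : k ≤ K'' ⊔ B (n + 1)),
    letI := algC h
    letI := algC h'
    ∀ (c : ↥(K'' ⊔ B (n + 1))) (c₀ : ↥(K ⊔ B (n + 1))), c ≠ 0 → SU S ↥(K'' ⊔ B (n + 1)) c →
    KolInP p k ↥(K'' ⊔ B (n + 1)) {g | ∀ x : ↥(K'' ⊔ B (n + 1)), (x : ℂ) ∈ K'' → g x = x} S c →
    (c₀ : ℂ) = ∏ᶠ g : NC h' (K ⊔ B (n + 1)),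
      (((g : ↥(K'' ⊔ B (n + 1)) ≃ₐ[k] ↥(K'' ⊔ B (n + 1))) c : ↥(K'' ⊔ B (n + 1))) : ℂ) →
    (∀ χ : (↥(K ⊔ B (n + 1)) ≃ₐ[k] ↥(K ⊔ B (n + 1))) →* Fˣ,
      (∃ g : ↥(K ⊔ B (n + 1)) ≃ₐ[k] ↥(K ⊔ B (n + 1)),
        (∀ x : ↥(K ⊔ B (n + 1)), (x : ℂ) ∈ K ⊔ B n → g x = x) ∧ χ g ≠ 1) →
      ∃ θ : F →+ ZMod p, ∀ y : ↥(K ⊔ B (n + 1)), y ^ p ≠ sE p χ θ c₀) →
    ∀ L : IntermediateField ℚ ℂ, k ≤ L → L ≤ K ⊔ B (n + 1) →
      padicValNat p (classNo L) = padicValNat p (classNo (L ⊓ (K ⊔ B n)))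

end Pool.Agent.TWK
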