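import Pool.Agent.TWK.StK5
import Pool.Agent.MUX.StJX

/-!
# TWK, block K combined with the unit theorem (helper96), Theorem C of MP_b78433_nt

`UnitAt` is the conclusion of the unit theorem (`S_UNIT`, `Pool/Agent/TWT/DefsT.lean`) at one level `n`. `S_FIN1`: for large `n`, if it
holds at the levels `n, …, n + b - 1`, then `v_p h(L) = v_p h(L ∩ K B_n)` for all fields `k ≤ L ≤ K B_(n+b)`.
-/

set_option autoImplicit false

open NumberField IsDedekindDomain Finset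
open scoped nonZeroDivisors Pointwise

namespace Pool.Agent.TWK

open _root_.MU3 Pool.Agent.MU3 Pool.Agent.MU3A Pool.Agent.MU3B Pool.Agent.RI Pool.Agent.RID
  Pool.Agent.MUX Pool.Agent.MUXK Pool.Agent.MUXW Pool.Agent.MUXJ
open Pool.Agent.MU3V (Sub GD)

/-- the conclusion of the unit theorem at the level `n`: all characters of `Gal(K B_(n+1) / k)` which are not trivial on
`Gal(K B_(n+1) / K B_n)` have a part of the norm `c₀` of the elliptic unit of level `f l^(n+1+h) p` which is not a `p`-th power. -/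
def UnitAt {A B : ℤ} {N₀ : ℕ} {ι : Type} (p l h f : ℕ) (V : ValuationSubring ℂ)
    (R : Reps A B N₀ ι) (H : Finset ℂ) (K : IntermediateField ℚ ℂ)
    (Bn : ℕ → IntermediateField ℚ ℂ) [FiniteDimensional ℚ (kk A B)]
    [∀ n, FiniteDimensional ℚ ↥(K ⊔ Bn n)] (n : ℕ) : Prop :=
  ∀ (θ : (RF (idl (f * l ^ (n + 1 + h) * p)) : IntermediateField (kk A B) ℂ)),
    (θ : ℂ) = ThetaH (R.L R.i0) H (pt R (f * l ^ (n + 1 + h) * p) R.i0 1) →
    ∀ (h0 : kk A B ≤ K ⊔ Bn (n + 1)), letI := algC h0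
    ∀ (c₀ : ↥(K ⊔ Bn (n + 1))), (c₀ : ℂ) = cW h0 θ →
    ∀ χ : (↥(K ⊔ Bn (n + 1)) ≃ₐ[kk A B] ↥(K ⊔ Bn (n + 1))) →*
      (IsLocalRing.ResidueField V)ˣ,
      (∃ g : ↥(K ⊔ Bn (n + 1)) ≃ₐ[kk A B] ↥(K ⊔ Bn (n + 1)),
        (∀ x : ↥(K ⊔ Bn (n + 1)), (x : ℂ) ∈ K ⊔ Bn n → g x = x) ∧ χ g ≠ 1) →
      ∃ t : (IsLocalRing.ResidueField V) →+ ZMod p, ∀ y : ↥(K ⊔ Bn (n + 1)),
        y ^ p ≠ sE p χ t c₀

/-- SETD: the fields `K'' = RF (idl f)`, `K' = RF (idl (f p))`. -/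
def S_SETD : Prop := ∀ (p l : ℕ) [Fact p.Prime] [Fact l.Prime] (h f : ℕ), 5 ≤ p → ¬ p ∣ f →
    f ≠ 0 → 2 ∣ f → l ∣ f →
    ∀ (A B : ℤ), CQ A B → TorX A B → NLex A B →
    ∀ (K : IntermediateField ℚ ℂ) [FiniteDimensional ℚ K] [FiniteDimensional ℚ (kk A B)]
    (hk : kk A B ≤ K), ¬ p ∣ Module.finrank (kk A B) (IntermediateField.extendScalars hk) →
    Sub K (RF (idl f) : IntermediateField (kk A B) ℂ) →
    ∀ (Bn : ℕ → IntermediateField ℚ ℂ), (∀ n, IsLayer l n (Bn n)) → Monotone Bn →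
    (∀ n, Sub (K ⊔ Bn n) (RF (idl (f * l ^ (n + h))) : IntermediateField (kk A B) ℂ)) →
    ∃ (K'' K' : IntermediateField ℚ ℂ), FiniteDimensional ℚ K'' ∧ FiniteDimensional ℚ K' ∧
      SetD p l (kk A B) K K'' K' Bn ∧ HasH A B K'' ∧
      ∀ n, Sub (K'' ⊔ Bn n) (RF (idl (f * l ^ (n + h))) : IntermediateField (kk A B) ℂ)

/-- FIN1: block K combined with the unit theorem. -/
def S_FIN1 : Prop := ∀ (p l : ℕ) [Fact p.Prime] [Fact l.Prime] (h f : ℕ), 5 ≤ p → ¬ p ∣ f →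
    f ≠ 0 → 2 ∣ f → l ∣ f →
    ∀ (A B : ℤ), CQ A B → TorX A B → ∀ V : ValuationSubring ℂ, V.valuation (p : ℂ) < 1 →
    ∀ (N₀ : ℕ) (ι : Type) [Finite ι] (R : Reps A B N₀ ι)
    (K : IntermediateField ℚ ℂ) [FiniteDimensional ℚ K] [FiniteDimensional ℚ (kk A B)]
    (hk : kk A B ≤ K), ¬ p ∣ Module.finrank (kk A B) (IntermediateField.extendScalars hk) →
    Sub K (RF (idl f) : IntermediateField (kk A B) ℂ) →
    ∀ (Bn : ℕ → IntermediateField ℚ ℂ) [∀ n, FiniteDimensional ℚ ↥(K ⊔ Bn n)],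
    (∀ n, IsLayer l n (Bn n)) → Monotone Bn →
    (∀ n, Sub (K ⊔ Bn n) (RF (idl (f * l ^ (n + h))) : IntermediateField (kk A B) ℂ)) →
    ∃ (a : ℕ) (H : Finset ℂ), 1 < a ∧ a.Coprime (6 * f * p) ∧ IsHalf (R.L R.i0) a H ∧
      ∃ n₁ : ℕ, ∀ n, n₁ ≤ n → ∀ b : ℕ, (∀ s < b, UnitAt p l h f V R H K Bn (n + s)) →
      ∀ L : IntermediateField ℚ ℂ, kk A B ≤ L → L ≤ K ⊔ Bn (n + b) →
        padicValNat p (classNo L) = padicValNat p (classNo (L ⊓ (K ⊔ Bn n)))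

end Pool.Agent.TWK
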